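import Pool.Agent.H.MP_0ec261_nt.AP.Res

/-!
PROOF of sft_good. `m ≡ a mod p` for all `p ∈ S` (as `p ∣ ∏ S`). (1): a prime `p ≤ z` is in `S` (then `¬ p ∣ L1 L2` at `a`,
hence at `m`, as the forms at `m` and `a` agree mod `p`) or in `P` (then `m % p ∉ BB e N p`, bb_iff). (3): let `p ∣ m`, `p ∣ N`,
`p` prime. `p ∈ S`: `m ≡ a ≡ 1 mod p`, contradiction. `p ≤ z`: `p ∣ L2 N m = N - 2 m`, contradiction to (1). `p ∉ S`, `z < p`: excluded.

PROOF of jac_eq: `J(m | f k^2) = J(m | f) J(m | k)^2`, `jacobiSym.sq_one` for `gcd (m, k) = 1`.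
PROOF of jac_one: `m ≡ 1 mod f`, as `f` is the product of its prime factors.
-/

set_option autoImplicit false

namespace Pool.Agent.H.MP_0ec261_nt.AP

open Finset

theorem sft_good {e N z M a : ℕ} {S P : Finset ℕ} (hS : ∀ p ∈ S, p.Prime)
    (hP : ∀ p ∈ P, p.Prime) (hcov : ∀ p, p.Prime → p ≤ z → p ∈ S ∨ p ∈ P)
    (ha : ∀ p ∈ S, ¬ (p : ℤ) ∣ L1 e a * L2 N a ∧ (p ∣ N → a ≡ 1 [MOD p])) {m : ℕ}
    (hm : m ∈ sft (BB e N) P M (∏ p ∈ S, p) a) :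
    (∀ p, p.Prime → p ≤ z → ¬ (p : ℤ) ∣ L1 e m * L2 N m) ∧ (∀ p ∈ S, m ≡ a [MOD p]) ∧
      ((¬ ∃ p, p.Prime ∧ z < p ∧ p ∣ N ∧ ¬ p ∣ (∏ p ∈ S, p) ∧ p ∣ m) → Nat.Coprime m N) := by
  unfold sft cl at hm
  rw [mem_filter, mem_filter] at hm
  obtain ⟨⟨-, hma⟩, hmP⟩ := hm
  have h2 : ∀ p ∈ S, m ≡ a [MOD p] := fun p hp =>
    hma.of_dvd (Finset.dvd_prod_of_mem (fun p => p) hp)
  have h1 : ∀ p, p.Prime → p ≤ z → ¬ (p : ℤ) ∣ L1 e m * L2 N m := by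
    intro p hp hpz
    rcases hcov p hp hpz with h | h
    · have h3 : m % p = a % p := h2 p h
      rw [← bb_iff hp.pos, h3, bb_iff hp.pos]
      exact (ha p h).1
    · rw [← bb_iff hp.pos]
      exact hmP p h
  refine ⟨h1, h2, fun hno => ?_⟩
  by_contra hcon
  obtain ⟨p, hp, hpm, hpN⟩ := Nat.Prime.not_coprime_iff_dvd.1 hcon
  by_cases hpS : p ∈ S
  · have h3 : m ≡ 1 [MOD p] := (h2 p hpS).trans ((ha p hpS).2 hpN)
    have h4 : 0 ≡ 1 [MOD p] := ((Nat.modEq_zero_iff_dvd.2 hpm).symm).trans h3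
    have h5 : p ∣ 1 := (Nat.modEq_zero_iff_dvd.1 h4.symm)
    exact hp.one_lt.ne' (Nat.dvd_one.1 h5)
  · rcases Nat.lt_or_ge z p with hz | hz
    · refine hno ⟨p, hp, hz, hpN, fun hd => hpS ?_, hpm⟩
      obtain ⟨q, hq, hpq⟩ := (hp.prime.dvd_finsetProd_iff _).1 hd
      have : p = q := (Nat.prime_dvd_prime_iff_eq hp (hS q hq)).1 hpq
      rwa [this]
    · refine h1 p hp hz (Dvd.dvd.mul_left ?_ _)
      unfold L2
      have h3 : (p : ℤ) ∣ (N : ℤ) := Int.natCast_dvd_natCast.2 hpN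
      have h4 : (p : ℤ) ∣ (m : ℤ) := Int.natCast_dvd_natCast.2 hpm
      exact dvd_sub h3 (Dvd.dvd.mul_left h4 2)

theorem jac_eq {m N f k : ℕ} (hNf : N = f * k ^ 2) (hm : Nat.Coprime m N) (hk : 0 < N) :
    jacobiSym (m : ℤ) N = jacobiSym (m : ℤ) f := by
  have hk0 : k ≠ 0 := by
    rintro rfl
    rw [hNf] at hk
    simp at hk
  have hf0 : f ≠ 0 := by
    rintro rfl
    rw [hNf] at hk
    simp at hk
  have hk2 : k ^ 2 ≠ 0 := pow_ne_zero 2 hk0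
  have : NeZero f := ⟨hf0⟩
  have : NeZero (k ^ 2) := ⟨hk2⟩
  have hcop : Int.gcd (m : ℤ) (k : ℤ) = 1 := by
    rw [Int.gcd_natCast_natCast]
    refine Nat.Coprime.coprime_dvd_right ?_ hm
    rw [hNf]
    exact Dvd.dvd.mul_left (dvd_pow_self k two_ne_zero) f
  rw [hNf, jacobiSym.mul_right, jacobiSym.pow_right, jacobiSym.sq_one hcop, mul_one]

theorem jac_one {m f : ℕ} (hf : Squarefree f) (h : ∀ p, p.Prime → p ∣ f → m ≡ 1 [MOD p]) :
    jacobiSym (m : ℤ) f = 1 := by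
  have hf0 : f ≠ 0 := hf.ne_zero
  rw [← Nat.prod_primeFactorsList hf0, jacobiSym.list_prod_right]
  · refine List.prod_eq_one fun t ht => ?_
    obtain ⟨p, hp, rfl⟩ := List.mem_map.1 ht
    have h1 := h p (Nat.prime_of_mem_primeFactorsList hp) (Nat.dvd_of_mem_primeFactorsList hp)
    have h2 : (m : ℤ) % (p : ℤ) = (1 : ℤ) % (p : ℤ) := by
      have h3 : m % p = 1 % p := h1
      exact_mod_cast h3
    rw [jacobiSym.mod_left' h2, jacobiSym.one_left]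
  · intro p hp
    exact (Nat.prime_of_mem_primeFactorsList hp).ne_zero

end Pool.Agent.H.MP_0ec261_nt.AP
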