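import Pool.Agent.H.MP_0ec261_nt.AP.Defs

/-!
Definitions for the small conductor case with all classes.
-/

set_option autoImplicit false

namespace Pool.Agent.H.MP_0ec261_nt.AP

open Finset

/-- the part of `f` composed of the primes `> Z0` (`f` squarefree) -/
def f1 (Z0 f : ℕ) : ℕ := ∏ p ∈ f.primeFactors.filter (fun p => Z0 < p), p

/-- the sieving primes -/
def P1 (Z0 z f : ℕ) : Finset ℕ := (range (z + 1)).filter (fun p => p.Prime ∧ Z0 < p ∧ ¬ p ∣ f)

/-- the sieve product -/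
noncomputable def V1 (e N Z0 z f : ℕ) : ℝ := ∏ p ∈ P1 Z0 z f, (1 - ((BB e N p).card : ℝ) / p)

/-- the admissible classes modulo `g` -/
def clset (e g : ℕ) : Finset ℕ :=
  (range g).filter (fun b => jacobiSym (b : ℤ) g = 1 ∧ ∀ p ∈ g.primeFactors, ¬ (p : ℤ) ∣ L1 e b)

end Pool.Agent.H.MP_0ec261_nt.AP
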