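import Pool.Agent.H.MP_0ec261_nt.AP.SvE
import Pool.Agent.H.MP_0ec261_nt.AP.Cop
import Pool.Agent.H.MP_0ec261_nt.AP.Defs2

/-!
The sum over the admissible classes modulo `g = f1 Z0 f`.

PROOF. `W0 = ∏ p ∈ pr Z0, p`, `a` from small_class for `S = pr Z0`. For `b ∈ clset e g` let `c_b ≡ a mod W0`, `c_b ≡ b mod g` (coprime
moduli). For `m ∈ sft (BB e N) (P1 Z0 z f) M (W0 g) c_b`: a prime `p ≤ z` does not divide `L1 e m * L2 N m`: `p ≤ Z0`: `m ≡ a mod p`;
`p ∣ g`: `m ≡ b mod p`, `p ∤ L1 e b`, and `L2 N m = N - 2 m ≡ - 2 b`, `p ∤ b` because `J(b | g) = 1`, `p` odd; otherwise `p ∈ P1`, bb_iff.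
If moreover no prime `p > z` with `p ∣ N`, `p ∤ W0` divides `m`, then `m` is coprime to `N` (a prime `p ∣ N`, `p ∣ m`: `p ≤ Z0`: `m ≡ a ≡ 1`;
`p ≤ z`: `p ∣ L2 N m`) and `J(m | N) = J(m | f) = J(m | f0) J(m | g) = 1 * J(b | g) = 1` (`f = f0 g`, `f0` the product of the primes
`≤ Z0` of `f`, `m ≡ 1 mod f0`: jac_eq, jac_one). So `m ∈ good` or `m` is in the exceptional set of exc_le (for `W0`, `a`). The sets for different
`b` are disjoint (`m % g = b`). Each has at least `(31/32) (M / (W0 g)) V1 - z^26 (1 + 26 log z)` elements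
(sieve_lower2, `Q = z^26`, `δ = 1/32`, weights from `hwv`).
Compare the proofs of CaseA.lean and CaseB.lean (same scheme, private lemmas can be copied).
-/

set_option autoImplicit false

namespace Pool.Agent.H.MP_0ec261_nt.AP

open Finset

private theorem CA1_pr {Z0 p : ℕ} : p ∈ pr Z0 ↔ p ≤ Z0 ∧ p.Prime := by
  simp only [pr, mem_filter, mem_range]
  constructor
  · rintro ⟨h1, h2⟩
    exact ⟨by omega, h2⟩
  · rintro ⟨h1, h2⟩
    exact ⟨by omega, h2⟩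

private theorem CA1_W {Z0 p : ℕ} (hp : p.Prime) (h : p ∣ ∏ q ∈ pr Z0, q) : p ≤ Z0 := by
  rw [Prime.dvd_finsetProd_iff hp.prime] at h
  obtain ⟨q, hq, hpq⟩ := h
  have h1 := (Nat.prime_dvd_prime_iff_eq hp (CA1_pr.1 hq).2).1 hpq
  have h2 := (CA1_pr.1 hq).1
  omega

private theorem CA1_g {Z0 f p : ℕ} (hf : f ≠ 0) (hp : p.Prime) :
    p ∣ f1 Z0 f ↔ p ∣ f ∧ Z0 < p := by
  unfold f1
  rw [Prime.dvd_finsetProd_iff hp.prime]
  constructor
  · rintro ⟨q, hq, hpq⟩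
    rw [mem_filter] at hq
    have h1 := (Nat.prime_dvd_prime_iff_eq hp (Nat.prime_of_mem_primeFactors hq.1)).1 hpq
    subst h1
    exact ⟨Nat.dvd_of_mem_primeFactors hq.1, hq.2⟩
  · rintro ⟨h1, h2⟩
    exact ⟨p, mem_filter.2 ⟨Nat.mem_primeFactors.2 ⟨hp, h1, hf⟩, h2⟩, dvd_rfl⟩

private theorem CA1_Wpos (Z0 : ℕ) : 0 < ∏ q ∈ pr Z0, q :=
  Finset.prod_pos fun q hq => (CA1_pr.1 hq).2.pos

private theorem CA1_gpos (Z0 f : ℕ) : 0 < f1 Z0 f :=
  Finset.prod_pos fun q hq => (Nat.prime_of_mem_primeFactors (mem_filter.1 hq).1).pos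

private theorem CA1_cop {Z0 f : ℕ} (hf : f ≠ 0) :
    Nat.Coprime (∏ q ∈ pr Z0, q) (f1 Z0 f) := by
  refine Nat.coprime_of_dvd fun p hp h1 h2 => ?_
  have h3 := CA1_W hp h1
  have h4 := ((CA1_g hf hp).1 h2).2
  omega

/-- the symbol of a number which is `1` modulo the small primes of `f` -/
private theorem CA1_jac {Z0 f m b : ℕ} (hf : Squarefree f)
    (h1 : ∀ p, p.Prime → p ∣ f → p ≤ Z0 → m ≡ 1 [MOD p]) (hb : m ≡ b [MOD f1 Z0 f])
    (hJ : jacobiSym (b : ℤ) (f1 Z0 f) = 1) : jacobiSym (m : ℤ) f = 1 := by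
  obtain ⟨f0, hf0⟩ : ∃ f0, f0 = ∏ p ∈ f.primeFactors.filter (fun p => ¬ Z0 < p), p := ⟨_, rfl⟩
  have h2 : f1 Z0 f * f0 = f := by
    rw [hf0]
    unfold f1
    rw [Finset.prod_filter_mul_prod_filter_not]
    exact Nat.prod_primeFactors_of_squarefree hf
  have hf0d : f0 ∣ f := Dvd.intro_left _ h2
  have hfne : f ≠ 0 := hf.ne_zero
  have : NeZero (f1 Z0 f) := ⟨(CA1_gpos Z0 f).ne'⟩
  have : NeZero f0 := ⟨ne_zero_of_dvd_ne_zero hfne hf0d⟩
  have h3 : jacobiSym (m : ℤ) f0 = 1 := by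
    refine jac_one (hf.squarefree_of_dvd hf0d) fun p hp hpf => ?_
    refine h1 p hp (hpf.trans hf0d) ?_
    rw [hf0, Prime.dvd_finsetProd_iff hp.prime] at hpf
    obtain ⟨q, hq, hpq⟩ := hpf
    rw [mem_filter] at hq
    have h4 := (Nat.prime_dvd_prime_iff_eq hp (Nat.prime_of_mem_primeFactors hq.1)).1 hpq
    subst h4
    omega
  have h4 : jacobiSym (m : ℤ) (f1 Z0 f) = 1 := by
    have h5 : (m : ℤ) % ((f1 Z0 f : ℕ) : ℤ) = (b : ℤ) % ((f1 Z0 f : ℕ) : ℤ) := by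
      have h6 : m % f1 Z0 f = b % f1 Z0 f := hb
      exact_mod_cast h6
    rw [jacobiSym.mod_left' h5, hJ]
  rw [← h2, jacobiSym.mul_right, h3, h4, mul_one]

private theorem CA1_L1 {e m b p : ℕ} (h : m ≡ b [MOD p]) (hb : (p : ℤ) ∣ L1 e m) :
    (p : ℤ) ∣ L1 e b := by
  have h1 : (p : ℤ) ∣ (m : ℤ) - b := (Nat.modEq_iff_dvd.1 h.symm)
  have h2 : L1 e b = L1 e m - (1 + (e : ℤ)) * ((m : ℤ) - b) := by
    unfold L1
    ring
  rw [h2]
  exact dvd_sub hb (Dvd.dvd.mul_left h1 _)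

theorem ca1 {e N z M Z0 f k : ℕ} (he : e ≤ 1) (hN : Odd N) (hZ : 1000 ≤ Z0) (hz : Z0 ≤ z)
    (hwv : WV Z0 z) (hf : Squarefree f) (hNf : N = f * k ^ 2) :
    ((clset e (f1 Z0 f)).card : ℝ) *
        ((31 / 32) * ((M : ℝ) / (((∏ p ∈ pr Z0, p : ℕ) : ℝ) * (f1 Z0 f : ℕ))) * V1 e N Z0 z f -
          (z : ℝ) ^ 26 * (1 + 26 * Real.log z)) -
        2 * Real.log N * ((M : ℝ) / (((∏ p ∈ pr Z0, p : ℕ) : ℝ) * z) + 1) ≤
      ((good e N z M).card : ℝ) := by
  classical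
  obtain ⟨W0, hW0⟩ : ∃ W0, W0 = ∏ q ∈ pr Z0, q := ⟨_, rfl⟩
  obtain ⟨g, hg⟩ : ∃ g, g = f1 Z0 f := ⟨_, rfl⟩
  have hN0 : 0 < N := hN.pos
  have hfne : f ≠ 0 := hf.ne_zero
  have hfN : f ∣ N := ⟨k ^ 2, hNf⟩
  have hW0p : 0 < W0 := by
    rw [hW0]
    exact CA1_Wpos Z0
  have hgp : 0 < g := by
    rw [hg]
    exact CA1_gpos Z0 f
  have hcop : Nat.Coprime W0 g := by
    rw [hW0, hg]
    exact CA1_cop hfne
  obtain ⟨a, ha⟩ := small_class he hN (pr Z0) (fun p hp => (CA1_pr.1 hp).2)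
  have hc : ∀ b : ℕ, ∃ c : ℕ, c ≡ a [MOD W0] ∧ c ≡ b [MOD g] := fun b =>
    ⟨(Nat.chineseRemainder hcop a b : ℕ), (Nat.chineseRemainder hcop a b).2.1,
      (Nat.chineseRemainder hcop a b).2.2⟩
  choose c hc1 hc2 using hc
  obtain ⟨P, hP⟩ : ∃ P, P = P1 Z0 z f := ⟨_, rfl⟩
  have hmP : ∀ p, p ∈ P ↔ p ≤ z ∧ p.Prime ∧ Z0 < p ∧ ¬ p ∣ f := by
    intro p
    rw [hP]
    unfold P1
    rw [mem_filter, mem_range]
    constructor
    · rintro ⟨h1, h2⟩
      exact ⟨by omega, h2⟩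
    · rintro ⟨h1, h2⟩
      exact ⟨by omega, h2⟩
  have hPp : ∀ p ∈ P, p.Prime := fun p hp => ((hmP p).1 hp).2.1
  have hB2 : ∀ p ∈ P, (BB e N p).card ≤ 2 := by
    intro p hp
    obtain ⟨-, h2, h3, -⟩ := (hmP p).1 hp
    exact bb_card he h2 (by omega)
  obtain ⟨⟨lp, lm, hw⟩, -⟩ := hwv (BB e N) P
    (fun p hp => ⟨((hmP p).1 hp).2.1, ((hmP p).1 hp).2.2.1, ((hmP p).1 hp).1⟩) hB2
  have hPW : ∀ p ∈ P, ¬ p ∣ W0 * g := by
    intro p hp hd
    obtain ⟨h1, h2, h3, h4⟩ := (hmP p).1 hp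
    rcases (h2.dvd_mul).1 hd with h | h
    · rw [hW0] at h
      have := CA1_W h2 h
      omega
    · rw [hg] at h
      exact h4 ((CA1_g hfne h2).1 h).1
  have hz1 : (1 : ℝ) ≤ z := by exact_mod_cast (by omega : 1 ≤ z)
  have hQ : (1 : ℝ) ≤ (z : ℝ) ^ 26 := one_le_pow₀ hz1
  have hlow : ∀ b, (31 / 32) * ((M : ℝ) / ((W0 : ℝ) * (g : ℝ))) * V1 e N Z0 z f -
      (z : ℝ) ^ 26 * (1 + 26 * Real.log z) ≤ ((sft (BB e N) P M (W0 * g) (c b)).card : ℝ) := by
    intro b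
    have h1 := sieve_lower2 (M := M) (c b) (Nat.mul_pos hW0p hgp) hPp hPW
      (fun p _ => bb_sub e N p) hB2 hQ hw
    rw [Real.log_pow] at h1
    have h2 : V1 e N Z0 z f = ∏ p ∈ P, (1 - ((BB e N p).card : ℝ) / p) := by
      rw [hP]
      rfl
    rw [h2]
    push_cast at h1
    have h3 : (1 - 1 / 32 : ℝ) = 31 / 32 := by norm_num
    rw [h3] at h1
    exact h1
  obtain ⟨Ex, hEx, hExm⟩ : ∃ Ex : Finset ℕ,
      (Ex.card : ℝ) ≤ 2 * Real.log N * ((M : ℝ) / ((W0 : ℝ) * z) + 1) ∧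
      ∀ m ∈ cl M W0 a, (∃ p, p.Prime ∧ z < p ∧ p ∣ N ∧ ¬ p ∣ W0 ∧ p ∣ m) → m ∈ Ex :=
    ⟨_, exc_le hN0 (by omega) hW0p, fun m hm h => mem_filter.2 ⟨hm, h⟩⟩
  -- the members of the sifted sets
  have hmem : ∀ b ∈ clset e g, ∀ m ∈ sft (BB e N) P M (W0 * g) (c b),
      (m ∈ good e N z M ∨ m ∈ Ex) ∧ m % g = b := by
    intro b hb m hm
    unfold clset at hb
    rw [mem_filter, mem_range] at hb
    obtain ⟨hbg, hJ, hbL⟩ := hb
    unfold sft at hm
    rw [mem_filter] at hm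
    obtain ⟨hmc, hmP'⟩ := hm
    unfold cl at hmc
    rw [mem_filter] at hmc
    obtain ⟨hI, hmod⟩ := hmc
    have hma : m ≡ a [MOD W0] := (hmod.of_dvd (Dvd.intro _ rfl)).trans (hc1 b)
    have hmb : m ≡ b [MOD g] := (hmod.of_dvd (Dvd.intro_left _ rfl)).trans (hc2 b)
    have hbcop : Nat.Coprime b g := by
      by_contra hcon
      have : NeZero g := ⟨hgp.ne'⟩
      have h0 : jacobiSym (b : ℤ) g = 0 := jacobiSym.eq_zero_iff_not_coprime.2 (by
        rw [Int.gcd_natCast_natCast]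
        exact hcon)
      rw [hJ] at h0
      exact one_ne_zero h0
    have hsm : ∀ p, p.Prime → p ≤ Z0 → m ≡ a [MOD p] := by
      intro p hp hpZ
      refine hma.of_dvd ?_
      rw [hW0]
      exact Finset.dvd_prod_of_mem (fun p => p) (CA1_pr.2 ⟨hpZ, hp⟩)
    have hg1 : ∀ p, p.Prime → p ≤ z → ¬ (p : ℤ) ∣ L1 e m * L2 N m := by
      intro p hp hpz
      rcases le_or_gt p Z0 with h | h
      · have h3 : m % p = a % p := hsm p hp h
        rw [← bb_iff hp.pos, h3, bb_iff hp.pos]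
        exact (ha p (CA1_pr.2 ⟨h, hp⟩)).1
      · by_cases hpf : p ∣ f
        · have hpg : p ∣ g := by
            rw [hg]
            exact (CA1_g hfne hp).2 ⟨hpf, h⟩
          have hmbp : m ≡ b [MOD p] := hmb.of_dvd hpg
          intro hd
          rcases (Nat.prime_iff_prime_int.1 hp).dvd_or_dvd hd with h1 | h1
          · exact hbL p (Nat.mem_primeFactors.2 ⟨hp, hpg, hgp.ne'⟩) (CA1_L1 hmbp h1)
          · unfold L2 at h1
            have h2 : (p : ℤ) ∣ (N : ℤ) := Int.natCast_dvd_natCast.2 (hpf.trans hfN)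
            have h3 : (p : ℤ) ∣ 2 * (m : ℤ) := by
              have h4 := dvd_sub h2 h1
              have h5 : (N : ℤ) - ((N : ℤ) - 2 * m) = 2 * m := by ring
              rwa [h5] at h4
            have h4 : p ∣ 2 * m := by exact_mod_cast h3
            rcases (hp.dvd_mul).1 h4 with h5 | h5
            · have := Nat.le_of_dvd two_pos h5
              omega
            · have h6 : p ∣ b := (Nat.modEq_zero_iff_dvd.1
                (hmbp.symm.trans (Nat.modEq_zero_iff_dvd.2 h5)))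
              have h7 : p ∣ 1 := by
                have h8 := Nat.dvd_gcd h6 hpg
                rwa [hbcop] at h8
              exact hp.one_lt.ne' (Nat.dvd_one.1 h7)
        · rw [← bb_iff hp.pos]
          exact hmP' p ((hmP p).2 ⟨hpz, hp, h, hpf⟩)
    refine ⟨?_, ?_⟩
    · by_cases hex : ∃ p, p.Prime ∧ z < p ∧ p ∣ N ∧ ¬ p ∣ W0 ∧ p ∣ m
      · right
        refine hExm m ?_ hex
        unfold cl
        rw [mem_filter]
        exact ⟨hI, hma⟩
      · left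
        unfold good
        rw [mem_filter]
        refine ⟨hI, hg1, ?_⟩
        have hcopN : Nat.Coprime m N := by
          by_contra hcon
          obtain ⟨p, hp, hpm, hpN⟩ := Nat.Prime.not_coprime_iff_dvd.1 hcon
          rcases le_or_gt p Z0 with h | h
          · have h3 : m ≡ 1 [MOD p] := (hsm p hp h).trans ((ha p (CA1_pr.2 ⟨h, hp⟩)).2 hpN)
            have h4 : 0 ≡ 1 [MOD p] := ((Nat.modEq_zero_iff_dvd.2 hpm).symm).trans h3
            have h5 : p ∣ 1 := (Nat.modEq_zero_iff_dvd.1 h4.symm)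
            exact hp.one_lt.ne' (Nat.dvd_one.1 h5)
          · rcases le_or_gt p z with h1 | h1
            · refine hg1 p hp h1 (Dvd.dvd.mul_left ?_ _)
              unfold L2
              have h3 : (p : ℤ) ∣ (N : ℤ) := Int.natCast_dvd_natCast.2 hpN
              have h4 : (p : ℤ) ∣ (m : ℤ) := Int.natCast_dvd_natCast.2 hpm
              exact dvd_sub h3 (Dvd.dvd.mul_left h4 2)
            · refine hex ⟨p, hp, h1, hpN, fun hd => ?_, hpm⟩
              rw [hW0] at hd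
              have := CA1_W hp hd
              omega
        rw [jac_eq hNf hcopN hN0]
        refine CA1_jac (Z0 := Z0) (b := b) hf (fun p hp hpf hpZ => ?_) (by rw [← hg]; exact hmb)
          (by rw [← hg]; exact hJ)
        exact (hsm p hp hpZ).trans ((ha p (CA1_pr.2 ⟨hpZ, hp⟩)).2 (hpf.trans hfN))
    · have h1 : m % g = b % g := hmb
      rw [h1, Nat.mod_eq_of_lt hbg]
  have hdisj : ∀ b ∈ clset e g, ∀ b' ∈ clset e g, b ≠ b' →
      Disjoint (sft (BB e N) P M (W0 * g) (c b)) (sft (BB e N) P M (W0 * g) (c b')) := by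
    intro b hb b' hb' hne
    rw [Finset.disjoint_left]
    intro m hm hm'
    exact hne ((hmem b hb m hm).2.symm.trans (hmem b' hb' m hm').2)
  have hU := Finset.card_biUnion hdisj
  have hsub : (clset e g).biUnion (fun b => sft (BB e N) P M (W0 * g) (c b)) ⊆
      good e N z M ∪ Ex := by
    intro m hm
    obtain ⟨b, hb, hm'⟩ := mem_biUnion.1 hm
    exact mem_union.2 (hmem b hb m hm').1
  have hcard := (Finset.card_le_card hsub).trans (Finset.card_union_le _ _)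
  rw [hU] at hcard
  have hcardR : ∑ b ∈ clset e g, ((sft (BB e N) P M (W0 * g) (c b)).card : ℝ) ≤
      (good e N z M).card + Ex.card := by
    exact_mod_cast hcard
  have hsum := Finset.card_nsmul_le_sum (clset e g)
    (fun b => ((sft (BB e N) P M (W0 * g) (c b)).card : ℝ)) _ (fun b _ => hlow b)
  rw [nsmul_eq_mul] at hsum
  rw [← hg, ← hW0]
  linarith

end Pool.Agent.H.MP_0ec261_nt.AP
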