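import Pool.Agent.H.MP_0ec261_nt.AP.Defs2
import Pool.Agent.H.MP_0ec261_nt.Jac

/-!
Local counts for the admissible classes.
-/

set_option autoImplicit false

namespace Pool.Agent.H.MP_0ec261_nt.AP

open Finset

private theorem Lc_excl {e p r : ℕ} (he : e ≤ 1) (h5 : 5 ≤ p) (hodd : p % 2 = 1)
    (hr : r < p) (h : ¬ (¬ p ∣ r ∧ ¬ (p : ℤ) ∣ L1 e r)) : r = 0 ∨ r = (p + 1) / 2 := by
  have h0 : p ∣ r → r = 0 := fun h1 => Nat.eq_zero_of_dvd_of_lt h1 hr
  by_cases h1 : p ∣ r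
  · exact Or.inl (h0 h1)
  · have h2 : (p : ℤ) ∣ L1 e r := by
      by_contra h3
      exact h ⟨h1, h3⟩
    unfold L1 at h2
    rcases Nat.le_one_iff_eq_zero_or_eq_one.1 he with rfl | rfl
    · left
      apply h0
      have h3 : (1 + ((0 : ℕ) : ℤ)) * (r : ℤ) - ((0 : ℕ) : ℤ) = (r : ℤ) := by
        push_cast
        ring
      rw [h3] at h2
      exact_mod_cast h2
    · right
      obtain ⟨k, hk⟩ := h2
      push_cast at hk
      have hk1 : k = 1 := by
        have h4 : 2 * (r : ℤ) - 1 = p * k := by linarith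
        have h5' : (r : ℤ) < p := by exact_mod_cast hr
        have hp : (0 : ℤ) < p := by omega
        have h6 : k < 2 := by
          by_contra h7
          rw [not_lt] at h7
          nlinarith
        have h8 : 0 < k := by
          by_contra h9
          rw [not_lt] at h9
          have h10 : (p : ℤ) * k ≤ 0 := mul_nonpos_of_nonneg_of_nonpos hp.le h9
          have h11 : r = 0 := by omega
          exact h1 (h11 ▸ dvd_zero p)
        omega
      rw [hk1] at hk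
      omega

theorem local_card {e p : ℕ} (he : e ≤ 1) (hp : p.Prime) (h5 : 5 ≤ p) :
    (p : ℤ) - 2 ≤ ∑ r ∈ range p, (if ¬ p ∣ r ∧ ¬ (p : ℤ) ∣ L1 e r then (1 : ℤ) else 0) := by
  classical
  have hodd : p % 2 = 1 := Nat.odd_iff.1 (hp.odd_of_ne_two (by omega))
  have h1 : ∑ r ∈ range p, (if ¬ p ∣ r ∧ ¬ (p : ℤ) ∣ L1 e r then (1 : ℤ) else 0) =
      (((range p).filter (fun r => ¬ p ∣ r ∧ ¬ (p : ℤ) ∣ L1 e r)).card : ℤ) := by
    rw [sum_boole]
  have h2 := card_filter_add_card_filter_not (s := range p)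
    (fun r => ¬ p ∣ r ∧ ¬ (p : ℤ) ∣ L1 e r)
  have h3 : ((range p).filter (fun r => ¬ (¬ p ∣ r ∧ ¬ (p : ℤ) ∣ L1 e r))).card ≤ 2 := by
    refine (card_le_card (t := {0, (p + 1) / 2}) ?_).trans card_le_two
    intro r hr
    rw [mem_filter, mem_range] at hr
    rw [mem_insert, mem_singleton]
    exact Lc_excl he h5 hodd hr.1 hr.2
  rw [card_range] at h2
  rw [h1]
  omega

theorem local_sum {e p : ℕ} (he : e ≤ 1) (hp : p.Prime) (h5 : 5 ≤ p) :
    |∑ r ∈ range p, (if ¬ p ∣ r ∧ ¬ (p : ℤ) ∣ L1 e r then jacobiSym (r : ℤ) p else 0)| ≤ 1 := by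
  classical
  have hodd' : Odd p := hp.odd_of_ne_two (by omega)
  have hodd : p % 2 = 1 := Nat.odd_iff.1 hodd'
  have h0 : ∑ r ∈ range p, jacobiSym (r : ℤ) p = 0 :=
    Pool.Agent.H.MP_0ec261_nt.sum_period hodd' hp.prime.not_isSquare
  have h1 : ∑ r ∈ range p, (if ¬ p ∣ r ∧ ¬ (p : ℤ) ∣ L1 e r then jacobiSym (r : ℤ) p else 0) =
      ∑ r ∈ range p, jacobiSym (r : ℤ) p -
        ∑ r ∈ range p, (if ¬ (¬ p ∣ r ∧ ¬ (p : ℤ) ∣ L1 e r) then jacobiSym (r : ℤ) p else 0) := by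
    rw [← sum_sub_distrib]
    refine sum_congr rfl fun r _ => ?_
    by_cases h : ¬ p ∣ r ∧ ¬ (p : ℤ) ∣ L1 e r
    · rw [if_pos h, if_neg (not_not.2 h), sub_zero]
    · rw [if_neg h, if_pos h, sub_self]
  have h2 : ∑ r ∈ range p, (if ¬ (¬ p ∣ r ∧ ¬ (p : ℤ) ∣ L1 e r) then jacobiSym (r : ℤ) p else 0) =
      (if ¬ (¬ p ∣ (p + 1) / 2 ∧ ¬ (p : ℤ) ∣ L1 e ((p + 1) / 2)) then
        jacobiSym (((p + 1) / 2 : ℕ) : ℤ) p else 0) := by
    apply sum_eq_single ((p + 1) / 2)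
    · intro r hr hne
      by_cases h : ¬ (¬ p ∣ r ∧ ¬ (p : ℤ) ∣ L1 e r)
      · rw [if_pos h]
        rcases Lc_excl he h5 hodd (mem_range.1 hr) h with h3 | h3
        · have : NeZero p := ⟨hp.ne_zero⟩
          rw [h3, jacobiSym.eq_zero_iff_not_coprime]
          simp only [Nat.cast_zero, Int.gcd_zero_left, Int.natAbs_natCast]
          omega
        · exact absurd h3 hne
      · rw [if_neg h]
    · intro h
      exfalso
      apply h
      rw [mem_range]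
      omega
  rw [h1, h0, zero_sub, abs_neg, h2]
  by_cases h : ¬ (¬ p ∣ (p + 1) / 2 ∧ ¬ (p : ℤ) ∣ L1 e ((p + 1) / 2))
  · rw [if_pos h]
    exact Pool.Agent.H.MP_0ec261_nt.abs_jac_le (((p + 1) / 2 : ℕ) : ℤ) p
  · rw [if_neg h]
    norm_num

end Pool.Agent.H.MP_0ec261_nt.AP
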