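import Pool.Agent.H.MP_0ec261_nt.AP.Pf
import Pool.Agent.H.MP_0ec261_nt.AP.Lc

/-!
PROOF. `T = g.primeFactors`, `∏_T p = g` (`g` squarefree). `g = 1`: `clset e 1 = {0}`, `1/3 ≤ 1`. Let `T ≠ ∅`.
With `u p r = [p ∤ r, p ∤ L1 e r]`, `v p r = u p r * J(r | p)`: for `b < g`, `∏_T u p (b % p)` is the indicator `U b` of
(`b` prime to `g` and `p ∤ L1 e b` for all `p ∈ T`), `∏_T v p (b % p) = U b * J(b | g)` (`jacobiSym` over the prime factors:
`jacobiSym.mul_right`, induction, or the definition with `Nat.primeFactorsList`). So `2 * card (clset e g) = ∑ U + ∑ U J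
= ∏_T A_p + ∏_T S_p` (prod_formula) with `A_p ≥ p - 2 ≥ 3` (local_card), `|S_p| ≤ 1` (local_sum). Hence
`card ≥ (A - 1) / 2 ≥ A / 3` for `A = ∏ A_p ≥ 3`, `A ≥ ∏ (p - 2)`.
-/

set_option autoImplicit false

namespace Pool.Agent.H.MP_0ec261_nt.AP

open Finset

private theorem cc_jac (T : Finset ℕ) (hT : ∀ p ∈ T, p.Prime) (a : ℤ) :
    jacobiSym a (∏ p ∈ T, p) = ∏ p ∈ T, jacobiSym a p := by
  classical
  induction T using Finset.induction_on with
  | empty => simp
  | insert q S hq ih =>
    have hqp : q.Prime := hT q (mem_insert_self q S)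
    have hS : ∀ p ∈ S, p.Prime := fun p hp => hT p (mem_insert_of_mem hp)
    have h0 : (∏ p ∈ S, p) ≠ 0 := Finset.prod_ne_zero_iff.mpr (fun p hp => (hS p hp).ne_zero)
    rw [Finset.prod_insert hq, Finset.prod_insert hq, jacobiSym.mul_right' a hqp.ne_zero h0, ih hS]

private theorem cc_L1 (e b p : ℕ) : (p : ℤ) ∣ L1 e (b % p) ↔ (p : ℤ) ∣ L1 e b := by
  have h : L1 e b - L1 e (b % p) = (p : ℤ) * ((1 + (e : ℤ)) * ((b / p : ℕ) : ℤ)) := by
    have hb : (b : ℤ) = (p : ℤ) * ((b / p : ℕ) : ℤ) + ((b % p : ℕ) : ℤ) := by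
      have := Nat.div_add_mod b p
      exact_mod_cast this.symm
    unfold L1
    rw [hb]
    ring_nf
  have hd : (p : ℤ) ∣ L1 e b - L1 e (b % p) := ⟨_, h⟩
  constructor
  · intro h1
    have := dvd_add hd h1
    simpa using this
  · intro h1
    have := dvd_sub h1 hd
    simpa using this

private theorem cc_J (b p : ℕ) : jacobiSym ((b % p : ℕ) : ℤ) p = jacobiSym (b : ℤ) p := by
  rw [Int.natCast_mod, ← jacobiSym.mod_left]

private def ccu (e p r : ℕ) : ℤ := if ¬ p ∣ r ∧ ¬ (p : ℤ) ∣ L1 e r then (1 : ℤ) else 0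

private def ccv (e p r : ℕ) : ℤ := if ¬ p ∣ r ∧ ¬ (p : ℤ) ∣ L1 e r then jacobiSym (r : ℤ) p else 0

private theorem cc_pt {e g b : ℕ} (hg : Squarefree g) (hb : b ∈ range g) :
    (∏ p ∈ g.primeFactors, ccu e p (b % p)) + ∏ p ∈ g.primeFactors, ccv e p (b % p) ≤
      if b ∈ clset e g then 2 else 0 := by
  classical
  have hprod : ∏ p ∈ g.primeFactors, p = g := Nat.prod_primeFactors_of_squarefree hg
  have hcond : ∀ p, (¬ p ∣ b % p ∧ ¬ (p : ℤ) ∣ L1 e (b % p)) ↔ (¬ p ∣ b ∧ ¬ (p : ℤ) ∣ L1 e b) := by
    intro p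
    rw [cc_L1, Nat.dvd_mod_iff (dvd_refl p)]
  by_cases hall : ∀ p ∈ g.primeFactors, ¬ p ∣ b ∧ ¬ (p : ℤ) ∣ L1 e b
  · have h1 : ∏ p ∈ g.primeFactors, ccu e p (b % p) = 1 := by
      apply Finset.prod_eq_one
      intro p hp
      unfold ccu
      rw [if_pos ((hcond p).mpr (hall p hp))]
    have h2 : ∏ p ∈ g.primeFactors, ccv e p (b % p) = jacobiSym (b : ℤ) g := by
      have h3 : jacobiSym (b : ℤ) g = ∏ p ∈ g.primeFactors, jacobiSym (b : ℤ) p := by
        have := cc_jac g.primeFactors (fun p hp => Nat.prime_of_mem_primeFactors hp) (b : ℤ)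
        rw [hprod] at this
        exact this
      rw [h3]
      apply Finset.prod_congr rfl
      intro p hp
      unfold ccv
      rw [if_pos ((hcond p).mpr (hall p hp)), cc_J]
    rw [h1, h2]
    by_cases hm : b ∈ clset e g
    · rw [if_pos hm]
      have hm' := hm
      unfold clset at hm'
      rw [mem_filter] at hm'
      rw [hm'.2.1]
      norm_num
    · rw [if_neg hm]
      have hJ1 : jacobiSym (b : ℤ) g ≠ 1 := by
        intro h
        apply hm
        unfold clset
        rw [mem_filter]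
        exact ⟨hb, h, fun p hp => (hall p hp).2⟩
      have hJ0 : jacobiSym (b : ℤ) g ≠ 0 := by
        rw [← h2]
        apply Finset.prod_ne_zero_iff.mpr
        intro p hp
        unfold ccv
        rw [if_pos ((hcond p).mpr (hall p hp)), cc_J]
        apply jacobiSym.ne_zero
        have hpp := Nat.prime_of_mem_primeFactors hp
        have hc : Nat.Coprime b p := ((Nat.Prime.coprime_iff_not_dvd hpp).mpr (hall p hp).1).symm
        rw [Int.gcd_natCast_natCast]
        exact hc
      rcases jacobiSym.trichotomy (b : ℤ) g with h | h | h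
      · exact absurd h hJ0
      · exact absurd h hJ1
      · rw [h]; norm_num
  · push Not at hall
    obtain ⟨p, hp, hpb⟩ := hall
    have hn : ¬ (¬ p ∣ b % p ∧ ¬ (p : ℤ) ∣ L1 e (b % p)) := by
      rw [hcond p]
      intro h
      exact h.2 (hpb h.1)
    have h1 : ∏ p ∈ g.primeFactors, ccu e p (b % p) = 0 := by
      apply Finset.prod_eq_zero hp
      unfold ccu
      rw [if_neg hn]
    have h2 : ∏ p ∈ g.primeFactors, ccv e p (b % p) = 0 := by
      apply Finset.prod_eq_zero hp
      unfold ccv
      rw [if_neg hn]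
    rw [h1, h2]
    split_ifs <;> norm_num

theorem class_count {e g : ℕ} (he : e ≤ 1) (hg : Squarefree g) (h5 : ∀ p ∈ g.primeFactors, 5 ≤ p) :
    (1 / 3) * ∏ p ∈ g.primeFactors, ((p : ℝ) - 2) ≤ ((clset e g).card : ℝ) := by
  classical
  rcases Finset.eq_empty_or_nonempty g.primeFactors with hT | hT
  · have hg1 : g = 1 := by
      have hprod : ∏ p ∈ g.primeFactors, p = g := Nat.prod_primeFactors_of_squarefree hg
      rw [hT] at hprod
      simpa using hprod.symm
    subst hg1
    have h0 : (0 : ℕ) ∈ clset e 1 := by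
      unfold clset
      rw [mem_filter]
      refine ⟨by simp, by simp, by simp⟩
    have h1 : 1 ≤ (clset e 1).card := Finset.card_pos.mpr ⟨0, h0⟩
    have h2 : (1 : ℝ) ≤ ((clset e 1).card : ℝ) := by exact_mod_cast h1
    rw [hT]
    rw [Finset.prod_empty]
    linarith
  · have hprod : ∏ p ∈ g.primeFactors, p = g := Nat.prod_primeFactors_of_squarefree hg
    have hpr : ∀ p ∈ g.primeFactors, p.Prime := fun p hp => Nat.prime_of_mem_primeFactors hp
    have hU := prod_formula g.primeFactors hpr (ccu e)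
    have hV := prod_formula g.primeFactors hpr (ccv e)
    rw [hprod] at hU hV
    have hsum : (∑ b ∈ range g, ∏ p ∈ g.primeFactors, ccu e p (b % p)) +
        ∑ b ∈ range g, ∏ p ∈ g.primeFactors, ccv e p (b % p) ≤ 2 * ((clset e g).card : ℤ) := by
      rw [← Finset.sum_add_distrib]
      calc ∑ b ∈ range g, ((∏ p ∈ g.primeFactors, ccu e p (b % p)) +
            ∏ p ∈ g.primeFactors, ccv e p (b % p))
          ≤ ∑ b ∈ range g, (if b ∈ clset e g then (2 : ℤ) else 0) :=
            Finset.sum_le_sum (fun b hb => cc_pt hg hb)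
        _ = 2 * ((clset e g).card : ℤ) := by
            rw [← Finset.sum_filter]
            have : (range g).filter (fun b => b ∈ clset e g) = clset e g := by
              ext b
              rw [mem_filter]
              constructor
              · exact fun h => h.2
              · intro h
                refine ⟨?_, h⟩
                unfold clset at h
                exact (mem_filter.mp h).1
            rw [this, Finset.sum_const, nsmul_eq_mul]
            ring
    rw [hU, hV] at hsum
    have hA : ∏ p ∈ g.primeFactors, ((p : ℤ) - 2) ≤ ∏ p ∈ g.primeFactors, ∑ r ∈ range p, ccu e p r := by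
      apply Finset.prod_le_prod
      · intro p hp
        have := h5 p hp
        have : (5 : ℤ) ≤ p := by exact_mod_cast this
        linarith
      · intro p hp
        exact local_card he (hpr p hp) (h5 p hp)
    have hS : |∏ p ∈ g.primeFactors, ∑ r ∈ range p, ccv e p r| ≤ 1 := by
      rw [Finset.abs_prod]
      calc ∏ p ∈ g.primeFactors, |∑ r ∈ range p, ccv e p r|
          ≤ ∏ p ∈ g.primeFactors, (1 : ℤ) := by
            apply Finset.prod_le_prod
            · intro p hp
              exact abs_nonneg _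
            · intro p hp
              exact local_sum he (hpr p hp) (h5 p hp)
        _ = 1 := by simp
    have h3 : (3 : ℤ) ≤ ∏ p ∈ g.primeFactors, ((p : ℤ) - 2) := by
      obtain ⟨q, hq⟩ := hT
      rw [← Finset.mul_prod_erase _ _ hq]
      have hq5 : (5 : ℤ) ≤ q := by exact_mod_cast h5 q hq
      have hE : (1 : ℤ) ≤ ∏ p ∈ g.primeFactors.erase q, ((p : ℤ) - 2) := by
        calc (1 : ℤ) = ∏ p ∈ g.primeFactors.erase q, (1 : ℤ) := by simp
          _ ≤ _ := by
            apply Finset.prod_le_prod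
            · intro p hp
              norm_num
            · intro p hp
              have : (5 : ℤ) ≤ p := by exact_mod_cast h5 p (Finset.mem_of_mem_erase hp)
              linarith
      nlinarith
    have hS' := (abs_le.mp hS).1
    have hfin : ∏ p ∈ g.primeFactors, ((p : ℤ) - 2) ≤ 3 * ((clset e g).card : ℤ) := by
      linarith
    have hfin' : ∏ p ∈ g.primeFactors, ((p : ℝ) - 2) ≤ 3 * ((clset e g).card : ℝ) := by
      exact_mod_cast hfin
    linarith

end Pool.Agent.H.MP_0ec261_nt.AP
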