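import Pool.Agent.H.MP_0ec261_nt.AP.Defs

/-!
PROOF. bb_iff: `L1 e m ≡ L1 e (m % p)`, `L2 N m ≡ L2 N (m % p)` mod `p`. bb_card: for an odd prime `p` each of the
congruences `L1 e r ≡ 0`, `L2 N r ≡ 0` has at most one solution in `range p` (leading coefficients `1`, `2` are units).
small_class: for `p = 2` and for `p ∣ N` take `r = 1` (`L1 e 1 = 1`, `L2 N 1 = N - 2`), otherwise some `r < p` which is not
in `BB e N p` (bb_card, `p ≥ 3`); Chinese remainder theorem (`Nat.chineseRemainderOfFinset`) and bb_iff.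
-/

set_option autoImplicit false

namespace Pool.Agent.H.MP_0ec261_nt.AP

open Finset

theorem bb_iff {e N p m : ℕ} (hp : 0 < p) :
    m % p ∈ BB e N p ↔ (p : ℤ) ∣ L1 e m * L2 N m := by
  have h : ((m % p : ℕ) : ℤ) ≡ m [ZMOD p] := by
    rw [Int.natCast_mod]
    exact Int.mod_modEq _ _
  have h1 : L1 e (m % p) * L2 N (m % p) ≡ L1 e m * L2 N m [ZMOD p] := by
    unfold L1 L2
    exact ((h.mul_left _).sub (Int.ModEq.refl _)).mul ((Int.ModEq.refl _).sub (h.mul_left _))
  unfold BB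
  rw [mem_filter, mem_range, and_iff_right (Nat.mod_lt _ hp), ← Int.modEq_zero_iff_dvd,
    ← Int.modEq_zero_iff_dvd]
  exact ⟨fun h => h1.symm.trans h, fun h => h1.trans h⟩

private lemma cancel_aux {p : ℕ} (hp : p.Prime) (h2 : p ≠ 2) {c r s : ℕ} (hc : c = 1 ∨ c = 2)
    (hr : r < p) (hs : s < p) (h : (p : ℤ) ∣ (c : ℤ) * ((r : ℤ) - s)) : r = s := by
  have hpz : Prime (p : ℤ) := Nat.prime_iff_prime_int.1 hp
  rcases hpz.dvd_or_dvd h with h1 | h1
  · exfalso
    have h3 : p ∣ c := by exact_mod_cast h1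
    rcases hc with rfl | rfl
    · exact hp.one_lt.ne' (Nat.dvd_one.1 h3)
    · exact h2 ((Nat.prime_dvd_prime_iff_eq hp Nat.prime_two).1 h3)
  · have h3 : |(r : ℤ) - s| < p := by
      rw [abs_lt]
      constructor <;> omega
    have h4 := Int.eq_zero_of_abs_lt_dvd h1 h3
    omega

theorem bb_sub (e N p : ℕ) : BB e N p ⊆ range p := filter_subset _ _

theorem bb_card {e N p : ℕ} (he : e ≤ 1) (hp : p.Prime) (h2 : p ≠ 2) : (BB e N p).card ≤ 2 := by
  have hsub : BB e N p ⊆ (range p).filter (fun r => (p : ℤ) ∣ L1 e r) ∪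
      (range p).filter (fun r => (p : ℤ) ∣ L2 N r) := by
    intro r hr
    unfold BB at hr
    rw [mem_filter] at hr
    rw [mem_union, mem_filter, mem_filter]
    rcases (Nat.prime_iff_prime_int.1 hp).dvd_or_dvd hr.2 with h | h
    · exact Or.inl ⟨hr.1, h⟩
    · exact Or.inr ⟨hr.1, h⟩
  have hA : ((range p).filter (fun r => (p : ℤ) ∣ L1 e r)).card ≤ 1 := by
    rw [card_le_one]
    intro r hr s hs
    rw [mem_filter, mem_range] at hr hs
    refine cancel_aux (c := 1 + e) hp h2 (by omega) hr.1 hs.1 ?_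
    have h3 := dvd_sub hr.2 hs.2
    have h4 : L1 e r - L1 e s = ((1 + e : ℕ) : ℤ) * ((r : ℤ) - s) := by
      unfold L1
      push_cast
      ring
    rwa [h4] at h3
  have hB : ((range p).filter (fun r => (p : ℤ) ∣ L2 N r)).card ≤ 1 := by
    rw [card_le_one]
    intro r hr s hs
    rw [mem_filter, mem_range] at hr hs
    refine cancel_aux (c := 2) hp h2 (Or.inr rfl) hr.1 hs.1 ?_
    have h3 := dvd_sub hs.2 hr.2
    have h4 : L2 N s - L2 N r = ((2 : ℕ) : ℤ) * ((r : ℤ) - s) := by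
      unfold L2
      push_cast
      ring
    rwa [h4] at h3
  have h3 := card_le_card hsub
  have h4 := card_union_le ((range p).filter (fun r => (p : ℤ) ∣ L1 e r))
    ((range p).filter (fun r => (p : ℤ) ∣ L2 N r))
  omega

private lemma class_aux {e N p : ℕ} (he : e ≤ 1) (hN : Odd N) (hp : p.Prime) :
    ∃ r : ℕ, r < p ∧ r ∉ BB e N p ∧ (p ∣ N → r = 1) := by
  by_cases hc : p = 2 ∨ p ∣ N
  · refine ⟨1, hp.one_lt, ?_, fun _ => rfl⟩
    intro h
    unfold BB at h
    rw [mem_filter] at h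
    have h1 : L1 e 1 = 1 := by
      unfold L1
      push_cast
      ring
    have h3 := h.2
    rw [h1, one_mul] at h3
    unfold L2 at h3
    rcases hc with rfl | hc
    · obtain ⟨k, rfl⟩ := hN
      push_cast at h3
      omega
    · have h4 : (p : ℤ) ∣ (N : ℤ) := by exact_mod_cast hc
      have h5 : (p : ℤ) ∣ 2 := by
        have h6 := dvd_sub h4 h3
        have h7 : (N : ℤ) - ((N : ℤ) - 2 * ((1 : ℕ) : ℤ)) = 2 := by
          push_cast
          ring
        rwa [h7] at h6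
      have h6 : p ∣ 2 := by exact_mod_cast h5
      have h7 : p = 2 := (Nat.prime_dvd_prime_iff_eq hp Nat.prime_two).1 h6
      rw [h7] at hc
      obtain ⟨k, rfl⟩ := hN
      omega
  · push Not at hc
    have h1 := bb_card (N := N) he hp hc.1
    have h3 : 3 ≤ p := by
      have := hp.two_le
      have := hc.1
      omega
    have h4 : ∃ r ∈ range p, r ∉ BB e N p := by
      by_contra hcon
      push Not at hcon
      have h5 := card_le_card (show range p ⊆ BB e N p from hcon)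
      rw [card_range] at h5
      omega
    obtain ⟨r, hr, hr'⟩ := h4
    exact ⟨r, mem_range.1 hr, hr', fun h => absurd h hc.2⟩

theorem small_class {e N : ℕ} (he : e ≤ 1) (hN : Odd N) (S : Finset ℕ) (hS : ∀ p ∈ S, p.Prime) :
    ∃ a : ℕ, ∀ p ∈ S, ¬ (p : ℤ) ∣ L1 e a * L2 N a ∧ (p ∣ N → a ≡ 1 [MOD p]) := by
  have hex : ∀ p : ℕ, ∃ r : ℕ, p.Prime → r < p ∧ r ∉ BB e N p ∧ (p ∣ N → r = 1) := by
    intro p
    by_cases hp : p.Prime
    · obtain ⟨r, hr⟩ := class_aux he hN hp
      exact ⟨r, fun _ => hr⟩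
    · exact ⟨0, fun h => absurd h hp⟩
  choose r hr using hex
  obtain ⟨a, ha⟩ := Nat.chineseRemainderOfFinset r (fun p => p) S
    (fun p hp => (hS p hp).ne_zero)
    (fun p hp q hq hpq => (Nat.coprime_primes (hS p hp) (hS q hq)).2 hpq)
  refine ⟨a, fun p hp => ?_⟩
  have hpp := hS p hp
  obtain ⟨h1, h2, h3⟩ := hr p hpp
  have h4 : a % p = r p := by
    have h5 : a % p = r p % p := ha p hp
    rw [h5, Nat.mod_eq_of_lt h1]
  refine ⟨fun h => ?_, fun h => ?_⟩
  · rw [← bb_iff hpp.pos, h4] at h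
    exact h2 h
  · have h5 := ha p hp
    rw [h3 h] at h5
    exact h5

end Pool.Agent.H.MP_0ec261_nt.AP
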