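import Pool.Agent.H.MP_0ec261_nt.AP.Defs2
import Pool.Agent.H.MP_0ec261_nt.AP.Res

/-!
PROOF. Apply `hwv` to `P` = the primes `Z0 < p ≤ z` and `B p = {0, 1}` for `p ∣ f`, `B p = BB e N p` otherwise (bb_card):
`exp (-2) / (log z)^2 ≤ V1 * ∏_{p ∣ f, Z0 < p ≤ z} (1 - 2 / p)`. The primes `p ∣ f`, `p > z ≥ 1000`: their number `j` satisfies
`z^j ≤ f1 ≤ z^26` (each is `> z`), so `j ≤ 26` and `∏ (1 - 2 / p) ≥ (1 - 1 / 500)^26 ≥ 9 / 10`.
-/

set_option autoImplicit false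

namespace Pool.Agent.H.MP_0ec261_nt.AP

open Finset

private lemma va_big {z Z0 f : ℕ} (hZ : 1000 ≤ Z0) (hz : Z0 ≤ z)
    (hfz : ((f1 Z0 f : ℕ) : ℝ) ≤ (z : ℝ) ^ 26) :
    (9 / 10 : ℝ) ≤ ∏ p ∈ (f.primeFactors.filter (fun p => Z0 < p)).filter (fun p => ¬ p ≤ z),
      (1 - 2 / (p : ℝ)) := by
  set A := f.primeFactors.filter (fun p => Z0 < p) with hA
  set A2 := A.filter (fun p => ¬ p ≤ z) with hA2
  have hzr : (1000 : ℝ) ≤ z := by exact_mod_cast hZ.trans hz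
  have hA2z : ∀ p ∈ A2, z < p := by
    intro p hp
    rw [hA2, mem_filter] at hp
    omega
  have hcard : A2.card ≤ 26 := by
    have h1 : z ^ A2.card ≤ ∏ p ∈ A2, p := by
      rw [← Finset.prod_const]
      exact Finset.prod_le_prod' fun p hp => (hA2z p hp).le
    have h2 : ∏ p ∈ A2, p ∣ ∏ p ∈ A, p :=
      Finset.prod_dvd_prod_of_subset _ _ _ (filter_subset _ _)
    have h3 : 0 < ∏ p ∈ A, p := by
      refine Finset.prod_pos fun p hp => ?_
      rw [hA, mem_filter] at hp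
      exact (Nat.prime_of_mem_primeFactors hp.1).pos
    have h4 : z ^ A2.card ≤ f1 Z0 f := h1.trans (Nat.le_of_dvd h3 h2)
    have h5 : (z : ℝ) ^ A2.card ≤ (z : ℝ) ^ 26 := by
      refine le_trans ?_ hfz
      exact_mod_cast h4
    exact (pow_le_pow_iff_right₀ (by linarith)).mp h5
  calc (9 / 10 : ℝ) ≤ (1 - 1 / 500) ^ 26 := by norm_num
    _ ≤ (1 - 1 / 500) ^ A2.card := pow_le_pow_of_le_one (by norm_num) (by norm_num) hcard
    _ = ∏ p ∈ A2, (1 - 1 / 500 : ℝ) := by rw [Finset.prod_const]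
    _ ≤ ∏ p ∈ A2, (1 - 2 / (p : ℝ)) := by
      refine Finset.prod_le_prod (fun p _ => by norm_num) fun p hp => ?_
      have h1 : (z : ℝ) < p := by exact_mod_cast hA2z p hp
      have h2 : (2 : ℝ) / p ≤ 1 / 500 := by
        rw [div_le_div_iff₀ (by linarith) (by norm_num)]
        linarith
      linarith

theorem va {e N z Z0 f : ℕ} (he : e ≤ 1) (hZ : 1000 ≤ Z0) (hz : Z0 ≤ z) (hwv : WV Z0 z)
    (hf : Squarefree f) (hfz : ((f1 Z0 f : ℕ) : ℝ) ≤ (z : ℝ) ^ 26) :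
    (9 / 10) * (Real.exp (-2) / (Real.log z) ^ 2) ≤
      V1 e N Z0 z f * ∏ p ∈ f.primeFactors.filter (fun p => Z0 < p), (1 - 2 / (p : ℝ)) := by
  classical
  have hbig := va_big hZ hz hfz
  set A := f.primeFactors.filter (fun p => Z0 < p) with hA
  set Pa := (range (z + 1)).filter (fun p => p.Prime ∧ Z0 < p) with hPa
  have hPa1 : ∀ p ∈ Pa, p.Prime ∧ Z0 < p ∧ p ≤ z := by
    intro p hp
    rw [hPa, mem_filter, mem_range] at hp
    exact ⟨hp.2.1, hp.2.2, by omega⟩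
  obtain ⟨-, hV⟩ := hwv (fun p => if p ∣ f then {0, 1} else BB e N p) Pa hPa1 (by
    intro p hp
    obtain ⟨h1, h2, h3⟩ := hPa1 p hp
    show (if p ∣ f then ({0, 1} : Finset ℕ) else BB e N p).card ≤ 2
    split_ifs
    · exact Finset.card_le_two
    · exact bb_card he h1 (by omega))
  have e1 : Pa.filter (fun p => p ∣ f) = A.filter (fun p => p ≤ z) := by
    ext p
    rw [hPa, hA, mem_filter, mem_filter, mem_filter, mem_filter, mem_range, Nat.mem_primeFactors]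
    constructor
    · rintro ⟨⟨h1, h2, h3⟩, h4⟩
      exact ⟨⟨⟨h2, h4, hf.ne_zero⟩, h3⟩, by omega⟩
    · rintro ⟨⟨⟨h2, h4, _⟩, h3⟩, h1⟩
      exact ⟨⟨by omega, h2, h3⟩, h4⟩
  have e2 : Pa.filter (fun p => ¬ p ∣ f) = P1 Z0 z f := by
    ext p
    unfold P1
    rw [hPa, mem_filter, mem_filter, mem_filter]
    constructor
    · rintro ⟨⟨h1, h2, h3⟩, h4⟩
      exact ⟨h1, h2, h3, h4⟩
    · rintro ⟨h1, h2, h3, h4⟩
      exact ⟨⟨h1, h2, h3⟩, h4⟩
  have hsplit : ∏ p ∈ Pa, (1 - (((if p ∣ f then ({0, 1} : Finset ℕ) else BB e N p).card : ℕ) : ℝ) / p)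
      = (∏ p ∈ A.filter (fun p => p ≤ z), (1 - 2 / (p : ℝ))) * V1 e N Z0 z f := by
    rw [← Finset.prod_filter_mul_prod_filter_not Pa (fun p => p ∣ f), e1, e2]
    unfold V1
    congr 1
    · refine Finset.prod_congr rfl fun p hp => ?_
      have h1 : p ∣ f := by
        rw [← e1, mem_filter] at hp
        exact hp.2
      rw [if_pos h1]
      have h2 : ({0, 1} : Finset ℕ).card = 2 := by decide
      rw [h2]
      norm_num
    · refine Finset.prod_congr rfl fun p hp => ?_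
      have h1 : ¬ p ∣ f := by
        rw [← e2, mem_filter] at hp
        exact hp.2
      rw [if_neg h1]
  have hV' : Real.exp (-2) / (Real.log z) ^ 2 ≤
      (∏ p ∈ A.filter (fun p => p ≤ z), (1 - 2 / (p : ℝ))) * V1 e N Z0 z f := by
    rw [← hsplit]
    exact hV
  have hX : 0 ≤ Real.exp (-2) / (Real.log z) ^ 2 := by positivity
  rw [← Finset.prod_filter_mul_prod_filter_not A (fun p => p ≤ z)]
  calc (9 / 10) * (Real.exp (-2) / (Real.log z) ^ 2)
      ≤ (∏ p ∈ A.filter (fun p => ¬ p ≤ z), (1 - 2 / (p : ℝ))) *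
        ((∏ p ∈ A.filter (fun p => p ≤ z), (1 - 2 / (p : ℝ))) * V1 e N Z0 z f) :=
        mul_le_mul hbig hV' hX (le_trans (by norm_num) hbig)
    _ = _ := by ring

end Pool.Agent.H.MP_0ec261_nt.AP
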