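import Pool.Agent.H.MP_0ec261_nt.AP.CA1
import Pool.Agent.H.MP_0ec261_nt.AP.Cc
import Pool.Agent.H.MP_0ec261_nt.AP.Va

/-!
PROOF. `g = f1 Z0 f`, `A = card (clset e g) ≤ g ≤ z^26`, `A ≥ (1/3) ∏_{p ∣ g} (p - 2)` (class_count; the prime factors of `g` are the
`p ∈ f.primeFactors` with `Z0 < p`), so `A / g ≥ (1/3) ∏ (1 - 2 / p)` and by va
`A (31/32) (M / (W0 g)) V1 ≥ (31/32) (1/3) (9/10) (M / W0) exp (-2) / (log z)^2`. With ca1, `A z^26 (1 + 26 log z) ≤ z^52 (1 + 26 log z)` and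
`2 log N (M / (W0 z)) ≤ (M / W0) exp (-2) / (32 (log z)^2)`; `(31/32) (3/10) - 1/32 ≥ 1/4`.
-/

set_option autoImplicit false

namespace Pool.Agent.H.MP_0ec261_nt.AP

open Finset

theorem caseA2 {e N z M Z0 f k : ℕ} (he : e ≤ 1) (hN : Odd N) (hZ : 1000 ≤ Z0) (hz : Z0 ≤ z)
    (hwv : WV Z0 z) (hf : Squarefree f) (hNf : N = f * k ^ 2)
    (hfz : ((∏ p ∈ f.primeFactors.filter (fun p => Z0 < p), p : ℕ) : ℝ) ≤ (z : ℝ) ^ 26)
    (hbr : 2 * Real.log N / z ≤ Real.exp (-2) / (32 * (Real.log z) ^ 2)) :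
    (1 / 4) * ((M : ℝ) / ((∏ p ∈ pr Z0, p : ℕ) : ℝ)) * (Real.exp (-2) / (Real.log z) ^ 2) -
        (z : ℝ) ^ 52 * (1 + 26 * Real.log z) - 2 * Real.log N ≤
      ((good e N z M).card : ℝ) := by
  have hV : 0 ≤ V1 e N Z0 z f := by
    unfold V1
    refine Finset.prod_nonneg fun p _ => ?_
    have h1 : ((BB e N p).card : ℝ) ≤ p := by
      have h2 := Finset.card_le_card (bb_sub e N p)
      rw [Finset.card_range] at h2
      exact_mod_cast h2
    rcases Nat.eq_zero_or_pos p with h | h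
    · rw [h]
      simp
    · have h3 : (0 : ℝ) < p := by exact_mod_cast h
      rw [sub_nonneg, div_le_one h3]
      exact h1
  have hT : ∀ p ∈ f.primeFactors.filter (fun p => Z0 < p), p.Prime := fun p hp =>
    Nat.prime_of_mem_primeFactors (Finset.mem_filter.1 hp).1
  have hpf : (f1 Z0 f).primeFactors = f.primeFactors.filter (fun p => Z0 < p) := by
    unfold f1
    exact Nat.primeFactors_prod hT
  have hgf : f1 Z0 f ∣ f := by
    have h1 : f1 Z0 f ∣ ∏ p ∈ f.primeFactors, p :=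
      Finset.prod_dvd_prod_of_subset _ _ _ (Finset.filter_subset _ _)
    rwa [Nat.prod_primeFactors_of_squarefree hf] at h1
  have hgsq : Squarefree (f1 Z0 f) := hf.squarefree_of_dvd hgf
  have hg0 : (0 : ℝ) < (f1 Z0 f : ℕ) := by
    exact_mod_cast Nat.pos_of_ne_zero hgsq.ne_zero
  have hfz' : ((f1 Z0 f : ℕ) : ℝ) ≤ (z : ℝ) ^ 26 := hfz
  have hc := class_count he hgsq (fun p hp => by
    rw [hpf] at hp
    have h1 := (Finset.mem_filter.1 hp).2
    omega)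
  have hprod : ∏ p ∈ (f1 Z0 f).primeFactors, ((p : ℝ) - 2) = ((f1 Z0 f : ℕ) : ℝ) *
      ∏ p ∈ f.primeFactors.filter (fun p => Z0 < p), (1 - 2 / (p : ℝ)) := by
    rw [hpf]
    conv_rhs => rw [f1]
    rw [Nat.cast_prod, ← Finset.prod_mul_distrib]
    refine Finset.prod_congr rfl fun p hp => ?_
    have h1 : (p : ℝ) ≠ 0 := by exact_mod_cast (hT p hp).ne_zero
    field_simp
  rw [hprod] at hc
  have hA : ((clset e (f1 Z0 f)).card : ℝ) ≤ ((f1 Z0 f : ℕ) : ℝ) := by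
    have h1 : (clset e (f1 Z0 f)).card ≤ f1 Z0 f := by
      have h2 := Finset.card_filter_le (range (f1 Z0 f)) (fun b : ℕ =>
        jacobiSym (b : ℤ) (f1 Z0 f) = 1 ∧ ∀ p ∈ (f1 Z0 f).primeFactors, ¬ (p : ℤ) ∣ L1 e b)
      rw [Finset.card_range] at h2
      exact h2
    exact_mod_cast h1
  have hva := va (N := N) he hZ hz hwv hf hfz'
  have h1 := ca1 (M := M) he hN hZ hz hwv hf hNf
  have hz0 : (0 : ℝ) ≤ z := Nat.cast_nonneg z
  have hlz : 0 ≤ Real.log z := Real.log_natCast_nonneg z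
  have hE : 0 ≤ Real.exp (-2) / (Real.log z) ^ 2 := by positivity
  have hm0 : (0 : ℝ) ≤ (M : ℝ) / ((∏ p ∈ pr Z0, p : ℕ) : ℝ) :=
    div_nonneg (Nat.cast_nonneg M) (Nat.cast_nonneg _)
  rw [← div_div, ← div_div] at h1
  have hbr' : 2 * Real.log N / z ≤ (1 / 32) * (Real.exp (-2) / (Real.log z) ^ 2) := by
    refine hbr.trans (le_of_eq ?_)
    rw [div_mul_div_comm, one_mul]
  generalize (M : ℝ) / ((∏ p ∈ pr Z0, p : ℕ) : ℝ) = m at h1 hm0 ⊢
  generalize Real.exp (-2) / (Real.log z) ^ 2 = E at h1 hE hva hbr' ⊢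
  generalize (∏ p ∈ f.primeFactors.filter (fun p => Z0 < p), (1 - 2 / (p : ℝ))) = Q at hc hva
  generalize V1 e N Z0 z f = V at h1 hva hV
  generalize ((clset e (f1 Z0 f)).card : ℝ) = A at h1 hc hA
  generalize ((f1 Z0 f : ℕ) : ℝ) = G at *
  generalize ((good e N z M).card : ℝ) = g at h1 ⊢
  generalize hLdef : 1 + 26 * Real.log z = L at h1 ⊢
  have hL : 0 ≤ L := by
    rw [← hLdef]
    positivity
  have e1 : (3 / 10) * (m * E) ≤ A * (m / G * V) := by
    have e2 : 0 ≤ m / G * V := mul_nonneg (div_nonneg hm0 hg0.le) hV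
    have e3 : (1 / 3) * (G * Q) * (m / G * V) ≤ A * (m / G * V) :=
      mul_le_mul_of_nonneg_right hc e2
    have e4 : (1 / 3) * (G * Q) * (m / G * V) = (1 / 3) * m * (V * Q) := by
      field_simp
    have e5 : (1 / 3) * m * ((9 / 10) * E) ≤ (1 / 3) * m * (V * Q) :=
      mul_le_mul_of_nonneg_left hva (by positivity)
    linarith
  have e6 : A * ((z : ℝ) ^ 26 * L) ≤ (z : ℝ) ^ 52 * L := by
    have e7 : A * ((z : ℝ) ^ 26 * L) ≤ (z : ℝ) ^ 26 * ((z : ℝ) ^ 26 * L) :=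
      mul_le_mul_of_nonneg_right (hA.trans hfz') (by positivity)
    have e8 : (z : ℝ) ^ 26 * ((z : ℝ) ^ 26 * L) = (z : ℝ) ^ 52 * L := by ring
    linarith
  have e9 : 2 * Real.log N * (m / z) ≤ (1 / 32) * (m * E) := by
    have e10 : m * (2 * Real.log N / z) ≤ m * ((1 / 32) * E) :=
      mul_le_mul_of_nonneg_left hbr' hm0
    have e11 : 2 * Real.log N * (m / z) = m * (2 * Real.log N / z) := by ring
    linarith
  have e12 : 0 ≤ m * E := mul_nonneg hm0 hE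
  have e13 : A * (31 / 32 * (m / G) * V - (z : ℝ) ^ 26 * L) - 2 * Real.log N * (m / z + 1) =
      (31 / 32) * (A * (m / G * V)) - A * ((z : ℝ) ^ 26 * L) - 2 * Real.log N * (m / z) -
        2 * Real.log N := by ring
  rw [e13] at h1
  linarith

end Pool.Agent.H.MP_0ec261_nt.AP
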