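import Pool.Agent.H.MP_0ec261_nt.AP.Defs

/-!
The Jacobi symbol modulo an odd squarefree `f > 1` is a primitive character.

PROOF. `χ` = the function `x ↦ J(x.val | f)` (completely multiplicative: `jacobiSym.mul_left`; periodic:
`jacobiSym.mod_left`; zero off the units: `jacobiSym.eq_zero_iff_not_coprime` or similar), a MulChar on `ZMod f`.
Primitive: let `d` be the conductor, `d ∣ f`; if `d ≠ f` there is a prime `p ∣ f / d`, and `p ∤ d` because `f` is
squarefree. By the Chinese remainder theorem take `a ≡ 1 mod f / p`, `a` a non-residue mod `p`: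
`J(a | f) = J(a | f/p) J(a | p) = -1`, but `d ∣ f / p`, so `a ≡ 1 mod d` and `χ` factors through `d`: `χ a = χ 1 = 1`.
-/

set_option autoImplicit false

namespace Pool.Agent.H.MP_0ec261_nt.AP

open Finset

private theorem Pv2_mod (f n : ℕ) : jacobiSym ((n % f : ℕ) : ℤ) f = jacobiSym (n : ℤ) f := by
  rw [Int.natCast_mod, ← jacobiSym.mod_left]

private theorem Pv2_char {f : ℕ} [NeZero f] :
    ∃ χ : DirichletCharacter ℂ f,
      ∀ n : ℕ, χ (n : ZMod f) = ((jacobiSym (n : ℤ) f : ℤ) : ℂ) := by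
  let χ : DirichletCharacter ℂ f :=
    { toFun := fun x => ((jacobiSym (x.val : ℤ) f : ℤ) : ℂ)
      map_one' := by
        have h1 : (1 : ZMod f).val = 1 % f := by rw [← Nat.cast_one, ZMod.val_natCast]
        rw [h1, Pv2_mod, Nat.cast_one, jacobiSym.one_left, Int.cast_one]
      map_mul' := fun x y => by
        rw [ZMod.val_mul, Pv2_mod, Nat.cast_mul, jacobiSym.mul_left, Int.cast_mul]
      map_nonunit' := fun x hx => by
        change ((jacobiSym ((x.val : ℕ) : ℤ) f : ℤ) : ℂ) = 0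
        rw [Int.cast_eq_zero, jacobiSym.eq_zero_iff_not_coprime]
        intro h
        refine hx ?_
        rw [← ZMod.natCast_zmod_val x, ZMod.isUnit_iff_coprime]
        rwa [Int.gcd_natCast_natCast] at h }
  refine ⟨χ, fun n => ?_⟩
  change ((jacobiSym ((((n : ZMod f)).val : ℕ) : ℤ) f : ℤ) : ℂ) = _
  rw [ZMod.val_natCast, Pv2_mod]

/-- a number which is `1` modulo `m` and a non-residue modulo `p` -/
private theorem Pv2_exists {p m : ℕ} (hp : p.Prime) (hp2 : p ≠ 2) (hco : Nat.Coprime m p)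
    (hm : m ≠ 0) : ∃ a : ℕ, a ≡ 1 [MOD m] ∧ jacobiSym (a : ℤ) (p * m) = -1 := by
  have : Fact p.Prime := ⟨hp⟩
  obtain ⟨u, hu⟩ := FiniteField.exists_nonsquare (F := ZMod p) (by
    rw [ZMod.ringChar_zmod_n]
    exact hp2)
  obtain ⟨a, ha1, ha2⟩ := Nat.chineseRemainder hco 1 u.val
  refine ⟨a, ha1, ?_⟩
  rw [jacobiSym.mul_right' _ hp.ne_zero hm]
  have h1 : jacobiSym (a : ℤ) m = 1 := by
    have h2 : (a : ℤ) % m = 1 % m := by
      have h3 : a % m = 1 % m := ha1
      exact_mod_cast h3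
    rw [jacobiSym.mod_left' h2, jacobiSym.one_left]
  have h4 : jacobiSym (a : ℤ) p = -1 := by
    rw [← jacobiSym.legendreSym.to_jacobiSym, legendreSym.eq_neg_one_iff]
    have h5 : ((a : ℤ) : ZMod p) = u := by
      have h6 : (a : ZMod p) = ((u.val : ℕ) : ZMod p) := (ZMod.natCast_eq_natCast_iff _ _ _).2 ha2
      rw [Int.cast_natCast, h6, ZMod.natCast_zmod_val]
    rw [h5]
    exact hu
  rw [h1, h4, mul_one]

theorem exists_jac_char {f : ℕ} (hf : Odd f) (hsq : Squarefree f) :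
    ∃ χ : DirichletCharacter ℂ f, χ.IsPrimitive ∧
      ∀ n : ℕ, χ (n : ZMod f) = ((jacobiSym (n : ℤ) f : ℤ) : ℂ) := by
  have hf0 : f ≠ 0 := hsq.ne_zero
  have : NeZero f := ⟨hf0⟩
  obtain ⟨χ, hχ⟩ := Pv2_char (f := f)
  refine ⟨χ, ?_, hχ⟩
  rw [DirichletCharacter.isPrimitive_def]
  by_contra hne
  obtain ⟨e, he⟩ := χ.conductor_dvd_level
  have he1 : e ≠ 1 := by
    intro h1
    rw [h1, mul_one] at he
    exact hne he.symm
  obtain ⟨p, hp, m', hm'⟩ := Nat.exists_prime_and_dvd he1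
  have hfp : f = p * (χ.conductor * m') := he.trans (by
    rw [hm']
    ring)
  obtain ⟨m, hm⟩ : ∃ m, m = χ.conductor * m' := ⟨_, rfl⟩
  rw [← hm] at hfp
  have hp2 : p ≠ 2 := by
    intro h2
    rw [hfp, h2, Nat.odd_mul] at hf
    exact absurd hf.1 (by decide)
  have hm0 : m ≠ 0 := by
    intro h0
    rw [h0, mul_zero] at hfp
    exact hf0 hfp
  have hco : Nat.Coprime m p := by
    rw [hfp] at hsq
    exact (Nat.coprime_of_squarefree_mul hsq).symm
  obtain ⟨a, ha1, ha2⟩ := Pv2_exists hp hp2 hco hm0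
  have hχa : χ (a : ZMod f) = -1 := by
    rw [hχ, hfp, ha2]
    norm_num
  have hunit : IsUnit (a : ZMod f) := by
    by_contra hnu
    rw [χ.map_nonunit hnu] at hχa
    norm_num at hχa
  have hfac := (DirichletCharacter.factorsThrough_iff_ker_unitsMap χ.conductor_dvd_level).1
    χ.factorsThrough_conductor
  have hker : hunit.unit ∈ (ZMod.unitsMap χ.conductor_dvd_level).ker := by
    rw [MonoidHom.mem_ker]
    ext
    rw [ZMod.unitsMap_val, IsUnit.unit_spec, Units.val_one]
    have hd : χ.conductor ∣ m := ⟨m', hm⟩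
    have h1 : a ≡ 1 [MOD χ.conductor] := ha1.of_dvd hd
    rw [ZMod.cast_natCast χ.conductor_dvd_level, (ZMod.natCast_eq_natCast_iff _ _ _).2 h1,
      Nat.cast_one]
  have h2 := hfac hker
  rw [MonoidHom.mem_ker] at h2
  have h3 : χ (a : ZMod f) = 1 := by
    have h4 := congrArg Units.val h2
    rwa [MulChar.coe_toUnitHom, IsUnit.unit_spec, Units.val_one] at h4
  rw [hχa] at h3
  norm_num at h3

end Pool.Agent.H.MP_0ec261_nt.AP
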