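import Pool.Agent.H.MP_0ec261_nt.AP.Pv1
import Pool.Agent.H.MP_0ec261_nt.AP.Pv2

/-!
Sums of the Jacobi symbol over progressions.

PROOF of pv_jac: `exists_jac_char`, `pv_prim` for `range (A + X)` and `range A`.

PROOF of class_sum: put `g = gcd f d`, `f' = f / g > 1` (as `f ∤ d`), `gcd(f', d) = 1` (as `f` is squarefree).
The `m ∈ [1, M]` with `m ≡ c mod d` are `c0 + d j`, `j < X`, for some `c0`, `X`. `J(m | f) = J(m | g) J(m | f')`,
`J(m | g) = J(c | g)` is constant, and with `d c' ≡ c0 mod f'`: `J(c0 + d j | f') = J(d | f') J(c' + j | f')`.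
So pv_jac for `f' ≤ f`, `A = c'`.
-/

set_option autoImplicit false

namespace Pool.Agent.H.MP_0ec261_nt.AP

open Finset

theorem pv_jac {f : ℕ} (hf : Odd f) (hsq : Squarefree f) (h1 : 1 < f) (A X : ℕ) :
    |∑ j ∈ range X, ((jacobiSym ((A + j : ℕ) : ℤ) f : ℤ) : ℝ)| ≤
      2 * Real.sqrt f * (1 + Real.log f) := by
  have : NeZero f := ⟨by omega⟩
  obtain ⟨χ, hχ, hJ⟩ := exists_jac_char hf hsq
  have hb := fun Y => pv_prim h1 hχ Y
  have hr : ∀ Y, ‖∑ n ∈ range Y, χ (n : ZMod f)‖ =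
      |∑ n ∈ range Y, ((jacobiSym (n : ℤ) f : ℤ) : ℝ)| := by
    intro Y
    have e0 : ∑ n ∈ range Y, χ (n : ZMod f) =
        ((∑ n ∈ range Y, ((jacobiSym (n : ℤ) f : ℤ) : ℝ) : ℝ) : ℂ) := by
      push_cast
      exact Finset.sum_congr rfl fun n _ => hJ n
    rw [e0, Complex.norm_real, Real.norm_eq_abs]
  have hs : ∑ j ∈ range X, ((jacobiSym ((A + j : ℕ) : ℤ) f : ℤ) : ℝ) =
      ∑ n ∈ range (A + X), ((jacobiSym (n : ℤ) f : ℤ) : ℝ) -
        ∑ n ∈ range A, ((jacobiSym (n : ℤ) f : ℤ) : ℝ) := by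
    rw [Finset.sum_range_add, add_sub_cancel_left]
  rw [hs]
  have e1 := hb (A + X)
  have e2 := hb A
  rw [hr] at e1 e2
  refine (abs_sub _ _).trans ?_
  linarith

theorem class_sum {f d : ℕ} (hf : Odd f) (hsq : Squarefree f) (hd : 0 < d) (hfd : ¬ f ∣ d)
    (M c : ℕ) :
    |∑ m ∈ cl M d c, ((jacobiSym (m : ℤ) f : ℤ) : ℝ)| ≤ 2 * Real.sqrt f * (1 + Real.log f) := by
  have hf0 : f ≠ 0 := by
    rintro rfl
    simp at hf
  set g := Nat.gcd f d with hg
  obtain ⟨q, hq⟩ : g ∣ f := Nat.gcd_dvd_left f d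
  have hg0 : g ≠ 0 := by
    intro h
    rw [h, zero_mul] at hq
    exact hf0 hq
  have hq0 : q ≠ 0 := by
    rintro rfl
    rw [mul_zero] at hq
    exact hf0 hq
  have hq1 : 1 < q := by
    rcases Nat.lt_or_ge 1 q with h | h
    · exact h
    · exfalso
      have h1 : q = 1 := by omega
      rw [h1, mul_one] at hq
      exact hfd (hq ▸ Nat.gcd_dvd_right f d)
  have hqf : q ∣ f := ⟨g, by rw [mul_comm, ← hq]⟩
  have hqle : q ≤ f := Nat.le_of_dvd (Nat.pos_of_ne_zero hf0) hqf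
  have hqodd : Odd q := Odd.of_dvd_nat hf hqf
  have hqsq : Squarefree q := hsq.squarefree_of_dvd hqf
  have hgq : Nat.Coprime g q := Nat.coprime_of_squarefree_mul (by rw [← hq]; exact hsq)
  have hdq : Nat.Coprime d q := by
    have h1 : Nat.gcd d q ∣ g := Nat.dvd_gcd ((Nat.gcd_dvd_right d q).trans hqf)
      (Nat.gcd_dvd_left d q)
    have h2 : Nat.gcd d q ∣ Nat.gcd g q := Nat.dvd_gcd h1 (Nat.gcd_dvd_right d q)
    rw [hgq] at h2
    exact Nat.dvd_one.1 h2
  obtain ⟨c0, hc1, hcd, hcc⟩ : ∃ c0, 1 ≤ c0 ∧ c0 ≤ d ∧ c0 ≡ c [MOD d] := by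
    by_cases h : c % d = 0
    · refine ⟨d, hd, le_rfl, ?_⟩
      unfold Nat.ModEq
      rw [Nat.mod_self, h]
    · exact ⟨c % d, Nat.one_le_iff_ne_zero.2 h, (Nat.mod_lt _ hd).le, Nat.mod_modEq c d⟩
  have hcl : cl M d c = (range ((M + d - c0) / d)).image (fun j => c0 + d * j) := by
    ext m
    rw [cl, Finset.mem_filter, Finset.mem_Icc, Finset.mem_image]
    constructor
    · rintro ⟨⟨hm1, hm2⟩, hm3⟩
      have h1 : c0 ≡ m [MOD d] := hcc.trans hm3.symm
      have h2 : c0 ≤ m := by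
        by_contra hlt
        push Not at hlt
        have h3 : d ∣ c0 - m := (Nat.modEq_iff_dvd' hlt.le).1 h1.symm
        have h4 := Nat.le_of_dvd (by omega) h3
        omega
      obtain ⟨j, hj⟩ := (Nat.modEq_iff_dvd' h2).1 h1
      refine ⟨j, ?_, by omega⟩
      rw [Finset.mem_range, ← Nat.succ_le_iff, Nat.le_div_iff_mul_le hd]
      have h5 : (j + 1) * d = d * j + d := by ring
      rw [Nat.succ_eq_add_one, h5]
      omega
    · rintro ⟨j, hj, rfl⟩
      rw [Finset.mem_range, ← Nat.succ_le_iff, Nat.le_div_iff_mul_le hd] at hj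
      have h5 : (j + 1) * d = d * j + d := by ring
      rw [Nat.succ_eq_add_one, h5] at hj
      refine ⟨⟨by omega, by omega⟩, ?_⟩
      have h6 : c0 + d * j ≡ c0 + 0 [MOD d] := Nat.ModEq.add_left _
        ((Nat.modEq_zero_iff_dvd).2 (Dvd.intro _ rfl))
      exact h6.trans hcc
  obtain ⟨x, -, hx⟩ := Nat.exists_mul_mod_eq_one_of_coprime hdq hq1
  have hc' : d * (x * c0) ≡ c0 [MOD q] := by
    have h1 : d * x ≡ 1 [MOD q] := by
      unfold Nat.ModEq
      rw [hx, Nat.mod_eq_of_lt hq1]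
    have h2 := h1.mul_right c0
    rw [one_mul, mul_assoc] at h2
    exact h2
  have hterm : ∀ j, ((jacobiSym ((c0 + d * j : ℕ) : ℤ) f : ℤ) : ℝ) =
      ((jacobiSym (c : ℤ) g : ℤ) : ℝ) * ((jacobiSym (d : ℤ) q : ℤ) : ℝ) *
        ((jacobiSym ((x * c0 + j : ℕ) : ℤ) q : ℤ) : ℝ) := by
    intro j
    have hgn : NeZero g := ⟨hg0⟩
    have hqn : NeZero q := ⟨hq0⟩
    have h1 : jacobiSym ((c0 + d * j : ℕ) : ℤ) f =
        jacobiSym ((c0 + d * j : ℕ) : ℤ) g * jacobiSym ((c0 + d * j : ℕ) : ℤ) q := by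
      conv_lhs => rw [hq]
      exact jacobiSym.mul_right _ _ _
    have h2 : jacobiSym ((c0 + d * j : ℕ) : ℤ) g = jacobiSym (c : ℤ) g := by
      apply jacobiSym.mod_left'
      have h3 : c0 + d * j ≡ c [MOD d] := by
        have h6 : c0 + d * j ≡ c0 + 0 [MOD d] := Nat.ModEq.add_left _
          ((Nat.modEq_zero_iff_dvd).2 (Dvd.intro _ rfl))
        exact h6.trans hcc
      have h4 : c0 + d * j ≡ c [MOD g] := h3.of_dvd (Nat.gcd_dvd_right f d)
      exact_mod_cast h4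
    have h3 : jacobiSym ((c0 + d * j : ℕ) : ℤ) q =
        jacobiSym (d : ℤ) q * jacobiSym ((x * c0 + j : ℕ) : ℤ) q := by
      rw [← jacobiSym.mul_left]
      apply jacobiSym.mod_left'
      have h4 : c0 + d * j ≡ d * (x * c0 + j) [MOD q] := by
        rw [mul_add]
        exact hc'.symm.add_right _
      exact_mod_cast h4
    rw [h1, h2, h3]
    push_cast
    ring
  have habs : ∀ (a : ℤ) (b : ℕ), |((jacobiSym a b : ℤ) : ℝ)| ≤ 1 := by
    intro a b
    rcases jacobiSym.trichotomy a b with h | h | h <;> rw [h] <;> norm_num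
  rw [hcl, Finset.sum_image (fun a _ b _ h => by
    have h1 : d * a = d * b := by
      have h2 : c0 + d * a = c0 + d * b := h
      omega
    exact Nat.eq_of_mul_eq_mul_left hd h1), Finset.sum_congr rfl (fun j _ => hterm j),
    ← Finset.mul_sum, abs_mul, abs_mul]
  have h8 := pv_jac hqodd hqsq hq1 (x * c0) ((M + d - c0) / d)
  have hlog : Real.log q ≤ Real.log f :=
    Real.log_le_log (by exact_mod_cast Nat.pos_of_ne_zero hq0) (by exact_mod_cast hqle)
  have hlog0 : 0 ≤ Real.log q := Real.log_natCast_nonneg q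
  have hsqrt : Real.sqrt q ≤ Real.sqrt f := Real.sqrt_le_sqrt (by exact_mod_cast hqle)
  calc |((jacobiSym (c : ℤ) g : ℤ) : ℝ)| * |((jacobiSym (d : ℤ) q : ℤ) : ℝ)| *
        |∑ j ∈ range ((M + d - c0) / d), ((jacobiSym ((x * c0 + j : ℕ) : ℤ) q : ℤ) : ℝ)|
      ≤ 1 * (2 * Real.sqrt q * (1 + Real.log q)) := by
        refine mul_le_mul ?_ h8 (abs_nonneg _) zero_le_one
        exact mul_le_one₀ (habs _ _) (abs_nonneg _) (habs _ _)
    _ = 2 * Real.sqrt q * (1 + Real.log q) := one_mul _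
    _ ≤ 2 * Real.sqrt f * (1 + Real.log f) := by
        refine mul_le_mul (by linarith) (by linarith) (by linarith) (by positivity)

end Pool.Agent.H.MP_0ec261_nt.AP
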