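import Pool.Agent.H.MP_0ec261_nt.AP.SvE
import Pool.Agent.H.MP_0ec261_nt.AP.Cop
import Pool.Agent.H.MP_0ec261_nt.AP.Cls

/-!
Case B: the part `f1` of `f` composed of the primes `> Z0` is larger than `z^26`.

PROOF. `S = pr Z0`, `W = W0 = ∏_S p`, `a` from small_class, `P` = the primes `p ≤ z`, `Z0 < p`, `B = BB e N`, `Q = z^26`,
`δ = 1/32` (hypothesis hwv), `F m = J(m | f)` (real). class sums: for `T ⊆ P` with `∏ T ≤ z^26`, `f ∤ W0 ∏ T`: otherwise `f1 ∣ W0 ∏ T`, `f1` is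
coprime to `W0`, so `f1 ∣ ∏ T`, `f1 ≤ z^26`, contradiction; class_sum with `Bd = 2 √f (1 + log f) ≤ 2 √N (1 + log N)`
(`f` is odd, `f ≤ N`; `f > 1`).
A non-exceptional `m ∈ sft` is coprime to `N` (sft_good), `J(m | N) = J(m | f) = ± 1` (jac_eq), and it is in `good` iff `J(m | f) = 1`:
`card good ≥ ∑_{sft, not exc} (1 + F m) / 2 ≥ (1/2) (card sft + ∑_sft F) - card exc`. With `X = M / W0`, `V` the product:
`card sft ≥ (31/32) X V - z^52`, `|∑_sft F| ≤ z^52 Bd + (2/32) X V + 2 z^52`, `card exc ≤ 2 log N (X / z + 1)`,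
`V ≥ exp (-2) / (log z)^2`, `2 log N / z ≤ exp (-2) / (32 (log z)^2)`.
Hence `card good ≥ (29/64 - 1/32) X exp (-2) / (log z)^2 - (3/2) z^52 - z^52 √N (1 + log N) - 2 log N`.
-/

set_option autoImplicit false

namespace Pool.Agent.H.MP_0ec261_nt.AP

open Finset

private theorem pr_prime {Z0 p : ℕ} (h : p ∈ pr Z0) : p.Prime := (mem_filter.1 h).2

private theorem pr_le {Z0 p : ℕ} (h : p ∈ pr Z0) : p ≤ Z0 :=
  Nat.lt_succ_iff.1 (mem_range.1 (mem_filter.1 h).1)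

private theorem not_dvd_W {Z0 p : ℕ} (hp : p.Prime) (h : Z0 < p) : ¬ p ∣ ∏ q ∈ pr Z0, q := by
  intro hd
  rw [Prime.dvd_finsetProd_iff hp.prime] at hd
  obtain ⟨q, hq, hpq⟩ := hd
  have h1 := (Nat.prime_dvd_prime_iff_eq hp (pr_prime hq)).1 hpq
  have h2 := pr_le hq
  omega

private theorem W_pos (Z0 : ℕ) : 0 < ∏ q ∈ pr Z0, q :=
  Finset.prod_pos fun q hq => (pr_prime hq).pos

private theorem f_not_dvd {Z0 z f : ℕ} (hf : Squarefree f) (T : Finset ℕ) (hT0 : 0 < ∏ p ∈ T, p)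
    (hfz : (z : ℝ) ^ 26 < ((∏ p ∈ f.primeFactors.filter (fun p => Z0 < p), p : ℕ) : ℝ))
    (hT : ((∏ p ∈ T, p : ℕ) : ℝ) ≤ (z : ℝ) ^ 26) : ¬ f ∣ (∏ p ∈ pr Z0, p) * ∏ p ∈ T, p := by
  intro hd
  have h1 : (∏ p ∈ f.primeFactors.filter (fun p => Z0 < p), p) ∣ f := by
    have h := Nat.prod_primeFactors_of_squarefree hf
    calc (∏ p ∈ f.primeFactors.filter (fun p => Z0 < p), p) ∣ ∏ p ∈ f.primeFactors, p :=
          Finset.prod_dvd_prod_of_subset _ _ _ (filter_subset _ _)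
      _ = f := h
  have h2 : Nat.Coprime (∏ p ∈ f.primeFactors.filter (fun p => Z0 < p), p)
      (∏ p ∈ pr Z0, p) := by
    refine Nat.Coprime.prod_left fun p hp => ?_
    have hp1 := mem_filter.1 hp
    have hp2 := Nat.prime_of_mem_primeFactors hp1.1
    exact (Nat.Prime.coprime_iff_not_dvd hp2).2 (not_dvd_W hp2 hp1.2)
  have h3 := h2.dvd_of_dvd_mul_left (h1.trans hd)
  have h4 := Nat.le_of_dvd hT0 h3
  have h5 := (Nat.cast_le (α := ℝ)).2 h4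
  exact absurd (hfz.trans_le (h5.trans hT)) (lt_irrefl _)

private theorem comb (A G Ex : Finset ℕ) (F : ℕ → ℝ) (hF : ∀ m, |F m| ≤ 1)
    (h : ∀ m ∈ A, m ∉ Ex → m ∈ G ∨ F m = -1) :
    ((A.card : ℝ) + ∑ m ∈ A, F m) / 2 ≤ (G.card : ℝ) + Ex.card := by
  classical
  have h1 : ∑ m ∈ A, (1 + F m) / 2 ≤
      ∑ m ∈ A, ((if m ∈ G then (1 : ℝ) else 0) + if m ∈ Ex then (1 : ℝ) else 0) := by
    refine sum_le_sum fun m hm => ?_
    have hm1 := abs_le.1 (hF m)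
    by_cases h2 : m ∈ Ex
    · rw [if_pos h2]
      split_ifs <;> linarith
    · rw [if_neg h2]
      rcases h m hm h2 with h3 | h3
      · rw [if_pos h3]; linarith
      · rw [h3]; split_ifs <;> norm_num
  have h2 : ∑ m ∈ A, (1 + F m) / 2 = ((A.card : ℝ) + ∑ m ∈ A, F m) / 2 := by
    rw [← sum_div, sum_add_distrib, sum_const, nsmul_eq_mul, mul_one]
  have h3 : ∀ H : Finset ℕ, ∑ m ∈ A, (if m ∈ H then (1 : ℝ) else 0) ≤ H.card := by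
    intro H
    rw [sum_boole]
    exact_mod_cast card_le_card (fun m hm => (mem_filter.1 hm).2)
  rw [sum_add_distrib] at h1
  linarith [h3 G, h3 Ex]

private theorem fin_ineq {X V E Q2 R ell cA S cE cG D Y : ℝ} (hX : 0 ≤ X) (hE : 0 ≤ E) (hV : E ≤ V)
    (hQ2 : 0 ≤ Q2)
    (h1 : (1 - 1 / 32) * X * V - Q2 ≤ cA)
    (h2 : |S| ≤ Q2 * (2 * R) + 2 * (1 / 32) * X * V + 2 * Q2)
    (h3 : cE ≤ 2 * ell * (Y + 1)) (hY : 2 * ell * Y = X * D) (hD : D ≤ E / 32)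
    (h4 : (cA + S) / 2 ≤ cG + cE) :
    (1 / 4) * X * E - Q2 * (2 + R) - 2 * ell ≤ cG := by
  have h5 := (abs_le.1 h2).1
  have h6 : X * E ≤ X * V := mul_le_mul_of_nonneg_left hV hX
  have h7 : X * D ≤ X * (E / 32) := mul_le_mul_of_nonneg_left hD hX
  have h8 : 0 ≤ X * E := mul_nonneg hX hE
  nlinarith

theorem caseB2 {e N z M Z0 f k : ℕ} (he : e ≤ 1) (hN : Odd N) (hZ2 : 2 ≤ Z0) (hz : Z0 ≤ z)
    (hwv : WV Z0 z) (hf : Squarefree f) (hNf : N = f * k ^ 2)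
    (hfz : (z : ℝ) ^ 26 < ((∏ p ∈ f.primeFactors.filter (fun p => Z0 < p), p : ℕ) : ℝ))
    (hbr : 2 * Real.log N / z ≤ Real.exp (-2) / (32 * (Real.log z) ^ 2)) :
    (1 / 4) * ((M : ℝ) / ((∏ p ∈ pr Z0, p : ℕ) : ℝ)) * (Real.exp (-2) / (Real.log z) ^ 2) -
        (z : ℝ) ^ 26 * (1 + 26 * Real.log z) * (2 + Real.sqrt N * (1 + Real.log N)) - 2 * Real.log N ≤
      ((good e N z M).card : ℝ) := by
  classical
  have hN0 : 0 < N := hN.pos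
  have hfN : f ∣ N := ⟨k ^ 2, hNf⟩
  have hfo : Odd f := hN.of_dvd_nat hfN
  have hfle : f ≤ N := Nat.le_of_dvd hN0 hfN
  have hf0 : 0 < f := hfo.pos
  have hz2 : 2 ≤ z := hZ2.trans hz
  obtain ⟨a, ha⟩ := small_class he hN (pr Z0) (fun p hp => pr_prime hp)
  obtain ⟨P, hP, hPc⟩ : ∃ P : Finset ℕ, (∀ p ∈ P, p.Prime ∧ Z0 < p ∧ p ≤ z) ∧
      ∀ p, p.Prime → p ≤ z → p ∈ pr Z0 ∨ p ∈ P := by
    refine ⟨(range (z + 1)).filter (fun p => p.Prime ∧ Z0 < p), ?_, ?_⟩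
    · intro p hp
      have h1 := mem_filter.1 hp
      exact ⟨h1.2.1, h1.2.2, Nat.lt_succ_iff.1 (mem_range.1 h1.1)⟩
    · intro p hp hpz
      by_cases h : Z0 < p
      · exact Or.inr (mem_filter.2 ⟨mem_range.2 (Nat.lt_succ_iff.2 hpz), hp, h⟩)
      · exact Or.inl (mem_filter.2 ⟨mem_range.2 (Nat.lt_succ_iff.2 (not_lt.1 h)), hp⟩)
  have hPp : ∀ p ∈ P, p.Prime := fun p hp => (hP p hp).1
  have hPW : ∀ p ∈ P, ¬ p ∣ ∏ q ∈ pr Z0, q := fun p hp => not_dvd_W (hP p hp).1 (hP p hp).2.1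
  have hB : ∀ p ∈ P, BB e N p ⊆ range p := fun p _ => bb_sub e N p
  have hB2 : ∀ p ∈ P, (BB e N p).card ≤ 2 := fun p hp =>
    bb_card he (hP p hp).1 (by have := (hP p hp).2.1; omega)
  obtain ⟨⟨lp, lm, hw⟩, hV⟩ := hwv (BB e N) P hP hB2
  have hzr : (1 : ℝ) ≤ z := by exact_mod_cast (by omega : 1 ≤ z)
  have hQ : (1 : ℝ) ≤ (z : ℝ) ^ 26 := one_le_pow₀ hzr
  have hlow := sieve_lower2 (M := M) a (W_pos Z0) hPp hPW hB hB2 hQ hw
  have hF1 : ∀ m : ℕ, |((jacobiSym (m : ℤ) f : ℤ) : ℝ)| ≤ 1 := by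
    intro m
    rcases jacobiSym.trichotomy (m : ℤ) f with h | h | h <;> rw [h] <;> norm_num
  have hlN : 0 ≤ Real.log N := Real.log_natCast_nonneg N
  have hlf : Real.log f ≤ Real.log N :=
    Real.log_le_log (by exact_mod_cast hf0) (by exact_mod_cast hfle)
  have hlf0 : 0 ≤ Real.log f := Real.log_natCast_nonneg f
  have hsf : Real.sqrt f ≤ Real.sqrt N := Real.sqrt_le_sqrt (by exact_mod_cast hfle)
  have hBd0 : 0 ≤ 2 * (Real.sqrt N * (1 + Real.log N)) := by positivity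
  have hBf : 2 * Real.sqrt f * (1 + Real.log f) ≤ 2 * (Real.sqrt N * (1 + Real.log N)) := by
    rw [mul_assoc]
    refine mul_le_mul_of_nonneg_left ?_ (by norm_num)
    exact mul_le_mul hsf (by linarith) (by linarith) (Real.sqrt_nonneg _)
  have hcl : ∀ T, T ⊆ P → ((∏ p ∈ T, p : ℕ) : ℝ) ≤ (z : ℝ) ^ 26 →
      ∀ c, |∑ m ∈ cl M ((∏ p ∈ pr Z0, p) * ∏ p ∈ T, p) c, ((jacobiSym (m : ℤ) f : ℤ) : ℝ)| ≤
        2 * (Real.sqrt N * (1 + Real.log N)) := by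
    intro T hTP hTQ c
    have hT0 : 0 < ∏ p ∈ T, p := Finset.prod_pos fun p hp => (hPp p (hTP hp)).pos
    exact (class_sum hfo hf (Nat.mul_pos (W_pos Z0) hT0) (f_not_dvd hf T hT0 hfz hTQ) M c).trans hBf
  have hsum := sieve_sum2 (M := M) a (W_pos Z0) hPp hPW hB hB2 hQ hw
    (F := fun m => ((jacobiSym (m : ℤ) f : ℤ) : ℝ)) hF1 hBd0 hcl
  obtain ⟨Ex, hEx, hExm⟩ : ∃ Ex : Finset ℕ,
      (Ex.card : ℝ) ≤ 2 * Real.log N * ((M : ℝ) / (((∏ p ∈ pr Z0, p : ℕ) : ℝ) * z) + 1) ∧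
      ∀ m ∈ cl M (∏ p ∈ pr Z0, p) a,
        (∃ p, p.Prime ∧ z < p ∧ p ∣ N ∧ ¬ p ∣ (∏ p ∈ pr Z0, p) ∧ p ∣ m) → m ∈ Ex :=
    ⟨_, exc_le hN0 (by omega) (W_pos Z0), fun m hm h => mem_filter.2 ⟨hm, h⟩⟩
  have hcomb := comb (sft (BB e N) P M (∏ p ∈ pr Z0, p) a) (good e N z M) Ex
    (fun m => ((jacobiSym (m : ℤ) f : ℤ) : ℝ)) hF1 (by
      intro m hm hmE
      obtain ⟨g1, _, g3⟩ := sft_good (fun p hp => pr_prime hp) hPp hPc ha hm
      have hmc := (mem_filter.1 hm).1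
      have hcop := g3 (fun h => hmE (hExm m hmc h))
      have hj := jac_eq hNf hcop hN0
      have hcop' : Int.gcd (m : ℤ) (N : ℤ) = 1 := by
        rw [Int.gcd_natCast_natCast]; exact hcop
      rcases jacobiSym.eq_one_or_neg_one hcop' with h | h
      · exact Or.inl (mem_filter.2 ⟨(mem_filter.1 hmc).1, g1, h⟩)
      · right
        show ((jacobiSym (m : ℤ) f : ℤ) : ℝ) = -1
        rw [← hj, h]
        norm_num)
  have hz0 : (0 : ℝ) < z := lt_of_lt_of_le one_pos hzr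
  have hlz : 0 < Real.log z := Real.log_pos (by exact_mod_cast (by omega : 1 < z))
  have hW0 : (0 : ℝ) < ((∏ p ∈ pr Z0, p : ℕ) : ℝ) := Nat.cast_pos.2 (W_pos Z0)
  have hpow : (z : ℝ) ^ 26 * (1 + 26 * Real.log z) = (z : ℝ) ^ 26 * (1 + Real.log ((z : ℝ) ^ 26)) := by
    rw [Real.log_pow]
    norm_num
  have hlQ : 0 ≤ Real.log ((z : ℝ) ^ 26) := Real.log_nonneg hQ
  rw [hpow]
  refine fin_ineq (V := ∏ p ∈ P, (1 - ((BB e N p).card : ℝ) / p)) (D := 2 * Real.log N / z)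
    (Y := (M : ℝ) / (((∏ p ∈ pr Z0, p : ℕ) : ℝ) * z)) (div_nonneg (Nat.cast_nonneg _) hW0.le)
    (by positivity) hV (by positivity) hlow hsum hEx ?_ ?_ hcomb
  · rw [← div_div]
    ring
  · refine hbr.trans (le_of_eq ?_)
    rw [div_div, mul_comm]

end Pool.Agent.H.MP_0ec261_nt.AP
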