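import Pool.Agent.H.MP_0ec261_nt.AP.SvB
import Pool.Agent.H.MP_0ec261_nt.AP.Cop

/-!
Case A: the part `f1` of `f` composed of the primes `> Z0` is at most `z^26`.

PROOF. `S = pr Z0 ∪ f.primeFactors`, `W = ∏_S p = W0 f1` (`W0 = ∏ p ∈ pr Z0, p`), `a` from small_class, `P` = the primes `p ≤ z`,
`Z0 < p`, `p ∤ f`, `B = BB e N`, `Q = z^26`, `δ = 1/32` (hypothesis hwv). Every `m ∈ sft` which is not exceptional (exc_le) is in `good`:
sft_good, jac_eq, jac_one (`m ≡ a ≡ 1` modulo the primes of `f`, which divide `N`). With `X = M / W ≥ M / (W0 z^26)`: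
`card ≥ (31/32) X V - z^52 - 2 log N (X / z + 1)`, `V ≥ exp (-2) / (log z)^2` (hwv), `2 log N / z ≤ exp (-2) / (32 (log z)^2)`;
so `card ≥ (30/32) X exp (-2) / (log z)^2 - z^52 - 2 log N`.
-/

set_option autoImplicit false

namespace Pool.Agent.H.MP_0ec261_nt.AP

open Finset

private theorem CaseA_prod {Z0 f : ℕ} :
    ∏ p ∈ pr Z0 ∪ f.primeFactors, p =
      (∏ p ∈ pr Z0, p) * ∏ p ∈ f.primeFactors.filter (fun p => Z0 < p), p := by
  have h1 : pr Z0 ∪ f.primeFactors = pr Z0 ∪ f.primeFactors.filter (fun p => Z0 < p) := by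
    ext p
    simp only [pr, mem_union, mem_filter, mem_range]
    constructor
    · rintro (h | h)
      · exact Or.inl h
      · by_cases hp : Z0 < p
        · exact Or.inr ⟨h, hp⟩
        · exact Or.inl ⟨by omega, Nat.prime_of_mem_primeFactors h⟩
    · rintro (h | h)
      · exact Or.inl h
      · exact Or.inr h.1
  have h2 : Disjoint (pr Z0) (f.primeFactors.filter (fun p => Z0 < p)) := by
    rw [Finset.disjoint_left]
    intro p hp hp'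
    simp only [pr, mem_filter, mem_range] at hp hp'
    omega
  rw [h1, Finset.prod_union h2]

theorem caseA {e N z M Z0 f k : ℕ} (he : e ≤ 1) (hN : Odd N) (hZ2 : 2 ≤ Z0) (hz : Z0 ≤ z)
    (hwv : WV Z0 z) (hf : Squarefree f) (hNf : N = f * k ^ 2)
    (hfz : ((∏ p ∈ f.primeFactors.filter (fun p => Z0 < p), p : ℕ) : ℝ) ≤ (z : ℝ) ^ 26)
    (hbr : 2 * Real.log N / z ≤ Real.exp (-2) / (32 * (Real.log z) ^ 2)) :
    (1 / 2) * ((M : ℝ) / (((∏ p ∈ pr Z0, p : ℕ) : ℝ) * (z : ℝ) ^ 26)) *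
        (Real.exp (-2) / (Real.log z) ^ 2) - (z : ℝ) ^ 52 - 2 * Real.log N ≤
      ((good e N z M).card : ℝ) := by
  classical
  have hN0 : 0 < N := hN.pos
  have hf0 : f ≠ 0 := by
    rintro rfl
    rw [zero_mul] at hNf
    omega
  have hfN : f ∣ N := ⟨k ^ 2, hNf⟩
  obtain ⟨S, hSdef⟩ : ∃ S : Finset ℕ, S = pr Z0 ∪ f.primeFactors := ⟨_, rfl⟩
  have hmS : ∀ p, p ∈ S ↔ (p ≤ Z0 ∧ p.Prime) ∨ p ∈ f.primeFactors := by
    intro p
    rw [hSdef]
    simp only [pr, mem_union, mem_filter, mem_range]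
    constructor
    · rintro (h | h)
      · exact Or.inl ⟨by omega, h.2⟩
      · exact Or.inr h
    · rintro (h | h)
      · exact Or.inl ⟨by omega, h.2⟩
      · exact Or.inr h
  have hS : ∀ p ∈ S, p.Prime := by
    intro p hp
    rcases (hmS p).1 hp with h | h
    · exact h.2
    · exact Nat.prime_of_mem_primeFactors h
  obtain ⟨a, ha⟩ := small_class he hN S hS
  obtain ⟨P, hPdef⟩ : ∃ P : Finset ℕ,
      P = (range (z + 1)).filter (fun p => p.Prime ∧ Z0 < p ∧ ¬ p ∣ f) := ⟨_, rfl⟩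
  have hmP : ∀ p, p ∈ P ↔ p ≤ z ∧ p.Prime ∧ Z0 < p ∧ ¬ p ∣ f := by
    intro p
    rw [hPdef, mem_filter, mem_range]
    constructor
    · rintro ⟨h1, h2⟩
      exact ⟨by omega, h2⟩
    · rintro ⟨h1, h2⟩
      exact ⟨by omega, h2⟩
  have hPp : ∀ p ∈ P, p.Prime := fun p hp => ((hmP p).1 hp).2.1
  have hB2 : ∀ p ∈ P, (BB e N p).card ≤ 2 := by
    intro p hp
    obtain ⟨-, h2, h3, -⟩ := (hmP p).1 hp
    exact bb_card he h2 (by omega)
  obtain ⟨⟨lp, lm, hw⟩, hV⟩ := hwv (BB e N) P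
    (fun p hp => ⟨((hmP p).1 hp).2.1, ((hmP p).1 hp).2.2.1, ((hmP p).1 hp).1⟩) hB2
  obtain ⟨W, hWdef⟩ : ∃ W : ℕ, W = ∏ p ∈ S, p := ⟨_, rfl⟩
  have hW : 0 < W := by
    rw [hWdef]
    exact Finset.prod_pos fun p hp => (hS p hp).pos
  have hPW : ∀ p ∈ P, ¬ p ∣ W := by
    intro p hp hd
    obtain ⟨h1, h2, h3, h4⟩ := (hmP p).1 hp
    rw [hWdef] at hd
    obtain ⟨q, hq, hpq⟩ := (h2.prime.dvd_finsetProd_iff _).1 hd
    have h5 : p = q := (Nat.prime_dvd_prime_iff_eq h2 (hS q hq)).1 hpq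
    subst h5
    rcases (hmS p).1 hq with h | h
    · omega
    · exact h4 (Nat.dvd_of_mem_primeFactors h)
  have hz2 : 2 ≤ z := hZ2.trans hz
  have hzR : (2 : ℝ) ≤ z := by exact_mod_cast hz2
  have hz1 : (1 : ℝ) ≤ z := by linarith
  have hQ : (1 : ℝ) ≤ (z : ℝ) ^ 26 := one_le_pow₀ hz1
  have hlow := sieve_lower (M := M) a hW hPp hPW (fun p _ => bb_sub e N p) hB2 hQ hw
  have hcov : ∀ p, p.Prime → p ≤ z → p ∈ S ∨ p ∈ P := by
    intro p hp hpz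
    by_cases h1 : p ≤ Z0
    · exact Or.inl ((hmS p).2 (Or.inl ⟨h1, hp⟩))
    · by_cases h2 : p ∣ f
      · exact Or.inl ((hmS p).2 (Or.inr (Nat.mem_primeFactors.2 ⟨hp, h2, hf0⟩)))
      · exact Or.inr ((hmP p).2 ⟨hpz, hp, by omega, h2⟩)
  obtain ⟨E, hE⟩ : ∃ E : Finset ℕ, E = (cl M W a).filter
      (fun m => ∃ p, p.Prime ∧ z < p ∧ p ∣ N ∧ ¬ p ∣ W ∧ p ∣ m) := ⟨_, rfl⟩
  have hEc : (E.card : ℝ) ≤ 2 * Real.log N * ((M : ℝ) / (W * z) + 1) := by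
    rw [hE]
    convert exc_le (M := M) (a := a) hN0 (by omega : 1 ≤ z) hW using 1
  have hsub : sft (BB e N) P M W a ⊆ good e N z M ∪ E := by
    intro m hm
    rw [hWdef] at hm
    obtain ⟨g1, g2, g3⟩ := sft_good hS hPp hcov ha hm
    rw [← hWdef] at hm g3
    have hcl : m ∈ cl M W a := (mem_filter.1 hm).1
    have hI : m ∈ Icc 1 M := (mem_filter.1 hcl).1
    rw [mem_union]
    by_cases hex : ∃ p, p.Prime ∧ z < p ∧ p ∣ N ∧ ¬ p ∣ W ∧ p ∣ m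
    · right
      rw [hE, mem_filter]
      exact ⟨hcl, hex⟩
    · left
      unfold good
      rw [mem_filter]
      refine ⟨hI, g1, ?_⟩
      rw [jac_eq hNf (g3 hex) hN0]
      refine jac_one hf fun p hp hpf => ?_
      have hpS : p ∈ S := (hmS p).2 (Or.inr (Nat.mem_primeFactors.2 ⟨hp, hpf, hf0⟩))
      exact (g2 p hpS).trans ((ha p hpS).2 (hpf.trans hfN))
  have hcard : ((sft (BB e N) P M W a).card : ℝ) ≤ (good e N z M).card + E.card := by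
    have h1 := (Finset.card_le_card hsub).trans (Finset.card_union_le _ _)
    exact_mod_cast h1
  obtain ⟨V, hVdef⟩ : ∃ V : ℝ, V = ∏ p ∈ P, (1 - ((BB e N p).card : ℝ) / p) := ⟨_, rfl⟩
  rw [← hVdef] at hV hlow
  obtain ⟨X, hX⟩ : ∃ X : ℝ, X = (M : ℝ) / W := ⟨_, rfl⟩
  rw [← hX] at hlow
  have hWR : (0 : ℝ) < W := by exact_mod_cast hW
  have hX0 : 0 ≤ X := by
    rw [hX]
    positivity
  have hMW : (M : ℝ) / (W * z) = X / z := by
    rw [hX, div_div]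
  rw [hMW] at hEc
  have hW0 : 0 < ∏ p ∈ pr Z0, p := by
    refine Finset.prod_pos fun p hp => ?_
    exact ((mem_filter.1 hp).2).pos
  have hW0R : (0 : ℝ) < ((∏ p ∈ pr Z0, p : ℕ) : ℝ) := by exact_mod_cast hW0
  have hWle : (W : ℝ) ≤ ((∏ p ∈ pr Z0, p : ℕ) : ℝ) * (z : ℝ) ^ 26 := by
    have h1 : W = (∏ p ∈ pr Z0, p) * ∏ p ∈ f.primeFactors.filter (fun p => Z0 < p), p := by
      rw [hWdef, hSdef, CaseA_prod]
    rw [h1, Nat.cast_mul]
    exact mul_le_mul_of_nonneg_left hfz hW0R.le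
  have hXX : (M : ℝ) / (((∏ p ∈ pr Z0, p : ℕ) : ℝ) * (z : ℝ) ^ 26) ≤ X := by
    rw [hX]
    exact div_le_div_of_nonneg_left (Nat.cast_nonneg _) hWR hWle
  have hXX0 : 0 ≤ (M : ℝ) / (((∏ p ∈ pr Z0, p : ℕ) : ℝ) * (z : ℝ) ^ 26) := by positivity
  obtain ⟨X', hX'⟩ : ∃ X' : ℝ, X' = (M : ℝ) / (((∏ p ∈ pr Z0, p : ℕ) : ℝ) * (z : ℝ) ^ 26) :=
    ⟨_, rfl⟩
  rw [← hX'] at hXX hXX0 ⊢
  obtain ⟨D, hD⟩ : ∃ D : ℝ, D = Real.exp (-2) / (Real.log z) ^ 2 := ⟨_, rfl⟩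
  have hlz : 0 < Real.log z := Real.log_pos (by linarith)
  have hD0 : 0 < D := by
    rw [hD]
    positivity
  have hbr' : 2 * Real.log N / z ≤ D / 32 := by
    refine hbr.trans (le_of_eq ?_)
    rw [hD, div_div, mul_comm (32 : ℝ)]
  rw [← hD] at hV ⊢
  have k1 : X * D ≤ X * V := mul_le_mul_of_nonneg_left hV hX0
  have k2 : X * (2 * Real.log N / z) ≤ X * (D / 32) := mul_le_mul_of_nonneg_left hbr' hX0
  have k3 : X' * D ≤ X * D := mul_le_mul_of_nonneg_right hXX hD0.le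
  have k4 : 0 ≤ X' * D := mul_nonneg hXX0 hD0.le
  have k5 : 2 * Real.log N * (X / z + 1) = X * (2 * Real.log N / z) + 2 * Real.log N := by
    ring
  have k6 : ((z : ℝ) ^ 26) ^ 2 = (z : ℝ) ^ 52 := by ring
  rw [k5] at hEc
  rw [k6] at hlow
  have k7 : (1 - 1 / 32) * X * V = (31 / 32) * (X * V) := by ring
  rw [k7] at hlow
  have k8 : (1 / 2) * X' * D = (1 / 2) * (X' * D) := by ring
  rw [k8]
  linarith

end Pool.Agent.H.MP_0ec261_nt.AP
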