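import Pool.Agent.H.MP_0ec261_nt.AP.Defs

/-!
Elementary counting.

PROOF of cl_card: the number of `m ∈ [1, M]` with `m ≡ c mod D` (`Nat.Ioc_filter_modEq_card` or
`Nat.count_modEq_card`) is within `1` of `M / D`.

PROOF of exc_le: union over the primes `p ∣ N`, `p > z`, `p ∤ W` (at most `log N / log 2 ≤ 2 log N` of them: the
product of the prime factors of `N` is `≤ N` and each is `≥ 2`); for each, `m ≡ a mod W` and `m ≡ 0 mod p` is one class
modulo `W p` (or use the injection), with at most `M / (W p) + 1 ≤ M / (W z) + 1` elements by cl_card.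
-/

set_option autoImplicit false

namespace Pool.Agent.H.MP_0ec261_nt.AP

open Finset

theorem cl_card (M D c : ℕ) (hD : 0 < D) : |((cl M D c).card : ℝ) - (M : ℝ) / D| ≤ 1 := by
  have h1 : cl M D c = (Ioc 0 M).filter (fun m => m ≡ c [MOD D]) := rfl
  have h2 := Nat.Ioc_filter_modEq_card 0 M hD c
  rw [← h1] at h2
  have hD' : (0 : ℚ) < D := by exact_mod_cast hD
  obtain ⟨x, hx⟩ : ∃ x : ℚ, x = ((M : ℚ) - c) / D := ⟨_, rfl⟩
  obtain ⟨y, hy⟩ : ∃ y : ℚ, y = (((0 : ℕ) : ℚ) - c) / D := ⟨_, rfl⟩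
  rw [← hx, ← hy] at h2
  have hxy : x - y = (M : ℚ) / D := by
    rw [hx, hy, ← sub_div]
    congr 1
    push_cast
    ring
  have hle : y ≤ x := by
    have h3 : (0 : ℚ) ≤ (M : ℚ) / D := by positivity
    linarith
  have hfl : ⌊y⌋ ≤ ⌊x⌋ := Int.floor_le_floor hle
  rw [max_eq_left (by omega)] at h2
  have h4 : ((cl M D c).card : ℚ) = (⌊x⌋ : ℚ) - ⌊y⌋ := by exact_mod_cast h2
  have f1 := Int.floor_le x
  have f2 := Int.lt_floor_add_one x
  have f3 := Int.floor_le y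
  have f4 := Int.lt_floor_add_one y
  have h5 : |((cl M D c).card : ℚ) - (M : ℚ) / D| ≤ 1 := by
    rw [h4, ← hxy, abs_le]
    constructor <;> linarith
  have h6 := (Rat.cast_le (K := ℝ)).2 h5
  push_cast at h6
  exact h6

private theorem Cnt_primes {N : ℕ} (hN : 0 < N) :
    (N.primeFactors.card : ℝ) ≤ 2 * Real.log N := by
  have h1 : ∏ p ∈ N.primeFactors, p ≤ N := Nat.le_of_dvd hN (Nat.prod_primeFactors_dvd N)
  have h2 : 2 ^ N.primeFactors.card ≤ ∏ p ∈ N.primeFactors, p :=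
    Finset.pow_card_le_prod _ _ _ fun p hp => (Nat.prime_of_mem_primeFactors hp).two_le
  have h3 : ((2 : ℝ) ^ N.primeFactors.card) ≤ N := by exact_mod_cast h2.trans h1
  have h4 := Real.log_le_log (by positivity) h3
  rw [Real.log_pow] at h4
  have h5 := Real.log_two_gt_d9
  have h6 : (0 : ℝ) ≤ N.primeFactors.card := Nat.cast_nonneg _
  nlinarith

open Classical in
private theorem Cnt_one {z M W a p : ℕ} (hz : 1 ≤ z) (hW : 0 < W) (hp : p.Prime) (hzp : z < p)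
    (hpW : ¬ p ∣ W) :
    (((cl M W a).filter (fun m => p ∣ m)).card : ℝ) ≤ (M : ℝ) / (W * z) + 1 := by
  have h0 : (0 : ℝ) ≤ (M : ℝ) / (W * z) := by positivity
  rcases ((cl M W a).filter (fun m => p ∣ m)).eq_empty_or_nonempty with h1 | ⟨m0, hm0⟩
  · rw [h1, card_empty, Nat.cast_zero]
    linarith
  · have hm0' := mem_filter.1 hm0
    have hcop : W.Coprime p := ((Nat.Prime.coprime_iff_not_dvd hp).2 hpW).symm
    have hsub : (cl M W a).filter (fun m => p ∣ m) ⊆ cl M (W * p) m0 := by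
      intro m hm
      have hm' := mem_filter.1 hm
      have e1 := mem_filter.1 hm'.1
      have e2 := mem_filter.1 hm0'.1
      refine mem_filter.2 ⟨e1.1, ?_⟩
      refine (Nat.modEq_and_modEq_iff_modEq_mul hcop).1 ⟨e1.2.trans e2.2.symm, ?_⟩
      exact ((Nat.modEq_zero_iff_dvd).2 hm'.2).trans ((Nat.modEq_zero_iff_dvd).2 hm0'.2).symm
    have h2 : (((cl M W a).filter (fun m => p ∣ m)).card : ℝ) ≤ ((cl M (W * p) m0).card : ℝ) := by
      exact_mod_cast card_le_card hsub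
    have h3 := cl_card M (W * p) m0 (Nat.mul_pos hW hp.pos)
    have h4 := (abs_le.1 h3).2
    have hW' : (0 : ℝ) < W := by exact_mod_cast hW
    have hz' : (0 : ℝ) < z := by exact_mod_cast hz
    have hzp' : (z : ℝ) ≤ p := by exact_mod_cast hzp.le
    have h5 : (M : ℝ) / ((W * p : ℕ) : ℝ) ≤ (M : ℝ) / (W * z) := by
      push_cast
      gcongr
    linarith

open Classical in
theorem exc_le {N z M W a : ℕ} (hN : 0 < N) (hz : 1 ≤ z) (hW : 0 < W) :
    (((cl M W a).filter (fun m => ∃ p, p.Prime ∧ z < p ∧ p ∣ N ∧ ¬ p ∣ W ∧ p ∣ m)).card : ℝ) ≤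
      2 * Real.log N * ((M : ℝ) / (W * z) + 1) := by
  obtain ⟨E, hE⟩ : ∃ E, E = N.primeFactors.filter fun p => z < p ∧ ¬ p ∣ W := ⟨_, rfl⟩
  have hsub : (cl M W a).filter (fun m => ∃ p, p.Prime ∧ z < p ∧ p ∣ N ∧ ¬ p ∣ W ∧ p ∣ m) ⊆
      E.biUnion fun p => (cl M W a).filter fun m => p ∣ m := by
    intro m hm
    obtain ⟨h1, p, h2, h3, h4, h5, h6⟩ := mem_filter.1 hm
    rw [hE]
    refine mem_biUnion.2 ⟨p, mem_filter.2 ⟨?_, h3, h5⟩, mem_filter.2 ⟨h1, h6⟩⟩
    exact Nat.mem_primeFactors.2 ⟨h2, h4, hN.ne'⟩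
  have h1 : (((cl M W a).filter
      (fun m => ∃ p, p.Prime ∧ z < p ∧ p ∣ N ∧ ¬ p ∣ W ∧ p ∣ m)).card : ℝ) ≤
      ∑ p ∈ E, (((cl M W a).filter fun m => p ∣ m).card : ℝ) := by
    exact_mod_cast (card_le_card hsub).trans card_biUnion_le
  have h2 : ∑ p ∈ E, (((cl M W a).filter fun m => p ∣ m).card : ℝ) ≤
      ∑ _p ∈ E, ((M : ℝ) / (W * z) + 1) := by
    refine sum_le_sum fun p hp => ?_
    rw [hE] at hp
    obtain ⟨h3, h4, h5⟩ := mem_filter.1 hp
    exact Cnt_one hz hW (Nat.prime_of_mem_primeFactors h3) h4 h5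
  rw [sum_const, nsmul_eq_mul] at h2
  have h3 : (E.card : ℝ) ≤ 2 * Real.log N := by
    refine le_trans ?_ (Cnt_primes hN)
    rw [hE]
    exact_mod_cast card_filter_le _ _
  have h4 : (0 : ℝ) ≤ (M : ℝ) / (W * z) + 1 := by positivity
  exact h1.trans (h2.trans (mul_le_mul_of_nonneg_right h3 h4))

end Pool.Agent.H.MP_0ec261_nt.AP
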