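import Pool.Agent.H.MP_0ec261_nt.AP.Defs

/-!
PROOF of crt_sum. Induction on `T`, for all `W`, `a` (generalise; the bad classes `B p ⊆ range p`).
`T = ∅`: the hypothesis for `c = a`. Step `T = insert q T'`: `ind B q m = ∑_{b ∈ B q} [m ≡ b mod q]`
(`B q ⊆ range q`), and for `b ∈ B q` let `a'` be the solution of `a' ≡ a mod W`, `a' ≡ b mod q`
(`Nat.chineseRemainder`); `m ≡ a mod W` and `m ≡ b mod q` iff `m ≡ a' mod W q`. So the sum is the sum over
`b ∈ B q` of the sums for `T'`, `W q`, `a'`; the primes of `T'` do not divide `W q`, and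
`(W q) ∏_{T'} p = W ∏_T p`. Add the estimates of the induction hypothesis (`(B q).card` of them).
-/

set_option autoImplicit false

namespace Pool.Agent.H.MP_0ec261_nt.AP

open Finset

private theorem Crt_cl (M : ℕ) {W q a b a' : ℕ} (hWq : Nat.Coprime W q) (hb : b < q)
    (h1 : a' ≡ a [MOD W]) (h2 : a' ≡ b [MOD q]) :
    (cl M W a).filter (fun m => m % q = b) = cl M (W * q) a' := by
  unfold cl
  rw [Finset.filter_filter]
  refine Finset.filter_congr fun m _ => ?_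
  rw [← Nat.modEq_and_modEq_iff_modEq_mul hWq]
  have hb' : m % q = b ↔ m ≡ b [MOD q] := by
    unfold Nat.ModEq
    rw [Nat.mod_eq_of_lt hb]
  rw [hb']
  constructor
  · rintro ⟨h3, h4⟩
    exact ⟨h3.trans h1.symm, h4.trans h2.symm⟩
  · rintro ⟨h3, h4⟩
    exact ⟨h3.trans h1, h4.trans h2⟩

private theorem Crt_ind (B : ℕ → Finset ℕ) (q m : ℕ) :
    ind B q m = ∑ b ∈ B q, if m % q = b then (1 : ℝ) else 0 := by
  unfold ind
  rw [Finset.sum_ite_eq]

private theorem Crt_aux (F : ℕ → ℝ) (B : ℕ → Finset ℕ) (M : ℕ) (T : Finset ℕ) :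
    (∀ p ∈ T, p.Prime) → (∀ p ∈ T, B p ⊆ range p) → ∀ {W : ℕ} (a : ℕ), 0 < W →
    (∀ p ∈ T, ¬ p ∣ W) → ∀ {μ Bd : ℝ},
    (∀ c, |∑ m ∈ cl M (W * ∏ p ∈ T, p) c, F m - μ| ≤ Bd) →
    |∑ m ∈ cl M W a, F m * ∏ p ∈ T, ind B p m - (∏ p ∈ T, ((B p).card : ℝ)) * μ| ≤
      (∏ p ∈ T, ((B p).card : ℝ)) * Bd := by
  classical
  induction T using Finset.induction_on with
  | empty =>
    intro _ _ W a _ _ μ Bd h
    have h1 := h a
    simpa using h1
  | insert q T' hq ih =>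
    intro hT hB W a hW hTW μ Bd h
    have hqp : q.Prime := hT q (Finset.mem_insert_self q T')
    have hqW : ¬ q ∣ W := hTW q (Finset.mem_insert_self q T')
    have hcop : Nat.Coprime W q := ((Nat.Prime.coprime_iff_not_dvd hqp).2 hqW).symm
    have hBq : ∀ b ∈ B q, b < q := fun b hb =>
      Finset.mem_range.1 (hB q (Finset.mem_insert_self q T') hb)
    have hex : ∀ b : ℕ, ∃ a' : ℕ, a' ≡ a [MOD W] ∧ a' ≡ b [MOD q] := fun b =>
      ⟨(Nat.chineseRemainder hcop a b).1, (Nat.chineseRemainder hcop a b).2⟩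
    choose a' ha1 ha2 using hex
    have hih : ∀ b, |∑ m ∈ cl M (W * q) (a' b), F m * ∏ p ∈ T', ind B p m -
        (∏ p ∈ T', ((B p).card : ℝ)) * μ| ≤ (∏ p ∈ T', ((B p).card : ℝ)) * Bd := by
      intro b
      refine ih (fun p hp => hT p (Finset.mem_insert_of_mem hp))
        (fun p hp => hB p (Finset.mem_insert_of_mem hp)) (a' b) (Nat.mul_pos hW hqp.pos) ?_ ?_
      · intro p hp hd
        have hpp := hT p (Finset.mem_insert_of_mem hp)
        rcases (Nat.Prime.dvd_mul hpp).1 hd with h3 | h3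
        · exact hTW p (Finset.mem_insert_of_mem hp) h3
        · have h4 := (Nat.prime_dvd_prime_iff_eq hpp hqp).1 h3
          rw [h4] at hp
          exact hq hp
      · intro c
        have h3 := h c
        rw [Finset.prod_insert hq, ← mul_assoc] at h3
        exact h3
    have hsum : ∑ m ∈ cl M W a, F m * ∏ p ∈ insert q T', ind B p m =
        ∑ b ∈ B q, ∑ m ∈ cl M (W * q) (a' b), F m * ∏ p ∈ T', ind B p m := by
      have h5 : ∀ m ∈ cl M W a, F m * ∏ p ∈ insert q T', ind B p m =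
          ∑ b ∈ B q, if m % q = b then F m * ∏ p ∈ T', ind B p m else 0 := by
        intro m _
        rw [Finset.prod_insert hq, Crt_ind, Finset.sum_mul, Finset.mul_sum]
        refine Finset.sum_congr rfl fun b _ => ?_
        split_ifs
        · rw [one_mul]
        · rw [zero_mul, mul_zero]
      rw [Finset.sum_congr rfl h5, Finset.sum_comm]
      refine Finset.sum_congr rfl fun b hb => ?_
      rw [← Finset.sum_filter, Crt_cl M hcop (hBq b hb) (ha1 b) (ha2 b)]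
    rw [hsum, Finset.prod_insert hq]
    have h6 : ∑ b ∈ B q, ∑ m ∈ cl M (W * q) (a' b), F m * ∏ p ∈ T', ind B p m -
        ((B q).card : ℝ) * (∏ p ∈ T', ((B p).card : ℝ)) * μ =
        ∑ b ∈ B q, (∑ m ∈ cl M (W * q) (a' b), F m * ∏ p ∈ T', ind B p m -
          (∏ p ∈ T', ((B p).card : ℝ)) * μ) := by
      rw [Finset.sum_sub_distrib, Finset.sum_const, nsmul_eq_mul]
      ring
    rw [h6]
    refine (Finset.abs_sum_le_sum_abs _ _).trans ?_
    refine (Finset.sum_le_sum fun b _ => hih b).trans ?_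
    rw [Finset.sum_const, nsmul_eq_mul, mul_assoc]

theorem crt_sum (F : ℕ → ℝ) (B : ℕ → Finset ℕ) (M : ℕ) (T : Finset ℕ) (hT : ∀ p ∈ T, p.Prime)
    (hB : ∀ p ∈ T, B p ⊆ range p) {W : ℕ} (a : ℕ) (hW : 0 < W) (hTW : ∀ p ∈ T, ¬ p ∣ W)
    {μ Bd : ℝ} (h : ∀ c, |∑ m ∈ cl M (W * ∏ p ∈ T, p) c, F m - μ| ≤ Bd) :
    |∑ m ∈ cl M W a, F m * ∏ p ∈ T, ind B p m - (∏ p ∈ T, ((B p).card : ℝ)) * μ| ≤
      (∏ p ∈ T, ((B p).card : ℝ)) * Bd :=
  Crt_aux F B M T hT hB a hW hTW h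

end Pool.Agent.H.MP_0ec261_nt.AP
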