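import Mathlib

/-!
Almost prime representations with the symbol condition: definitions.
-/

set_option autoImplicit false

namespace Pool.Agent.H.MP_0ec261_nt.AP

open Finset

/-- the indicator of the bad classes modulo `p` -/
noncomputable def ind (B : ℕ → Finset ℕ) (p m : ℕ) : ℝ := if m % p ∈ B p then 1 else 0

/-- the `m ∈ [1, M]` with `m ≡ a mod W` -/
def cl (M W a : ℕ) : Finset ℕ := (Icc 1 M).filter (fun m => m ≡ a [MOD W])

/-- the `m ∈ cl M W a` which are in no bad class modulo a prime of `P` -/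
def sft (B : ℕ → Finset ℕ) (P : Finset ℕ) (M W a : ℕ) : Finset ℕ :=
  (cl M W a).filter (fun m => ∀ p ∈ P, m % p ∉ B p)

/-- the first linear form: `m` for `e = 0`, `2 m - 1` for `e = 1` -/
def L1 (e m : ℕ) : ℤ := (1 + (e : ℤ)) * m - e

/-- the second linear form `N - 2 m` -/
def L2 (N m : ℕ) : ℤ := (N : ℤ) - 2 * m

/-- the roots of the product of the two forms modulo `p` -/
def BB (e N p : ℕ) : Finset ℕ := (range p).filter (fun r => (p : ℤ) ∣ L1 e r * L2 N r)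

/-- the primes up to `Z` -/
def pr (Z : ℕ) : Finset ℕ := (range (Z + 1)).filter Nat.Prime

/-- The weighted sum over the subsets of `P` (copy of `Pool.MP42e49e.ER.sw`). -/
noncomputable def sw (l : Finset ℕ → ℝ) (f : ℕ → ℝ) (P : Finset ℕ) : ℝ :=
  ∑ T ∈ P.powerset, l T * ∏ p ∈ T, f p

/-- Upper and lower sieve weights (copy of `Pool.MP42e49e.ER.Wts`). -/
structure Wts (P : Finset ℕ) (g : ℕ → ℝ) (Q δ : ℝ) (lp lm : Finset ℕ → ℝ) : Prop where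
  bp : ∀ T, |lp T| ≤ 1
  bm : ∀ T, |lm T| ≤ 1
  sp : ∀ T, T ⊆ P → lp T ≠ 0 → ((∏ p ∈ T, p : ℕ) : ℝ) ≤ Q
  sm : ∀ T, T ⊆ P → lm T ≠ 0 → ((∏ p ∈ T, p : ℕ) : ℝ) ≤ Q
  up : ∀ f : ℕ → ℝ, (∀ p ∈ P, 0 ≤ f p ∧ f p ≤ 1) → ∏ p ∈ P, (1 - f p) ≤ sw lp f P
  lo : ∀ f : ℕ → ℝ, (∀ p ∈ P, 0 ≤ f p ∧ f p ≤ 1) → sw lm f P ≤ ∏ p ∈ P, (1 - f p)
  gp : sw lp g P ≤ (1 + δ) * ∏ p ∈ P, (1 - g p)
  gm : (1 - δ) * ∏ p ∈ P, (1 - g p) ≤ sw lm g P

/-- the sieve input (proved in Vb.lean): weights of level `z^26` and a lower bound for the product -/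
def WV (Z0 z : ℕ) : Prop :=
  ∀ (B : ℕ → Finset ℕ) (P : Finset ℕ), (∀ p ∈ P, p.Prime ∧ Z0 < p ∧ p ≤ z) →
    (∀ p ∈ P, (B p).card ≤ 2) →
    (∃ lp lm, Wts P (fun p => ((B p).card : ℝ) / p) ((z : ℝ) ^ 26) (1 / 32) lp lm) ∧
      Real.exp (-2) / (Real.log z) ^ 2 ≤ ∏ p ∈ P, (1 - ((B p).card : ℝ) / p)

open Classical in
/-- the `m ∈ [1, M]` for which both forms have no prime factor `≤ z`, with symbol `(m / N) = 1` -/
noncomputable def good (e N z M : ℕ) : Finset ℕ :=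
  (Icc 1 M).filter (fun m => (∀ p, p.Prime → p ≤ z → ¬ (p : ℤ) ∣ L1 e m * L2 N m) ∧
    jacobiSym (m : ℤ) N = 1)

end Pool.Agent.H.MP_0ec261_nt.AP
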