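import Pool.Agent.H.MP_0ec261_nt.AP.FinA

/-!
PROOF of main: `z` = the largest number with `z^110 ≤ n` (`Nat.findGreatest`). `n` odd: `e = 0`, `N = n`,
`q = m`; `n` even: `e = 1`, `N = n + 1`, `q = 2 m - 1`, `(q + 1) / 2 = m`; the map `m ↦ q` is injective, and only `m = 1` gives `q = 1`.
For `m ∈ good e N z (N / 4)`, `m ≠ 1`: `2 q ≤ n`, the partner `p = n - 2 q` resp. `n - q` is `N - 2 m = L2 N m > 1` (`m ≤ N / 4`,
`N` large), `q = L1 e m`; a prime `l ∣ q p` has `l > z`, so `n < (z + 1)^110 ≤ l^110`.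
-/

set_option autoImplicit false

namespace Pool.Agent.H.MP_0ec261_nt.AP

open Finset

/-- the other summand: `n - 2 q` for odd `n`, `n - q` for even `n` -/
def prt (n q : ℕ) : ℕ := if Odd n then n - 2 * q else n - q

/-- the symbol of the problem -/
def sm (n q : ℕ) : ℤ :=
  if Odd n then jacobiSym (q : ℤ) n else jacobiSym (((q + 1) / 2 : ℕ) : ℤ) (n + 1)

private theorem Fin_mem {e N z M m : ℕ} (h : m ∈ good e N z M) :
    (1 ≤ m ∧ m ≤ M) ∧ (∀ p, p.Prime → p ≤ z → ¬ (p : ℤ) ∣ L1 e m * L2 N m) ∧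
      jacobiSym (m : ℤ) N = 1 := by
  classical
  unfold good at h
  rw [mem_filter, mem_Icc] at h
  exact h

private theorem Fin_key {z N e : ℕ} (φ : ℕ → ℕ) (hφ : ∀ a b : ℕ, 1 ≤ a → 1 ≤ b → φ a = φ b → a = b)
    (S : Set ℕ) (hS : S.Finite) (h : ∀ m ∈ good e N z (N / 4), m ≠ 1 → φ m ∈ S) :
    (good e N z (N / 4)).card ≤ S.ncard + 1 := by
  classical
  have h1 : ((good e N z (N / 4)).erase 1).card ≤ S.ncard := by
    have h2 : (((good e N z (N / 4)).erase 1).image φ).card = ((good e N z (N / 4)).erase 1).card := by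
      apply card_image_of_injOn
      intro a ha b hb hab
      have ha' := Fin_mem (mem_of_mem_erase (mem_coe.1 ha))
      have hb' := Fin_mem (mem_of_mem_erase (mem_coe.1 hb))
      exact hφ a b ha'.1.1 hb'.1.1 hab
    rw [← h2, ← Set.ncard_coe_finset]
    apply Set.ncard_le_ncard _ hS
    intro q hq
    rw [mem_coe, mem_image] at hq
    obtain ⟨m, hm, rfl⟩ := hq
    exact h m (mem_of_mem_erase hm) (ne_of_mem_erase hm)
  have h3 := pred_card_le_card_erase (s := good e N z (N / 4)) (a := 1)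
  omega

theorem main (hwv : ∀ Z0 z : ℕ, 150 ≤ Real.log Z0 → Z0 ≤ z → WV Z0 z) : ∃ n₀ : ℕ, ∀ n : ℕ, n₀ ≤ n → (n : ℝ) ^ (3 / 4 : ℝ) ≤
    (({q : ℕ | 1 < q ∧ 1 < prt n q ∧ 2 * q ≤ n ∧ sm n q = 1 ∧
      ∀ l : ℕ, l.Prime → l ∣ q * prt n q → n < l ^ 110}.ncard : ℕ) : ℝ) := by
  obtain ⟨n₁, h₁⟩ := good_lower hwv
  refine ⟨max n₁ 8, fun n hn => ?_⟩
  have hn1 : n₁ ≤ n := le_trans (le_max_left _ _) hn
  have hn8 : 8 ≤ n := le_trans (le_max_right _ _) hn
  -- the number z
  obtain ⟨z, hz1, hz2⟩ : ∃ z : ℕ, z ^ 110 ≤ n ∧ n < (z + 1) ^ 110 := by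
    refine ⟨Nat.findGreatest (fun z => z ^ 110 ≤ n) n, ?_, ?_⟩
    · have := Nat.findGreatest_spec (P := fun z => z ^ 110 ≤ n) (m := 0) (n := n) (Nat.zero_le n)
        (by simp)
      exact this
    · by_contra hcon
      rw [not_lt] at hcon
      set w := Nat.findGreatest (fun z => z ^ 110 ≤ n) n with hw
      have h3 : w + 1 ≤ n := by
        refine le_trans ?_ hcon
        exact Nat.le_self_pow (by norm_num) _
      have h4 := Nat.findGreatest_is_greatest (P := fun z => z ^ 110 ≤ n) (n := n) (k := w + 1)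
        (by omega) h3
      exact h4 hcon
  have hbig : ∀ l : ℕ, z < l → n < l ^ 110 := fun l hl =>
    lt_of_lt_of_le hz2 (Nat.pow_le_pow_left (by omega) 110)
  have hfin : ({q : ℕ | 1 < q ∧ 1 < prt n q ∧ 2 * q ≤ n ∧ sm n q = 1 ∧
      ∀ l : ℕ, l.Prime → l ∣ q * prt n q → n < l ^ 110}).Finite := by
    apply Set.Finite.subset (Set.finite_Iic n)
    intro q hq
    have := hq.2.2.1
    rw [Set.mem_Iic]
    omega
  rcases Nat.even_or_odd n with he | ho
  · -- even case
    have hno : ¬ Odd n := Nat.not_odd_iff_even.2 he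
    have hN : Odd (n + 1) := he.add_one
    have h2 := h₁ n z (n + 1) 1 hn1 hz1 hz2 (by omega) le_rfl hN le_rfl
    have h3 := Fin_key (z := z) (N := n + 1) (e := 1) (fun m => 2 * m - 1)
      (fun a b ha hb hab => by omega) _ hfin (fun m hm hm1 => by
        obtain ⟨⟨hm2, hm3⟩, hm4, hm5⟩ := Fin_mem hm
        have hp : prt n (2 * m - 1) = n + 1 - 2 * m := by
          unfold prt
          rw [if_neg hno]
          omega
        have h4m : 4 * m ≤ n + 1 := by omega
        refine ⟨by omega, ?_, by omega, ?_, ?_⟩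
        · rw [hp]
          omega
        · unfold sm
          rw [if_neg hno]
          have : (2 * m - 1 + 1) / 2 = m := by omega
          rw [this]
          exact hm5
        · intro l hl hdiv
          apply hbig
          by_contra hlz
          rw [not_lt] at hlz
          apply hm4 l hl hlz
          rw [hp] at hdiv
          have h5 : L1 1 m * L2 (n + 1) m = (((2 * m - 1) * (n + 1 - 2 * m) : ℕ) : ℤ) := by
            unfold L1 L2
            rw [Nat.cast_mul, Nat.cast_sub (by omega), Nat.cast_sub (by omega)]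
            push_cast
            ring
          rw [h5]
          exact_mod_cast hdiv)
    have h4 : ((good 1 (n + 1) z ((n + 1) / 4)).card : ℝ) ≤
        (({q : ℕ | 1 < q ∧ 1 < prt n q ∧ 2 * q ≤ n ∧ sm n q = 1 ∧
          ∀ l : ℕ, l.Prime → l ∣ q * prt n q → n < l ^ 110}.ncard : ℕ) : ℝ) + 1 := by
      exact_mod_cast h3
    linarith
  · -- odd case
    have h2 := h₁ n z n 0 hn1 hz1 hz2 le_rfl (by omega) ho (by omega)
    have h3 := Fin_key (z := z) (N := n) (e := 0) (fun m => m)
      (fun a b ha hb hab => hab) _ hfin (fun m hm hm1 => by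
        obtain ⟨⟨hm2, hm3⟩, hm4, hm5⟩ := Fin_mem hm
        have hp : prt n m = n - 2 * m := by
          unfold prt
          rw [if_pos ho]
        have h4m : 4 * m ≤ n := by omega
        refine ⟨by omega, ?_, by omega, ?_, ?_⟩
        · rw [hp]
          omega
        · unfold sm
          rw [if_pos ho]
          exact hm5
        · intro l hl hdiv
          apply hbig
          by_contra hlz
          rw [not_lt] at hlz
          apply hm4 l hl hlz
          rw [hp] at hdiv
          have h5 : L1 0 m * L2 n m = ((m * (n - 2 * m) : ℕ) : ℤ) := by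
            unfold L1 L2
            rw [Nat.cast_mul, Nat.cast_sub (by omega)]
            push_cast
            ring
          rw [h5]
          exact_mod_cast hdiv)
    have h4 : ((good 0 n z (n / 4)).card : ℝ) ≤
        (({q : ℕ | 1 < q ∧ 1 < prt n q ∧ 2 * q ≤ n ∧ sm n q = 1 ∧
          ∀ l : ℕ, l.Prime → l ∣ q * prt n q → n < l ^ 110}.ncard : ℕ) : ℝ) + 1 := by
      exact_mod_cast h3
    linarith

end Pool.Agent.H.MP_0ec261_nt.AP
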