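import Mathlib

/-!
PROOF. `z → ∞` with `n`, as `n < (z + 1)^110`; `N ≤ n + 1 ≤ (z + 1)^110 ≤ (2 z)^110`, `N / 4 ≥ z^110 / 8` (floor; for `z` large),
`log N ≤ 110 log (2 z)`, `n^(3/4) ≤ (2 z)^(82.5)`, `√N ≤ (2 z)^55`. So it suffices that, for all large `z`,
`2 * 110 log (2 z) / z ≤ exp (-2) / (32 (log z)^2)`, `(2 z)^(82.5) + 1 + z^52 + 220 log (2 z) ≤ c z^84 / (log z)^2`,
`(2 z)^(82.5) + 1 + z^52 (2 + (2 z)^55 (1 + 110 log (2 z))) + 220 log (2 z) ≤ c' z^110 / (log z)^2` (constants `c, c'` depending on `W0`).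
(E.g. `log z ≤ z^(1/10)` for large `z`, `isLittleO_log_rpow_atTop`.)
-/

set_option autoImplicit false

namespace Pool.Agent.H.MP_0ec261_nt.AP

private theorem Num_exp : (1 : ℝ) / 8 ≤ Real.exp (-2) := by
  have h1 : Real.exp 1 < 2.7182818286 := Real.exp_one_lt_d9
  have h2 : Real.exp 2 ≤ 8 := by
    have h3 : Real.exp 2 = Real.exp 1 * Real.exp 1 := by
      rw [← Real.exp_add]
      norm_num
    have h4 : 0 < Real.exp 1 := Real.exp_pos 1
    rw [h3]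
    nlinarith
  rw [Real.exp_neg, one_div]
  exact inv_anti₀ (Real.exp_pos 2) h2

private theorem Num_core {x L W M A Q S : ℝ} (hx : 1 ≤ x) (hL : 1 ≤ L) (hW : 1 ≤ W)
    (h : 2 ^ 100 * W * L ^ 3 ≤ x) (hM : x ^ 110 / 8 ≤ M) (hA : A ≤ 2 ^ 83 * x ^ 83)
    (hQ0 : 0 ≤ Q) (hQ : Q ≤ 220 * L) (hS : S ≤ 2 ^ 55 * x ^ 55) :
    2 * Q / x ≤ Real.exp (-2) / (32 * L ^ 2) ∧
    A + 1 ≤ (1 / 2) * (M / (W * x ^ 26)) * (Real.exp (-2) / L ^ 2) - x ^ 52 - 2 * Q ∧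
    A + 1 ≤ (1 / 4) * (M / W) * (Real.exp (-2) / L ^ 2) - x ^ 52 * (2 + S * (1 + Q)) -
      2 * Q := by
  have hx0 : 0 < x := by linarith
  have hL0 : 0 < L := by linarith
  have hW0 : 0 < W := by linarith
  have he := Num_exp
  have hL1 : L ≤ L ^ 3 := le_self_pow₀ hL (by norm_num)
  have hL2 : L ^ 2 ≤ L ^ 3 := pow_le_pow_right₀ hL (by norm_num)
  have hL3 : 1 ≤ L ^ 3 := one_le_pow₀ hL
  have hLW : L ^ 3 ≤ W * L ^ 3 := le_mul_of_one_le_left (by positivity) hW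
  have hLx : L ≤ x := by nlinarith
  have heL : (1 / 8) / L ^ 2 ≤ Real.exp (-2) / L ^ 2 :=
    div_le_div_of_nonneg_right he (by positivity)
  refine ⟨?_, ?_, ?_⟩
  · have h1 : 2 * Q / x ≤ 440 * L / x := div_le_div_of_nonneg_right (by linarith) hx0.le
    have h2 : 440 * L / x ≤ (1 / 8) / (32 * L ^ 2) := by
      rw [div_le_div_iff₀ hx0 (by positivity)]
      have h3 : 440 * L * (32 * L ^ 2) = 14080 * L ^ 3 := by ring
      rw [h3]
      nlinarith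
    exact h1.trans (h2.trans (div_le_div_of_nonneg_right he (by positivity)))
  · have h1 : x ^ 84 / (8 * W) ≤ M / (W * x ^ 26) := by
      rw [div_le_div_iff₀ (by positivity) (by positivity)]
      have h2 : x ^ 84 * (W * x ^ 26) = x ^ 110 / 8 * (8 * W) := by ring
      rw [h2]
      exact mul_le_mul_of_nonneg_right hM (by positivity)
    have h2 : (1 / 2) * (x ^ 84 / (8 * W)) * ((1 / 8) / L ^ 2) ≤
        (1 / 2) * (M / (W * x ^ 26)) * (Real.exp (-2) / L ^ 2) :=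
      mul_le_mul (mul_le_mul_of_nonneg_left h1 (by norm_num)) heL (by positivity)
        (mul_nonneg (by norm_num) (le_trans (by positivity) h1))
    have h3 : 2 ^ 93 * x ^ 83 ≤ (1 / 2) * (x ^ 84 / (8 * W)) * ((1 / 8) / L ^ 2) := by
      have h4 : (1 / 2) * (x ^ 84 / (8 * W)) * ((1 / 8) / L ^ 2) =
          x ^ 84 / (128 * W * L ^ 2) := by
        field_simp
        norm_num
      rw [h4, le_div_iff₀ (by positivity)]
      have h5 : 2 ^ 93 * x ^ 83 * (128 * W * L ^ 2) = (2 ^ 100 * W * L ^ 2) * x ^ 83 := by ring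
      have h6 : x ^ 84 = x * x ^ 83 := by ring
      rw [h5, h6]
      refine mul_le_mul_of_nonneg_right (le_trans ?_ h) (by positivity)
      exact mul_le_mul_of_nonneg_left hL2 (by positivity)
    have p1 : (1 : ℝ) ≤ x ^ 83 := one_le_pow₀ hx
    have p2 : x ^ 52 ≤ x ^ 83 := pow_le_pow_right₀ hx (by norm_num)
    have p3 : L ≤ x ^ 83 := hLx.trans (le_self_pow₀ hx (by norm_num))
    linarith
  · have h2 : (1 / 4) * ((x ^ 110 / 8) / W) * ((1 / 8) / L ^ 2) ≤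
        (1 / 4) * (M / W) * (Real.exp (-2) / L ^ 2) := by
      have h1 : (x ^ 110 / 8) / W ≤ M / W := div_le_div_of_nonneg_right hM hW0.le
      exact mul_le_mul (mul_le_mul_of_nonneg_left h1 (by norm_num)) heL (by positivity)
        (mul_nonneg (by norm_num) (le_trans (by positivity) h1))
    have h3 : 2 ^ 92 * (L * x ^ 107) ≤ (1 / 4) * ((x ^ 110 / 8) / W) * ((1 / 8) / L ^ 2) := by
      have h4 : (1 / 4) * ((x ^ 110 / 8) / W) * ((1 / 8) / L ^ 2) =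
          x ^ 110 / (256 * W * L ^ 2) := by
        field_simp
        norm_num
      rw [h4, le_div_iff₀ (by positivity)]
      have h5 : 2 ^ 92 * (L * x ^ 107) * (256 * W * L ^ 2) =
          (2 ^ 100 * W * L ^ 3) * x ^ 107 := by ring
      have h6 : x ^ 110 = x ^ 3 * x ^ 107 := by ring
      rw [h5, h6]
      exact mul_le_mul_of_nonneg_right (h.trans (le_self_pow₀ hx (by norm_num))) (by positivity)
    have q1 : x ^ 107 ≤ L * x ^ 107 := le_mul_of_one_le_left (by positivity) hL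
    have p1 : (1 : ℝ) ≤ x ^ 107 := one_le_pow₀ hx
    have p2 : x ^ 52 ≤ x ^ 107 := pow_le_pow_right₀ hx (by norm_num)
    have p3 : x ^ 83 ≤ x ^ 107 := pow_le_pow_right₀ hx (by norm_num)
    have p4 : L ≤ L * x ^ 107 := le_mul_of_one_le_right hL0.le p1
    have p5 : S * (1 + Q) ≤ (2 ^ 55 * x ^ 55) * (221 * L) :=
      mul_le_mul hS (by linarith) (by linarith) (by positivity)
    have p6 : x ^ 52 * (2 + S * (1 + Q)) ≤ x ^ 52 * (2 + (2 ^ 55 * x ^ 55) * (221 * L)) :=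
      mul_le_mul_of_nonneg_left (by linarith) (by positivity)
    have p7 : x ^ 52 * (2 + (2 ^ 55 * x ^ 55) * (221 * L)) =
        2 * x ^ 52 + 2 ^ 55 * 221 * (L * x ^ 107) := by ring
    linarith

private theorem Num_a {x N : ℝ} (hx : 2 ≤ x) (h : N ≤ (2 * x) ^ 110) : N ≤ x ^ 220 := by
  have h1 : 2 * x ≤ x ^ 2 := by nlinarith
  have h0 : 0 ≤ 2 * x := by linarith
  have h2 := pow_le_pow_left₀ h0 h1 110
  rw [← pow_mul] at h2
  exact h.trans h2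

private theorem Num_b {x N : ℝ} (hx : 0 ≤ x) (h : N ≤ (2 * x) ^ 110) :
    Real.sqrt N ≤ 2 ^ 55 * x ^ 55 := by
  rw [← mul_pow]
  have h0 : 0 ≤ 2 * x := by linarith
  refine Real.sqrt_le_iff.2 ⟨pow_nonneg h0 55, ?_⟩
  rw [← pow_mul]
  exact h

private theorem Num_c {x n : ℝ} (hx : 1 ≤ x) (h0 : 0 ≤ n) (h : n ≤ (2 * x) ^ 110) :
    n ^ (3 / 4 : ℝ) ≤ 2 ^ 83 * x ^ 83 := by
  have h6 : (1 : ℝ) ≤ 2 * x := by linarith
  have h7 : (0 : ℝ) ≤ 2 * x := by linarith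
  have e1 : ((2 * x) ^ 110) ^ (3 / 4 : ℝ) = (2 * x) ^ (165 / 2 : ℝ) := by
    rw [← Real.rpow_natCast, ← Real.rpow_mul h7]
    norm_num
  have e2 : (2 * x) ^ (83 : ℝ) = (2 * x) ^ 83 := by
    rw [← Real.rpow_natCast]
    norm_num
  have h8 : n ^ (3 / 4 : ℝ) ≤ ((2 * x) ^ 110) ^ (3 / 4 : ℝ) :=
    Real.rpow_le_rpow h0 h (by norm_num)
  have h9 : (2 * x) ^ (165 / 2 : ℝ) ≤ (2 * x) ^ (83 : ℝ) :=
    Real.rpow_le_rpow_of_exponent_le h6 (by norm_num)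
  rw [e1] at h8
  rw [e2, mul_pow] at h9
  exact h8.trans h9

theorem num (Z0 W0 : ℕ) (hW0 : 0 < W0) : ∃ n₀ : ℕ, ∀ n z N : ℕ, n₀ ≤ n → z ^ 110 ≤ n →
    n < (z + 1) ^ 110 → n ≤ N → N ≤ n + 1 →
    Z0 ≤ z ∧ 2 * Real.log N / z ≤ Real.exp (-2) / (32 * (Real.log z) ^ 2) ∧
    (n : ℝ) ^ (3 / 4 : ℝ) + 1 ≤ (1 / 2) * (((N / 4 : ℕ) : ℝ) / ((W0 : ℝ) * (z : ℝ) ^ 26)) *
        (Real.exp (-2) / (Real.log z) ^ 2) - (z : ℝ) ^ 52 - 2 * Real.log N ∧
    (n : ℝ) ^ (3 / 4 : ℝ) + 1 ≤ (1 / 4) * (((N / 4 : ℕ) : ℝ) / (W0 : ℝ)) *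
        (Real.exp (-2) / (Real.log z) ^ 2) -
        (z : ℝ) ^ 52 * (2 + Real.sqrt N * (1 + Real.log N)) - 2 * Real.log N := by
  have hW : (1 : ℝ) ≤ W0 := by exact_mod_cast hW0
  have hC : (0 : ℝ) < 2 ^ 100 * W0 := by positivity
  have hev : ∀ᶠ z : ℕ in Filter.atTop, 2 ^ 100 * (W0 : ℝ) * Real.log z ^ 3 ≤ z := by
    have h1 := (Real.isLittleO_pow_log_id_atTop (n := 3)).bound (inv_pos.2 hC)
    have h2 := tendsto_natCast_atTop_atTop (R := ℝ) |>.eventually h1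
    filter_upwards [h2] with z hz
    rw [id, Real.norm_of_nonneg (Nat.cast_nonneg z)] at hz
    have h3 : Real.log z ^ 3 ≤ (2 ^ 100 * (W0 : ℝ))⁻¹ * z := (le_abs_self _).trans hz
    rwa [← div_eq_inv_mul, le_div_iff₀' hC] at h3
  obtain ⟨z1, hz1⟩ := Filter.eventually_atTop.1 hev
  refine ⟨(max (max z1 Z0) 3) ^ 110, ?_⟩
  intro n z N hn h1 h2 h3 h4
  have hz : max (max z1 Z0) 3 ≤ z := by
    by_contra hcon
    have h5 : z + 1 ≤ max (max z1 Z0) 3 := by omega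
    have h6 := Nat.pow_le_pow_left h5 110
    omega
  have hzz1 : z1 ≤ z := (le_max_left _ _).trans ((le_max_left _ _).trans hz)
  have hzZ : Z0 ≤ z := (le_max_right _ _).trans ((le_max_left _ _).trans hz)
  have hz3 : 3 ≤ z := (le_max_right _ _).trans hz
  have hx3 : (3 : ℝ) ≤ z := by exact_mod_cast hz3
  have hx1 : (1 : ℝ) ≤ z := by linarith
  have hL : 1 ≤ Real.log z := by
    rw [Real.le_log_iff_exp_le (by linarith)]
    have := Real.exp_one_lt_d9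
    linarith
  have hn1 : (z : ℝ) ^ 110 ≤ n := by exact_mod_cast h1
  have hnN : (n : ℝ) ≤ N := by exact_mod_cast h3
  have hN2 : N ≤ (2 * z) ^ 110 := by
    have h5 : (z + 1) ^ 110 ≤ (2 * z) ^ 110 := Nat.pow_le_pow_left (by omega) 110
    omega
  have hNr : (N : ℝ) ≤ (2 * z) ^ 110 := by exact_mod_cast hN2
  have hx110 : (1 : ℝ) ≤ (z : ℝ) ^ 110 := one_le_pow₀ hx1
  have hN0 : (0 : ℝ) < N := by linarith
  have hQ : Real.log N ≤ 220 * Real.log z := by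
    have h5 : (N : ℝ) ≤ (z : ℝ) ^ 220 := Num_a (by linarith) hNr
    have h6 := Real.log_le_log hN0 h5
    rw [Real.log_pow] at h6
    exact_mod_cast h6
  have hQ0 : 0 ≤ Real.log N := Real.log_nonneg (by linarith)
  have hS : Real.sqrt N ≤ 2 ^ 55 * (z : ℝ) ^ 55 := by
    exact Num_b (by linarith) hNr
  have hA : (n : ℝ) ^ (3 / 4 : ℝ) ≤ 2 ^ 83 * (z : ℝ) ^ 83 :=
    Num_c hx1 (Nat.cast_nonneg n) (hnN.trans hNr)
  have hM : (z : ℝ) ^ 110 / 8 ≤ ((N / 4 : ℕ) : ℝ) := by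
    have h5 : N < 4 * (N / 4) + 4 := by omega
    have h6 : (N : ℝ) < 4 * ((N / 4 : ℕ) : ℝ) + 4 := by exact_mod_cast h5
    have h7 : (8 : ℝ) ≤ (z : ℝ) ^ 110 := by
      have h8 : (3 : ℝ) ^ 110 ≤ (z : ℝ) ^ 110 := pow_le_pow_left₀ (by norm_num) hx3 110
      have h9 : (8 : ℝ) ≤ 3 ^ 110 := by norm_num
      linarith
    linarith
  exact ⟨hzZ, Num_core hx1 hL hW (hz1 z hzz1) hM hA hQ0 hQ hS⟩

end Pool.Agent.H.MP_0ec261_nt.AP
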