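import Pool.Agent.H.MP_0ec261_nt.AP.CaseA
import Pool.Agent.H.MP_0ec261_nt.AP.CaseB
import Pool.Agent.H.MP_0ec261_nt.AP.Num

/-!
PROOF of good_lower: `Z0 = 2^217` (`log Z0 ≥ 217 * 0.693 ≥ 150`; keep `Z0` opaque: obtain it from an existence statement, never
unfold the product over `pr Z0`), `Nat.sq_mul_squarefree` for `N`, case distinction caseA / caseB, num.
-/

set_option autoImplicit false

namespace Pool.Agent.H.MP_0ec261_nt.AP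

open Finset

theorem good_lower (hwv : ∀ Z0 z : ℕ, 150 ≤ Real.log Z0 → Z0 ≤ z → WV Z0 z) : ∃ n₀ : ℕ, ∀ n z N e : ℕ, n₀ ≤ n → z ^ 110 ≤ n → n < (z + 1) ^ 110 → n ≤ N →
    N ≤ n + 1 → Odd N → e ≤ 1 → (n : ℝ) ^ (3 / 4 : ℝ) + 1 ≤ ((good e N z (N / 4)).card : ℝ) := by
  obtain ⟨Z0, hZ2, hZ0⟩ : ∃ Z0 : ℕ, 2 ≤ Z0 ∧ 150 ≤ Real.log Z0 := by
    have h1 : Real.exp 150 ≤ (⌈Real.exp 150⌉₊ : ℝ) := Nat.le_ceil _
    have h2 : (150 : ℝ) + 1 ≤ Real.exp 150 := Real.add_one_le_exp 150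
    refine ⟨⌈Real.exp 150⌉₊, ?_, ?_⟩
    · have h3 : (2 : ℝ) ≤ (⌈Real.exp 150⌉₊ : ℝ) := by linarith
      exact_mod_cast h3
    · rw [Real.le_log_iff_exp_le (by linarith)]
      exact h1
  obtain ⟨W0, hW⟩ : ∃ W0 : ℕ, W0 = ∏ p ∈ pr Z0, p := ⟨_, rfl⟩
  have hW0 : 0 < W0 := by
    rw [hW]
    apply Finset.prod_pos
    intro p hp
    unfold pr at hp
    rw [mem_filter] at hp
    exact hp.2.pos
  obtain ⟨n₀, hn⟩ := num Z0 W0 hW0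
  refine ⟨n₀, fun n z N e hn1 hz1 hz2 hN1 hN2 hodd he => ?_⟩
  obtain ⟨h1, h2, h3, h4⟩ := hn n z N hn1 hz1 hz2 hN1 hN2
  obtain ⟨f, k, hfk, hf⟩ := Nat.sq_mul_squarefree N
  have hNf : N = f * k ^ 2 := by rw [← hfk]; ring
  rcases le_or_gt (((∏ p ∈ f.primeFactors.filter (fun p => Z0 < p), p : ℕ) : ℝ)) ((z : ℝ) ^ 26) with hc | hc
  · have h5 := caseA (M := N / 4) he hodd hZ2 h1 (hwv Z0 z hZ0 h1) hf hNf hc h2
    rw [← hW] at h5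
    exact h3.trans h5
  · have h5 := caseB (M := N / 4) he hodd hZ2 h1 (hwv Z0 z hZ0 h1) hf hNf hc h2
    rw [← hW] at h5
    exact h4.trans h5

end Pool.Agent.H.MP_0ec261_nt.AP
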