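import Mathlib

/-!
PROOF. As in Num.lean (copy and adapt it): `z → ∞` with `n`, `N ≤ n + 1 ≤ (z + 1)^53 ≤ (2 z)^53`, `N / 4 ≥ n / 8`, `log z ≤ log n`,
so the main terms are `≥ c0 n / (log n)^2` with `c0 = exp (-2) / (32 W0)`; take `c = c0 / 2`. The other terms are
`≤ C z^52.5 (log z)^2 + C log n ≤ (c0 / 2) n / (log n)^2 - 1` for large `n` (`n ≥ z^53`, `√N ≤ (2 z)^26.5`).
-/

set_option autoImplicit false

namespace Pool.Agent.H.MP_0ec261_nt.AP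

private theorem Num2_exp : (1 : ℝ) / 8 ≤ Real.exp (-2) := by
  have h1 : Real.exp 1 < 2.7182818286 := Real.exp_one_lt_d9
  have h2 : Real.exp 2 ≤ 8 := by
    have h3 : Real.exp 2 = Real.exp 1 * Real.exp 1 := by
      rw [← Real.exp_add]
      norm_num
    have h4 : 0 < Real.exp 1 := Real.exp_pos 1
    rw [h3]
    nlinarith
  rw [Real.exp_neg, one_div]
  exact inv_anti₀ (Real.exp_pos 2) h2

private theorem Num2_core {x y L W M Q S n l : ℝ} (hy : 1 ≤ y) (hxy : x = y ^ 2) (hL : 1 ≤ L)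
    (hW : 1 ≤ W) (h : 2 ^ 100 * W * L ^ 4 ≤ y) (hn : x ^ 53 ≤ n) (hM : n / 8 ≤ M) (hl : L ≤ l)
    (hQ0 : 0 ≤ Q) (hQ : Q ≤ 106 * L) (hS0 : 0 ≤ S) (hS : S ≤ 2 ^ 27 * (x ^ 26 * y)) :
    2 * Q / x ≤ Real.exp (-2) / (32 * L ^ 2) ∧
    1 / (512 * W) * n / l ^ 2 + 1 ≤ (1 / 4) * (M / W) * (Real.exp (-2) / L ^ 2) -
      x ^ 52 * (1 + 26 * L) - 2 * Q ∧
    1 / (512 * W) * n / l ^ 2 + 1 ≤ (1 / 4) * (M / W) * (Real.exp (-2) / L ^ 2) -
      x ^ 26 * (1 + 26 * L) * (2 + S * (1 + Q)) - 2 * Q := by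
  have hy0 : 0 < y := by linarith
  have hx : 1 ≤ x := by rw [hxy]; exact one_le_pow₀ hy
  have hx0 : 0 < x := by linarith
  have hyx : y ≤ x := by rw [hxy]; exact le_self_pow₀ hy (by norm_num)
  have hL0 : 0 < L := by linarith
  have hW0 : 0 < W := by linarith
  have hn0 : 0 < n := lt_of_lt_of_le (by positivity) hn
  have he := Num2_exp
  have hL3 : L ^ 3 ≤ L ^ 4 := pow_le_pow_right₀ hL (by norm_num)
  have hL4 : 0 < L ^ 4 := by positivity
  have hLW : L ^ 4 ≤ W * L ^ 4 := le_mul_of_one_le_left (by positivity) hW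
  have heL : (1 / 8) / L ^ 2 ≤ Real.exp (-2) / L ^ 2 :=
    div_le_div_of_nonneg_right he (by positivity)
  -- the main term
  have hmain : 2 * (n / (512 * W * L ^ 2)) ≤ (1 / 4) * (M / W) * (Real.exp (-2) / L ^ 2) := by
    have h1 : (n / 8) / W ≤ M / W := div_le_div_of_nonneg_right hM hW0.le
    have h2 : 2 * (n / (512 * W * L ^ 2)) = (1 / 4) * ((n / 8) / W) * ((1 / 8) / L ^ 2) := by
      field_simp
      norm_num
    rw [h2]
    exact mul_le_mul (mul_le_mul_of_nonneg_left h1 (by norm_num)) heL (by positivity)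
      (mul_nonneg (by norm_num) (le_trans (by positivity) h1))
  have hc : 1 / (512 * W) * n / l ^ 2 ≤ n / (512 * W * L ^ 2) := by
    have h1 : 1 / (512 * W) * n / l ^ 2 ≤ 1 / (512 * W) * n / L ^ 2 := by
      apply div_le_div_of_nonneg_left (by positivity) (by positivity)
      exact pow_le_pow_left₀ hL0.le hl 2
    refine h1.trans (le_of_eq ?_)
    field_simp
  have hB : 2 ^ 91 * (L ^ 2 * x ^ 52 * y) ≤ n / (512 * W * L ^ 2) := by
    rw [le_div_iff₀ (by positivity)]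
    refine le_trans ?_ hn
    have h5 : 2 ^ 91 * (L ^ 2 * x ^ 52 * y) * (512 * W * L ^ 2) =
        (2 ^ 100 * W * L ^ 4) * (x ^ 52 * y) := by ring
    have h6 : x ^ 53 = y * (x ^ 52 * y) := by
      have h7 : x ^ 53 = x ^ 52 * x := by ring
      have h8 : x ^ 52 * x = x ^ 52 * y ^ 2 := by rw [← hxy]
      rw [h7, h8]
      ring
    rw [h5, h6]
    exact mul_le_mul_of_nonneg_right h (by positivity)
  have p0 : (1 : ℝ) ≤ x ^ 52 := one_le_pow₀ hx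
  have p1 : (1 : ℝ) ≤ x ^ 52 * y := one_le_mul_of_one_le_of_one_le p0 hy
  have q1 : x ^ 52 ≤ x ^ 52 * y := le_mul_of_one_le_right (by positivity) hy
  have q0 : x ^ 26 ≤ x ^ 52 := pow_le_pow_right₀ hx (by norm_num)
  have hLL : L ≤ L ^ 2 := le_self_pow₀ hL (by norm_num)
  have r1 : L * x ^ 52 ≤ L ^ 2 * x ^ 52 * y := by
    calc L * x ^ 52 ≤ L ^ 2 * (x ^ 52 * y) := mul_le_mul hLL q1 (by positivity) (by positivity)
      _ = _ := by ring
  have r2 : L * x ^ 26 ≤ L ^ 2 * x ^ 52 * y :=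
    (mul_le_mul_of_nonneg_left q0 hL0.le).trans r1
  have r3 : L ≤ L ^ 2 * x ^ 52 * y := (le_mul_of_one_le_right hL0.le p0).trans r1
  have r4 : x ^ 52 ≤ L * x ^ 52 := le_mul_of_one_le_left (by positivity) hL
  refine ⟨?_, ?_, ?_⟩
  · have h1 : 2 * Q / x ≤ 212 * L / x := div_le_div_of_nonneg_right (by linarith) hx0.le
    have h2 : 212 * L / x ≤ (1 / 8) / (32 * L ^ 2) := by
      rw [div_le_div_iff₀ hx0 (by positivity)]
      have h3 : 212 * L * (32 * L ^ 2) = 6784 * L ^ 3 := by ring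
      rw [h3]
      linarith
    exact h1.trans (h2.trans (div_le_div_of_nonneg_right he (by positivity)))
  · have h1 : x ^ 52 * (1 + 26 * L) = x ^ 52 + 26 * (L * x ^ 52) := by ring
    rw [h1]
    linarith
  · have p5 : S * (1 + Q) ≤ (2 ^ 27 * (x ^ 26 * y)) * (107 * L) :=
      mul_le_mul hS (by linarith) (by linarith) (by positivity)
    have p6 : x ^ 26 * (1 + 26 * L) * (2 + S * (1 + Q)) ≤
        x ^ 26 * (27 * L) * (2 + (2 ^ 27 * (x ^ 26 * y)) * (107 * L)) := by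
      apply mul_le_mul
      · exact mul_le_mul_of_nonneg_left (by linarith) (by positivity)
      · linarith
      · have : 0 ≤ S * (1 + Q) := mul_nonneg hS0 (by linarith)
        linarith
      · positivity
    have p7 : x ^ 26 * (27 * L) * (2 + (2 ^ 27 * (x ^ 26 * y)) * (107 * L)) =
        54 * (L * x ^ 26) + 2 ^ 27 * 2889 * (L ^ 2 * x ^ 52 * y) := by ring
    linarith

private theorem Num2_a {x N : ℝ} (hx : 2 ≤ x) (h : N ≤ (2 * x) ^ 53) : N ≤ x ^ 106 := by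
  have h1 : 2 * x ≤ x ^ 2 := by nlinarith
  have h0 : 0 ≤ 2 * x := by linarith
  have h2 := pow_le_pow_left₀ h0 h1 53
  rw [← pow_mul] at h2
  exact h.trans h2

private theorem Num2_b {x N : ℝ} (hx : 0 ≤ x) (h : N ≤ (2 * x) ^ 53) :
    Real.sqrt N ≤ 2 ^ 27 * (x ^ 26 * Real.sqrt x) := by
  refine Real.sqrt_le_iff.2 ⟨by positivity, le_trans h ?_⟩
  have h1 : (2 ^ 27 * (x ^ 26 * Real.sqrt x)) ^ 2 = 2 ^ 54 * x ^ 52 * Real.sqrt x ^ 2 := by ring
  rw [h1, Real.sq_sqrt hx]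
  have h2 : (0 : ℝ) ≤ x ^ 53 := pow_nonneg hx 53
  have h3 : (2 * x) ^ 53 = 2 ^ 53 * x ^ 53 := by rw [mul_pow]
  have h4 : 2 ^ 54 * x ^ 52 * x = 2 ^ 54 * x ^ 53 := by ring
  rw [h3, h4]
  linarith

theorem num2 (Z0 W0 : ℕ) (hW0 : 0 < W0) : ∃ c : ℝ, 0 < c ∧ ∃ n₀ : ℕ, ∀ n z N : ℕ, n₀ ≤ n →
    z ^ 53 ≤ n → n < (z + 1) ^ 53 → n ≤ N → N ≤ n + 1 →
    Z0 ≤ z ∧ 2 * Real.log N / z ≤ Real.exp (-2) / (32 * (Real.log z) ^ 2) ∧
    c * n / (Real.log n) ^ 2 + 1 ≤ (1 / 4) * (((N / 4 : ℕ) : ℝ) / (W0 : ℝ)) *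
        (Real.exp (-2) / (Real.log z) ^ 2) - (z : ℝ) ^ 52 * (1 + 26 * Real.log z) -
        2 * Real.log N ∧
    c * n / (Real.log n) ^ 2 + 1 ≤ (1 / 4) * (((N / 4 : ℕ) : ℝ) / (W0 : ℝ)) *
        (Real.exp (-2) / (Real.log z) ^ 2) -
        (z : ℝ) ^ 26 * (1 + 26 * Real.log z) * (2 + Real.sqrt N * (1 + Real.log N)) -
        2 * Real.log N := by
  have hW : (1 : ℝ) ≤ W0 := by exact_mod_cast hW0
  have hC : (0 : ℝ) < (2 ^ 100 * W0) ^ 2 := by positivity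
  have hev : ∀ᶠ z : ℕ in Filter.atTop, 2 ^ 100 * (W0 : ℝ) * Real.log z ^ 4 ≤ Real.sqrt z := by
    have h1 := (Real.isLittleO_pow_log_id_atTop (n := 8)).bound (inv_pos.2 hC)
    have h2 := tendsto_natCast_atTop_atTop (R := ℝ) |>.eventually h1
    filter_upwards [h2] with z hz
    rw [id, Real.norm_of_nonneg (Nat.cast_nonneg z)] at hz
    have h3 : Real.log z ^ 8 ≤ ((2 ^ 100 * (W0 : ℝ)) ^ 2)⁻¹ * z := (le_abs_self _).trans hz
    rw [← div_eq_inv_mul, le_div_iff₀' hC] at h3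
    apply Real.le_sqrt_of_sq_le
    have h4 : (2 ^ 100 * (W0 : ℝ) * Real.log z ^ 4) ^ 2 =
        (2 ^ 100 * (W0 : ℝ)) ^ 2 * Real.log z ^ 8 := by ring
    rw [h4]
    exact h3
  obtain ⟨z1, hz1⟩ := Filter.eventually_atTop.1 hev
  refine ⟨1 / (512 * W0), by positivity, (max (max z1 Z0) 3) ^ 53, ?_⟩
  intro n z N hn h1 h2 h3 h4
  have hz : max (max z1 Z0) 3 ≤ z := by
    by_contra hcon
    have h5 : z + 1 ≤ max (max z1 Z0) 3 := by omega
    have h6 := Nat.pow_le_pow_left h5 53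
    omega
  have hzz1 : z1 ≤ z := (le_max_left _ _).trans ((le_max_left _ _).trans hz)
  have hzZ : Z0 ≤ z := (le_max_right _ _).trans ((le_max_left _ _).trans hz)
  have hz3 : 3 ≤ z := (le_max_right _ _).trans hz
  have hx3 : (3 : ℝ) ≤ z := by exact_mod_cast hz3
  have hx1 : (1 : ℝ) ≤ z := by linarith
  have hL : 1 ≤ Real.log z := by
    rw [Real.le_log_iff_exp_le (by linarith)]
    have := Real.exp_one_lt_d9
    linarith
  have hn1 : (z : ℝ) ^ 53 ≤ n := by exact_mod_cast h1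
  have hnN : (n : ℝ) ≤ N := by exact_mod_cast h3
  have hN2 : N ≤ (2 * z) ^ 53 := by
    have h5 : (z + 1) ^ 53 ≤ (2 * z) ^ 53 := Nat.pow_le_pow_left (by omega) 53
    omega
  have hNr : (N : ℝ) ≤ (2 * z) ^ 53 := by exact_mod_cast hN2
  have hx53 : (1 : ℝ) ≤ (z : ℝ) ^ 53 := one_le_pow₀ hx1
  have hN0 : (0 : ℝ) < N := by linarith
  have hQ : Real.log N ≤ 106 * Real.log z := by
    have h5 : (N : ℝ) ≤ (z : ℝ) ^ 106 := Num2_a (by linarith) hNr
    have h6 := Real.log_le_log hN0 h5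
    rw [Real.log_pow] at h6
    exact_mod_cast h6
  have hQ0 : 0 ≤ Real.log N := Real.log_nonneg (by linarith)
  have hS : Real.sqrt N ≤ 2 ^ 27 * ((z : ℝ) ^ 26 * Real.sqrt z) := Num2_b (by linarith) hNr
  have hl : Real.log z ≤ Real.log n :=
    Real.log_le_log (by linarith) ((le_self_pow₀ hx1 (by norm_num)).trans hn1)
  have hM : (n : ℝ) / 8 ≤ ((N / 4 : ℕ) : ℝ) := by
    have h5 : N < 4 * (N / 4) + 4 := by omega
    have h6 : (N : ℝ) < 4 * ((N / 4 : ℕ) : ℝ) + 4 := by exact_mod_cast h5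
    have h7 : (8 : ℝ) ≤ n := by
      have h8 : (3 : ℝ) ^ 53 ≤ (z : ℝ) ^ 53 := pow_le_pow_left₀ (by norm_num) hx3 53
      have h9 : (8 : ℝ) ≤ 3 ^ 53 := by norm_num
      linarith
    linarith
  have hy : 1 ≤ Real.sqrt z := by
    rw [Real.one_le_sqrt]
    exact hx1
  have hxy : (z : ℝ) = Real.sqrt z ^ 2 := (Real.sq_sqrt (by linarith)).symm
  exact ⟨hzZ, Num2_core hy hxy hL hW (hz1 z hzz1) hn1 hM hl hQ0 hQ (Real.sqrt_nonneg _) hS⟩

end Pool.Agent.H.MP_0ec261_nt.AP
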