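import Mathlib

/-!
Real inequalities for large `n`, general exponents.
-/

set_option autoImplicit false

namespace Pool.Agent.H.MP_0ec261_nt.AP

private theorem Num3_exp : (1 : ℝ) / 8 ≤ Real.exp (-2) := by
  have h1 : Real.exp 1 < 2.7182818286 := Real.exp_one_lt_d9
  have h2 : Real.exp 2 ≤ 8 := by
    have h3 : Real.exp 2 = Real.exp 1 * Real.exp 1 := by
      rw [← Real.exp_add]
      norm_num
    have h4 : 0 < Real.exp 1 := Real.exp_pos 1
    rw [h3]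
    nlinarith
  rw [Real.exp_neg, one_div]
  exact inv_anti₀ (Real.exp_pos 2) h2

private theorem Num3_ev (C η : ℝ) (s : ℕ) (hη : 0 < η) (hC : 0 < C) :
    ∀ᶠ x : ℕ in Filter.atTop, C * Real.log x ^ s ≤ (x : ℝ) ^ η := by
  have h1 := (isLittleO_log_rpow_rpow_atTop (s : ℝ) hη).bound (inv_pos.2 hC)
  have h2 := tendsto_natCast_atTop_atTop (R := ℝ) |>.eventually h1
  filter_upwards [h2, Filter.eventually_ge_atTop 1] with x hx hx1
  have hx1' : (1 : ℝ) ≤ x := by exact_mod_cast hx1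
  rw [Real.norm_of_nonneg (Real.rpow_nonneg (Real.log_nonneg hx1') _),
    Real.norm_of_nonneg (Real.rpow_nonneg (by linarith) _), ← div_eq_inv_mul,
    le_div_iff₀' hC, Real.rpow_natCast] at hx
  exact hx

private theorem Num3_fin {lz L W M A c : ℝ} (hlz0 : 0 < lz) (hlz : lz ≤ L) (hW : 0 < W)
    (hM0 : 0 ≤ M) (hc : c = Real.exp (-2) / (8 * W)) (hE : A + 1 ≤ c * M / L ^ 2) :
    c * M / L ^ 2 + 1 ≤ (1 / 4) * (M / W) * (Real.exp (-2) / lz ^ 2) - A := by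
  have hL : 0 < L := lt_of_lt_of_le hlz0 hlz
  have h1 : (1 / 4) * (M / W) * (Real.exp (-2) / L ^ 2) ≤
      (1 / 4) * (M / W) * (Real.exp (-2) / lz ^ 2) := by
    apply mul_le_mul_of_nonneg_left _ (by positivity)
    apply div_le_div_of_nonneg_left (Real.exp_pos _).le (by positivity)
    exact pow_le_pow_left₀ hlz0.le hlz 2
  have h2 : (1 / 4) * (M / W) * (Real.exp (-2) / L ^ 2) = 2 * (c * M / L ^ 2) := by
    rw [hc]
    field_simp
    ring
  linarith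

private theorem Num3_err {Y S L z26 lz lN rN : ℝ} (hY1 : 1 ≤ Y) (hS1 : 1 ≤ S) (hYS : Y ≤ S) (hL : 1 ≤ L)
    (h26 : z26 ≤ Y) (h260 : 0 ≤ z26) (hlz0 : 0 ≤ lz) (hlz : lz ≤ L) (hlN0 : 0 ≤ lN) (hlN : lN ≤ 2 * L)
    (hrN0 : 0 ≤ rN) (hrN : rN ≤ 2 * S) :
    z26 ^ 2 * (1 + 26 * lz) + 2 * lN + 1 ≤ 300 * (S * Y) * L ^ 2 ∧
    z26 * (1 + 26 * lz) * (2 + rN * (1 + lN)) + 2 * lN + 1 ≤ 300 * (S * Y) * L ^ 2 := by
  have hLL : L ≤ L ^ 2 := le_self_pow₀ hL (by norm_num)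
  have hL0 : 0 < L := by linarith
  have hSY : 1 ≤ S * Y := one_le_mul_of_one_le_of_one_le hS1 hY1
  have e1 : L ≤ S * Y * L ^ 2 := by
    calc L ≤ L ^ 2 := hLL
      _ ≤ S * Y * L ^ 2 := le_mul_of_one_le_left (by positivity) hSY
  have e2 : 1 + 26 * lz ≤ 27 * L := by linarith
  constructor
  · have h1 : z26 ^ 2 ≤ S * Y := by
      calc z26 ^ 2 ≤ Y ^ 2 := pow_le_pow_left₀ h260 h26 2
        _ = Y * Y := by ring
        _ ≤ S * Y := mul_le_mul_of_nonneg_right hYS (by linarith)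
    have h2 : z26 ^ 2 * (1 + 26 * lz) ≤ (S * Y) * (27 * L) :=
      mul_le_mul h1 e2 (by positivity) (by linarith)
    have h3 : (S * Y) * (27 * L) ≤ 27 * (S * Y * L ^ 2) := by
      have : S * Y * L ≤ S * Y * L ^ 2 := mul_le_mul_of_nonneg_left hLL (by linarith)
      linarith
    linarith
  · have h1 : 2 + rN * (1 + lN) ≤ 8 * (S * L) := by
      have h2 : rN * (1 + lN) ≤ (2 * S) * (3 * L) :=
        mul_le_mul hrN (by linarith) (by linarith) (by linarith)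
      have h3 : 1 ≤ S * L := one_le_mul_of_one_le_of_one_le hS1 hL
      linarith
    have h2 : z26 * (1 + 26 * lz) ≤ Y * (27 * L) :=
      mul_le_mul h26 e2 (by positivity) (by linarith)
    have h3 : z26 * (1 + 26 * lz) * (2 + rN * (1 + lN)) ≤ (Y * (27 * L)) * (8 * (S * L)) := by
      apply mul_le_mul h2 h1 _ (by positivity)
      have := mul_nonneg hrN0 (by linarith : (0 : ℝ) ≤ 1 + lN)
      linarith
    have h4 : (Y * (27 * L)) * (8 * (S * L)) = 216 * (S * Y * L ^ 2) := by ring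
    linarith

theorem num3 {δ : ℝ} {R : ℕ} (hδ0 : 0 < δ) (hδ : δ ≤ 1 / 2) (hR : 26 < δ * R) (Z0 W0 : ℕ)
    (hW0 : 0 < W0) : ∃ c : ℝ, 0 < c ∧ ∃ n₀ : ℕ, ∀ n z N M : ℕ, n₀ ≤ n →
    z ^ R ≤ n → n < (z + 1) ^ R → n ≤ N → N ≤ n + 1 → (n : ℝ) ^ (1 / 2 + δ) ≤ 5 * M →
    Z0 ≤ z ∧ 2 * Real.log N / z ≤ Real.exp (-2) / (32 * (Real.log z) ^ 2) ∧
    c * M / (Real.log n) ^ 2 + 1 ≤ (1 / 4) * ((M : ℝ) / (W0 : ℝ)) *
        (Real.exp (-2) / (Real.log z) ^ 2) - (z : ℝ) ^ 52 * (1 + 26 * Real.log z) -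
        2 * Real.log N ∧
    c * M / (Real.log n) ^ 2 + 1 ≤ (1 / 4) * ((M : ℝ) / (W0 : ℝ)) *
        (Real.exp (-2) / (Real.log z) ^ 2) -
        (z : ℝ) ^ 26 * (1 + 26 * Real.log z) * (2 + Real.sqrt N * (1 + Real.log N)) -
        2 * Real.log N := by
  have hR0 : 0 < R := by
    rcases Nat.eq_zero_or_pos R with h | h
    · rw [h] at hR
      norm_num at hR
    · exact h
  have hR0' : (0 : ℝ) < R := by exact_mod_cast hR0
  set a : ℝ := 26 / R with ha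
  have haδ : a < δ := by
    rw [ha, div_lt_iff₀ hR0']
    exact hR
  have ha0 : 0 < a := by rw [ha]; positivity
  set η : ℝ := δ - a with hη
  have hη0 : 0 < η := by rw [hη]; linarith
  have hW : (0 : ℝ) < W0 := by exact_mod_cast hW0
  obtain ⟨c, hc⟩ : ∃ c : ℝ, c = Real.exp (-2) / (8 * W0) := ⟨_, rfl⟩
  have hc0 : 0 < c := by rw [hc]; positivity
  have hC1 : (0 : ℝ) < (Z0 : ℝ) + 2048 := by positivity
  obtain ⟨n1, hn1⟩ := Filter.eventually_atTop.1 (Num3_ev ((Z0 : ℝ) + 2048) (1 / R) 3 (by positivity) hC1)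
  obtain ⟨n2, hn2⟩ := Filter.eventually_atTop.1 (Num3_ev (1500 / c) η 4 hη0 (by positivity))
  refine ⟨c, hc0, max (max n1 n2) 3, ?_⟩
  intro n z N M hn h1 h2 h3 h4 h5
  have hnn1 : n1 ≤ n := (le_max_left _ _).trans ((le_max_left _ _).trans hn)
  have hnn2 : n2 ≤ n := (le_max_right _ _).trans ((le_max_left _ _).trans hn)
  have hn3 : 3 ≤ n := (le_max_right _ _).trans hn
  have hA := hn1 n hnn1
  have hB := hn2 n hnn2
  have hX3 : (3 : ℝ) ≤ n := by exact_mod_cast hn3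
  have hX0 : (0 : ℝ) < n := by linarith
  obtain ⟨L, hL⟩ : ∃ L : ℝ, L = Real.log n := ⟨_, rfl⟩
  rw [← hL] at hA hB ⊢
  have hL1 : 1 ≤ L := by
    rw [hL, Real.le_log_iff_exp_le hX0]
    have := Real.exp_one_lt_d9
    linarith
  have hL3 : 1 ≤ L ^ 3 := one_le_pow₀ hL1
  -- z is large
  have hz1 : (n : ℝ) ^ ((1 : ℝ) / R) < z + 1 := by
    have h6 : (n : ℝ) < ((z : ℝ) + 1) ^ R := by exact_mod_cast h2
    have h7 := Real.rpow_lt_rpow hX0.le h6 (by positivity : (0 : ℝ) < 1 / R)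
    rw [one_div, Real.pow_rpow_inv_natCast (by positivity) hR0.ne'] at h7
    rw [one_div]
    exact h7
  have hz2 : ((Z0 : ℝ) + 2048) * L ^ 3 ≤ z + 1 := hA.trans hz1.le
  have hz3 : (Z0 : ℝ) + 2047 ≤ z := by
    have : ((Z0 : ℝ) + 2048) * 1 ≤ ((Z0 : ℝ) + 2048) * L ^ 3 :=
      mul_le_mul_of_nonneg_left hL3 hC1.le
    linarith
  have hZ00 : (0 : ℝ) ≤ Z0 := Nat.cast_nonneg _
  have hzZ : Z0 ≤ z := by
    have : (Z0 : ℝ) ≤ z := by linarith
    exact_mod_cast this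
  have hzr : (3 : ℝ) ≤ z := by linarith
  have hz0 : (0 : ℝ) < z := by linarith
  -- logarithms
  have hlz0 : 0 < Real.log z := Real.log_pos (by linarith)
  have hzn : (z : ℝ) ≤ n := by
    have h6 : z ≤ z ^ R := Nat.le_self_pow hR0.ne' z
    exact_mod_cast h6.trans h1
  have hlz : Real.log z ≤ L := by
    rw [hL]
    exact Real.log_le_log hz0 hzn
  have hNn : (N : ℝ) ≤ n ^ 2 := by
    have h6 : (N : ℝ) ≤ n + 1 := by exact_mod_cast h4
    nlinarith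
  have hnN : (n : ℝ) ≤ N := by exact_mod_cast h3
  have hlN0 : 0 ≤ Real.log N := Real.log_nonneg (by linarith)
  have hlN : Real.log N ≤ 2 * L := by
    have h6 := Real.log_le_log (by linarith) hNn
    rw [Real.log_pow, ← hL] at h6
    exact_mod_cast h6
  have he := Num3_exp
  have hM0 : (0 : ℝ) ≤ M := Nat.cast_nonneg _
  -- powers
  have h26 : (z : ℝ) ^ 26 ≤ (n : ℝ) ^ a := by
    have h6 : (z : ℝ) ^ R ≤ n := by exact_mod_cast h1
    have h7 := Real.rpow_le_rpow (by positivity) h6 ha0.le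
    have h8 : ((z : ℝ) ^ R) ^ a = (z : ℝ) ^ 26 := by
      rw [← Real.rpow_natCast (z : ℝ) R, ← Real.rpow_mul hz0.le, ha]
      rw [show (R : ℝ) * (26 / R) = ((26 : ℕ) : ℝ) by field_simp; norm_num, Real.rpow_natCast]
    rw [h8] at h7
    exact h7
  have hX1 : (1 : ℝ) ≤ n := by linarith
  have hY1 : 1 ≤ (n : ℝ) ^ a := Real.one_le_rpow hX1 ha0.le
  have hS1 : 1 ≤ (n : ℝ) ^ (1 / 2 : ℝ) := Real.one_le_rpow hX1 (by norm_num)
  have hYS : (n : ℝ) ^ a ≤ (n : ℝ) ^ (1 / 2 : ℝ) :=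
    Real.rpow_le_rpow_of_exponent_le hX1 (by linarith)
  have hrN : Real.sqrt N ≤ 2 * (n : ℝ) ^ (1 / 2 : ℝ) := by
    have h6 : (N : ℝ) ≤ 4 * n := by
      have h7 : (N : ℝ) ≤ n + 1 := by exact_mod_cast h4
      linarith
    have h7 := Real.sqrt_le_sqrt h6
    rw [Real.sqrt_mul (by norm_num)] at h7
    rw [show Real.sqrt 4 = 2 by
      rw [show (4 : ℝ) = 2 ^ 2 by norm_num, Real.sqrt_sq (by norm_num)]] at h7
    rw [← Real.sqrt_eq_rpow]
    exact h7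
  obtain ⟨E1, E2⟩ := Num3_err hY1 hS1 hYS hL1 h26 (by positivity) hlz0.le hlz hlN0 hlN
    (Real.sqrt_nonneg _) hrN
  have hpow : ((z : ℝ) ^ 26) ^ 2 = (z : ℝ) ^ 52 := by rw [← pow_mul]
  rw [hpow] at E1
  -- the main bound
  have hmain : 300 * ((n : ℝ) ^ (1 / 2 : ℝ) * (n : ℝ) ^ a) * L ^ 2 ≤ c * M / L ^ 2 := by
    have h6 : (n : ℝ) ^ (1 / 2 + δ) = ((n : ℝ) ^ (1 / 2 : ℝ) * (n : ℝ) ^ a) * (n : ℝ) ^ η := by
      rw [← Real.rpow_add hX0, ← Real.rpow_add hX0]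
      congr 1
      rw [hη]
      ring
    rw [h6] at h5
    set Y := (n : ℝ) ^ (1 / 2 : ℝ) * (n : ℝ) ^ a with hY
    have hY0 : 0 < Y := by positivity
    rw [le_div_iff₀ (by positivity)]
    have h7 : Y * (1500 / c * L ^ 4) ≤ 5 * M :=
      (mul_le_mul_of_nonneg_left hB hY0.le).trans h5
    have h8 : c * (Y * (1500 / c * L ^ 4)) = 1500 * Y * L ^ 4 := by
      field_simp
    have h9 := mul_le_mul_of_nonneg_left h7 hc0.le
    rw [h8] at h9
    have h10 : 300 * Y * L ^ 2 * L ^ 2 = 300 * Y * L ^ 4 := by ring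
    rw [h10]
    linarith
  refine ⟨hzZ, ?_, ?_, ?_⟩
  · rw [div_le_div_iff₀ hz0 (by positivity)]
    have h6 : 2 * Real.log N * (32 * Real.log z ^ 2) ≤ 128 * L ^ 3 := by
      have h7 : Real.log z ^ 2 ≤ L ^ 2 := pow_le_pow_left₀ hlz0.le hlz 2
      have h8 : Real.log N * Real.log z ^ 2 ≤ (2 * L) * L ^ 2 :=
        mul_le_mul hlN h7 (by positivity) (by linarith)
      have h9 : (2 * L) * L ^ 2 = 2 * L ^ 3 := by ring
      linarith
    have h7 : 1024 * L ^ 3 ≤ z := by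
      have h8 : 2048 * L ^ 3 ≤ ((Z0 : ℝ) + 2048) * L ^ 3 :=
        mul_le_mul_of_nonneg_right (by linarith) (by linarith)
      linarith
    have h8 : 1 / 8 * (z : ℝ) ≤ Real.exp (-2) * z := mul_le_mul_of_nonneg_right he hz0.le
    linarith
  · have h6 := Num3_fin hlz0 hlz hW hM0 hc (E1.trans hmain)
    linarith
  · have h6 := Num3_fin hlz0 hlz hW hM0 hc (E2.trans hmain)
    linarith

end Pool.Agent.H.MP_0ec261_nt.AP
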