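import Mathlib

/-!
PROOF. Induction on `T`: for coprime `D`, `p` the map `b ↦ (b % D, b % p)` is a bijection from `range (D * p)` to
`range D ×ˢ range p` (`Nat.chineseRemainder`), and `b % q = (b % D) % q` for `q ∣ D`.
-/

set_option autoImplicit false

namespace Pool.Agent.H.MP_0ec261_nt.AP

open Finset

private theorem Pf_two {p D : ℕ} (hp : 0 < p) (hD : 0 < D) (hc : Nat.Coprime p D)
    (G F : ℕ → ℤ) : ∑ b ∈ range (p * D), G (b % p) * F (b % D) =
      (∑ r ∈ range p, G r) * ∑ t ∈ range D, F t := by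
  rw [sum_mul_sum, ← sum_product']
  refine sum_nbij (fun b => (b % p, b % D)) ?_ ?_ ?_ ?_
  · intro b _
    rw [mem_product, mem_range, mem_range]
    exact ⟨Nat.mod_lt _ hp, Nat.mod_lt _ hD⟩
  · intro b hb b' hb' h
    have h1 : b % p = b' % p := congrArg Prod.fst h
    have h2 : b % D = b' % D := congrArg Prod.snd h
    have h3 : b ≡ b' [MOD p * D] := (Nat.modEq_and_modEq_iff_modEq_mul hc).1 ⟨h1, h2⟩
    rw [mem_coe, mem_range] at hb hb'
    exact h3.eq_of_lt_of_lt hb hb'
  · rintro ⟨r, t⟩ hx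
    rw [mem_coe, mem_product, mem_range, mem_range] at hx
    obtain ⟨k, hk1, hk2⟩ := Nat.chineseRemainder hc r t
    refine ⟨k % (p * D), ?_, ?_⟩
    · rw [mem_coe, mem_range]
      exact Nat.mod_lt _ (Nat.mul_pos hp hD)
    · have e1 : k % (p * D) % p = r := by
        rw [Nat.mod_mod_of_dvd _ (dvd_mul_right p D)]
        exact Nat.mod_eq_of_modEq hk1 hx.1
      have e2 : k % (p * D) % D = t := by
        rw [Nat.mod_mod_of_dvd _ (dvd_mul_left D p)]
        exact Nat.mod_eq_of_modEq hk2 hx.2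
      show (k % (p * D) % p, k % (p * D) % D) = (r, t)
      rw [e1, e2]
  · intro b _
    rfl

theorem prod_formula (T : Finset ℕ) (hT : ∀ p ∈ T, p.Prime) (h : ℕ → ℕ → ℤ) :
    ∑ b ∈ range (∏ p ∈ T, p), ∏ p ∈ T, h p (b % p) = ∏ p ∈ T, ∑ r ∈ range p, h p r := by
  induction T using Finset.induction_on with
  | empty => simp
  | insert p T hpT ih =>
    have hp : p.Prime := hT p (mem_insert_self p T)
    have hT' : ∀ q ∈ T, q.Prime := fun q hq => hT q (mem_insert_of_mem hq)
    rw [prod_insert hpT, prod_insert hpT, ← ih hT']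
    have hD : 0 < ∏ q ∈ T, q := prod_pos fun q hq => (hT' q hq).pos
    have hc : Nat.Coprime p (∏ q ∈ T, q) := by
      refine Nat.Coprime.prod_right fun q hq => ?_
      refine (Nat.coprime_primes hp (hT' q hq)).2 ?_
      rintro rfl
      exact hpT hq
    rw [← Pf_two hp.pos hD hc (h p) (fun t => ∏ q ∈ T, h q (t % q))]
    refine sum_congr rfl fun b _ => ?_
    rw [prod_insert hpT]
    congr 1
    refine prod_congr rfl fun q hq => ?_
    rw [Nat.mod_mod_of_dvd _ (dvd_prod_of_mem (fun q => q) hq)]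

end Pool.Agent.H.MP_0ec261_nt.AP
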