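import Pool.Agent.H.MP_0ec261_nt.AP.Defs

/-!
PROOF of sum_le: `∏_T card ≤ 2^|T| ≤ ∏_T p`, `T ↦ ∏_T p` is injective on sets of primes
(`Nat.primeFactors_prod`), with values in `[1, Q]`; so the sum is at most `∑_{r ≤ Q} r ≤ Q^2`
(compare the private lemma of Pool/Agent/H/MP_42e49e_nt/ER/KillB.lean before kill_one).
-/

set_option autoImplicit false

namespace Pool.Agent.H.MP_0ec261_nt.AP

open Finset

theorem sum_le (P : Finset ℕ) (hP : ∀ p ∈ P, p.Prime) (B : ℕ → Finset ℕ)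
    (hB2 : ∀ p ∈ P, (B p).card ≤ 2) {Q : ℝ} (hQ : 1 ≤ Q) :
    ∑ T ∈ P.powerset.filter (fun T => ((∏ p ∈ T, p : ℕ) : ℝ) ≤ Q), ∏ p ∈ T, ((B p).card : ℝ) ≤
      Q ^ 2 := by
  obtain ⟨A, hA⟩ : ∃ A, A = P.powerset.filter (fun T => ((∏ p ∈ T, p : ℕ) : ℝ) ≤ Q) := ⟨_, rfl⟩
  rw [← hA]
  have hAP : ∀ T ∈ A, T ⊆ P ∧ ((∏ p ∈ T, p : ℕ) : ℝ) ≤ Q := by
    intro T hT
    rw [hA, mem_filter, mem_powerset] at hT
    exact hT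
  have h1 : ∀ T ∈ A, ∏ p ∈ T, ((B p).card : ℝ) ≤ ((∏ p ∈ T, p : ℕ) : ℝ) := by
    intro T hT
    rw [Nat.cast_prod]
    refine prod_le_prod (fun p _ => Nat.cast_nonneg _) fun p hp => ?_
    have hpP := (hAP T hT).1 hp
    exact_mod_cast (hB2 p hpP).trans (hP p hpP).two_le
  have hinj : Set.InjOn (fun T : Finset ℕ => ∏ p ∈ T, p) (A : Set (Finset ℕ)) := by
    intro T hT T' hT' h
    have e1 := Nat.primeFactors_prod (s := T) (fun p hp => hP p ((hAP T (mem_coe.1 hT)).1 hp))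
    have e2 := Nat.primeFactors_prod (s := T') (fun p hp => hP p ((hAP T' (mem_coe.1 hT')).1 hp))
    simp only at h
    rw [← e1, ← e2, h]
  have h3 : ∑ T ∈ A, ((∏ p ∈ T, p : ℕ) : ℝ) = ∑ r ∈ A.image (fun T => ∏ p ∈ T, p), (r : ℝ) := by
    rw [sum_image hinj]
  have hQ0 : (0 : ℝ) ≤ Q := zero_le_one.trans hQ
  have h4 : ∑ r ∈ A.image (fun T => ∏ p ∈ T, p), (r : ℝ) ≤ ∑ r ∈ Icc 1 ⌊Q⌋₊, (r : ℝ) := by
    apply sum_le_sum_of_subset_of_nonneg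
    · intro r hr
      rw [mem_image] at hr
      obtain ⟨T, hT, rfl⟩ := hr
      obtain ⟨h5, h6⟩ := hAP T hT
      rw [mem_Icc]
      exact ⟨Nat.one_le_iff_ne_zero.2 (prod_ne_zero_iff.2 fun p hp => (hP p (h5 hp)).ne_zero),
        Nat.le_floor h6⟩
    · intro r _ _
      exact Nat.cast_nonneg r
  have h5 : ∑ r ∈ Icc 1 ⌊Q⌋₊, (r : ℝ) ≤ ∑ _r ∈ Icc 1 ⌊Q⌋₊, Q := by
    refine sum_le_sum fun r hr => ?_
    exact (Nat.cast_le.2 (mem_Icc.1 hr).2).trans (Nat.floor_le hQ0)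
  have h6 : ∑ _r ∈ Icc 1 ⌊Q⌋₊, Q = (⌊Q⌋₊ : ℝ) * Q := by
    rw [sum_const, Nat.card_Icc, nsmul_eq_mul, Nat.add_sub_cancel]
  calc ∑ T ∈ A, ∏ p ∈ T, ((B p).card : ℝ) ≤ ∑ T ∈ A, ((∏ p ∈ T, p : ℕ) : ℝ) := sum_le_sum h1
    _ = _ := h3
    _ ≤ _ := h4
    _ ≤ _ := h5
    _ = _ := h6
    _ ≤ Q * Q := mul_le_mul_of_nonneg_right (Nat.floor_le hQ0) hQ0
    _ = Q ^ 2 := (sq Q).symm

end Pool.Agent.H.MP_0ec261_nt.AP
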