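import Pool.Agent.H.MP_0ec261_nt.AP.Defs

/-!
PROOF of sum_le2: `∏_T card ≤ 2^|T| = (∏_T p).divisors.card`, `T ↦ ∏_T p` is injective on sets of primes with values
`r ∈ [1, Q]` (see SvA.lean), and `∑_{r ≤ Q} r.divisors.card = ∑_{d ≤ Q} floor(Q / d) ≤ Q (1 + log Q)`
(`harmonic_le_one_add_log`, `Nat.card_divisors`-type exchange: pairs `(d, r)`, `d ∣ r ≤ floor Q`).
-/

set_option autoImplicit false

namespace Pool.Agent.H.MP_0ec261_nt.AP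

open Finset

private theorem SvD_inj {T : Finset ℕ} (hT : ∀ p ∈ T, p.Prime) :
    Set.InjOn (fun S : Finset ℕ => ∏ p ∈ S, p) (T.powerset : Set (Finset ℕ)) := by
  intro S hS S' hS' h
  rw [mem_coe, mem_powerset] at hS hS'
  have e1 := Nat.primeFactors_prod (s := S) (fun p hp => hT p (hS hp))
  have e2 := Nat.primeFactors_prod (s := S') (fun p hp => hT p (hS' hp))
  simp only at h
  rw [← e1, ← e2, h]

private theorem SvD_card {T : Finset ℕ} (hT : ∀ p ∈ T, p.Prime) :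
    2 ^ T.card ≤ (∏ p ∈ T, p).divisors.card := by
  rw [← card_powerset]
  refine card_le_card_of_injOn (fun S : Finset ℕ => ∏ p ∈ S, p) (fun S hS => ?_) (SvD_inj hT)
  rw [mem_coe, mem_powerset] at hS
  rw [mem_coe, Nat.mem_divisors]
  exact ⟨prod_dvd_prod_of_subset _ _ _ hS, prod_ne_zero_iff.2 fun p hp => (hT p hp).ne_zero⟩

private theorem SvD_sum (M : ℕ) :
    ∑ r ∈ Ioc 0 M, (r.divisors.card : ℝ) ≤ M * (harmonic M : ℝ) := by
  have h1 : ∑ r ∈ Ioc 0 M, r.divisors.card ≤ ∑ d ∈ Ioc 0 M, M / d := by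
    calc ∑ r ∈ Ioc 0 M, r.divisors.card
        ≤ ∑ r ∈ Ioc 0 M, ((Ioc 0 M).filter (fun d => d ∣ r)).card := by
          refine sum_le_sum fun r hr => card_le_card fun d hd => ?_
          rw [mem_Ioc] at hr
          rw [Nat.mem_divisors] at hd
          rw [mem_filter, mem_Ioc]
          exact ⟨⟨Nat.pos_of_dvd_of_pos hd.1 hr.1, (Nat.le_of_dvd hr.1 hd.1).trans hr.2⟩, hd.1⟩
      _ = ∑ r ∈ Ioc 0 M, ∑ d ∈ Ioc 0 M, if d ∣ r then 1 else 0 := by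
          refine sum_congr rfl fun r _ => ?_
          rw [card_filter]
      _ = ∑ d ∈ Ioc 0 M, ∑ r ∈ Ioc 0 M, if d ∣ r then 1 else 0 := sum_comm
      _ = ∑ d ∈ Ioc 0 M, M / d := by
          refine sum_congr rfl fun d _ => ?_
          rw [← card_filter, Nat.Ioc_filter_dvd_card_eq_div]
  have h2 : (∑ r ∈ Ioc 0 M, (r.divisors.card : ℝ)) ≤ ∑ d ∈ Ioc 0 M, ((M / d : ℕ) : ℝ) := by
    exact_mod_cast h1
  refine h2.trans ?_
  have h3 : Ioc 0 M = Icc 1 M := by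
    ext x
    rw [mem_Ioc, mem_Icc]
    omega
  rw [harmonic_eq_sum_Icc, h3]
  push_cast
  rw [mul_sum]
  refine sum_le_sum fun d _ => ?_
  rw [← div_eq_mul_inv]
  exact Nat.cast_div_le

theorem sum_le2 (P : Finset ℕ) (hP : ∀ p ∈ P, p.Prime) (B : ℕ → Finset ℕ)
    (hB2 : ∀ p ∈ P, (B p).card ≤ 2) {Q : ℝ} (hQ : 1 ≤ Q) :
    ∑ T ∈ P.powerset.filter (fun T => ((∏ p ∈ T, p : ℕ) : ℝ) ≤ Q), ∏ p ∈ T, ((B p).card : ℝ) ≤
      Q * (1 + Real.log Q) := by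
  obtain ⟨A, hA⟩ : ∃ A, A = P.powerset.filter (fun T => ((∏ p ∈ T, p : ℕ) : ℝ) ≤ Q) := ⟨_, rfl⟩
  rw [← hA]
  have hAP : ∀ T ∈ A, T ⊆ P ∧ ((∏ p ∈ T, p : ℕ) : ℝ) ≤ Q := by
    intro T hT
    rw [hA, mem_filter, mem_powerset] at hT
    exact hT
  have h1 : ∀ T ∈ A, ∏ p ∈ T, ((B p).card : ℝ) ≤ ((∏ p ∈ T, p : ℕ).divisors.card : ℝ) := by
    intro T hT
    have h2 : ∏ p ∈ T, (B p).card ≤ 2 ^ T.card := by
      calc ∏ p ∈ T, (B p).card ≤ ∏ _p ∈ T, 2 :=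
            prod_le_prod (fun _ _ => Nat.zero_le _) fun p hp => hB2 p ((hAP T hT).1 hp)
        _ = 2 ^ T.card := by rw [prod_const]
    have h3 := h2.trans (SvD_card fun p hp => hP p ((hAP T hT).1 hp))
    exact_mod_cast h3
  have hinj : Set.InjOn (fun T : Finset ℕ => ∏ p ∈ T, p) (A : Set (Finset ℕ)) := by
    refine (SvD_inj hP).mono fun T hT => ?_
    rw [mem_coe, mem_powerset]
    exact (hAP T (mem_coe.1 hT)).1
  have h3 : ∑ T ∈ A, ((∏ p ∈ T, p : ℕ).divisors.card : ℝ) =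
      ∑ r ∈ A.image (fun T => ∏ p ∈ T, p), (r.divisors.card : ℝ) := by
    rw [sum_image hinj]
  have hQ0 : (0 : ℝ) ≤ Q := zero_le_one.trans hQ
  have h4 : ∑ r ∈ A.image (fun T => ∏ p ∈ T, p), (r.divisors.card : ℝ) ≤
      ∑ r ∈ Ioc 0 ⌊Q⌋₊, (r.divisors.card : ℝ) := by
    apply sum_le_sum_of_subset_of_nonneg
    · intro r hr
      rw [mem_image] at hr
      obtain ⟨T, hT, rfl⟩ := hr
      obtain ⟨h5, h6⟩ := hAP T hT
      rw [mem_Ioc]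
      exact ⟨Nat.pos_of_ne_zero (prod_ne_zero_iff.2 fun p hp => (hP p (h5 hp)).ne_zero),
        Nat.le_floor h6⟩
    · intro r _ _
      exact Nat.cast_nonneg _
  have h5 : (0 : ℝ) ≤ 1 + Real.log Q := by
    have := Real.log_nonneg hQ
    linarith
  calc ∑ T ∈ A, ∏ p ∈ T, ((B p).card : ℝ) ≤ ∑ T ∈ A, ((∏ p ∈ T, p : ℕ).divisors.card : ℝ) :=
        sum_le_sum h1
    _ = _ := h3
    _ ≤ _ := h4
    _ ≤ (⌊Q⌋₊ : ℝ) * (harmonic ⌊Q⌋₊ : ℝ) := SvD_sum _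
    _ ≤ (⌊Q⌋₊ : ℝ) * (1 + Real.log Q) :=
        mul_le_mul_of_nonneg_left (harmonic_floor_le_one_add_log Q hQ) (Nat.cast_nonneg _)
    _ ≤ Q * (1 + Real.log Q) := mul_le_mul_of_nonneg_right (Nat.floor_le hQ0) h5

end Pool.Agent.H.MP_0ec261_nt.AP
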