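import Pool.Agent.H.MP_0ec261_nt.AP.Crt
import Pool.Agent.H.MP_0ec261_nt.AP.Cnt
import Pool.Agent.H.MP_0ec261_nt.AP.SvD

/-!
The sieve. `V = ∏_P (1 - card / p)`, `X = M / W`, `θ±(m) = sw l± (ind B · m) P`.

PROOF. For `l = lp, lm`: `∑_{m ∈ cl M W a} F m * sw l (fun p => ind B p m) P = ∑_T l T ∑_m F m ∏_T ind` (exchange).
(1) `F = 1`: crt_sum with `μ = M / (W ∏_T p)`, `Bd = 1` (cl_card) gives
`|∑_m θ(m) - X * sw l (card / p) P| ≤ ∑_{T, ∏ T ≤ Q} ∏_T card ≤ Q (1 + log Q)` (sum_le; `|l T| ≤ 1`, `l T = 0` if `∏ T > Q`).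
The indicator of `sft` is `∏_P (1 - ind B p m)`, between `θ-` and `θ+` (fields lo, up of Wts). sieve_lower: fields lo, gm.
(2) sieve_sum: `∑_{sft} F = ∑_m F θ+ - ∑_m F (θ+ - 1_sft)`. `|∑_m F θ+| ≤ ∑_T |lp T| ∏_T card * Bd ≤ Q (1 + log Q) Bd` (crt_sum with
`μ = 0`), `|∑ F (θ+ - 1_sft)| ≤ ∑ (θ+ - θ-) ≤ X ((1 + δ) V - (1 - δ) V) + 2 Q (1 + log Q)`.
-/

set_option autoImplicit false

namespace Pool.Agent.H.MP_0ec261_nt.AP

open Finset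

private theorem SvE_key {B : ℕ → Finset ℕ} {P : Finset ℕ} {M W : ℕ} (a : ℕ) (hW : 0 < W)
    (hP : ∀ p ∈ P, p.Prime) (hPW : ∀ p ∈ P, ¬ p ∣ W) (hB : ∀ p ∈ P, B p ⊆ range p)
    (hB2 : ∀ p ∈ P, (B p).card ≤ 2) {Q : ℝ} (hQ : 1 ≤ Q) {l : Finset ℕ → ℝ}
    (hl : ∀ T, |l T| ≤ 1)
    (hs : ∀ T, T ⊆ P → l T ≠ 0 → ((∏ p ∈ T, p : ℕ) : ℝ) ≤ Q) (F : ℕ → ℝ) {Bd : ℝ}
    (hBd : 0 ≤ Bd) (μ : Finset ℕ → ℝ)
    (hF : ∀ T, T ⊆ P → ((∏ p ∈ T, p : ℕ) : ℝ) ≤ Q →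
      ∀ c, |∑ m ∈ cl M (W * ∏ p ∈ T, p) c, F m - μ T| ≤ Bd) :
    |∑ m ∈ cl M W a, F m * sw l (fun p => ind B p m) P -
      ∑ T ∈ P.powerset, l T * ((∏ p ∈ T, ((B p).card : ℝ)) * μ T)| ≤ (Q * (1 + Real.log Q)) * Bd := by
  have h1 : ∑ m ∈ cl M W a, F m * sw l (fun p => ind B p m) P =
      ∑ T ∈ P.powerset, l T * ∑ m ∈ cl M W a, F m * ∏ p ∈ T, ind B p m := by
    simp only [sw, mul_sum]
    rw [sum_comm]
    refine sum_congr rfl fun T _ => sum_congr rfl fun m _ => ?_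
    ring
  rw [h1, ← sum_sub_distrib]
  refine (abs_sum_le_sum_abs _ _).trans ?_
  have h2 : ∀ T ∈ P.powerset,
      |l T * ∑ m ∈ cl M W a, F m * ∏ p ∈ T, ind B p m -
        l T * ((∏ p ∈ T, ((B p).card : ℝ)) * μ T)| ≤
      if ((∏ p ∈ T, p : ℕ) : ℝ) ≤ Q then (∏ p ∈ T, ((B p).card : ℝ)) * Bd else 0 := by
    intro T hT
    have hTP : T ⊆ P := mem_powerset.1 hT
    rw [← mul_sub, abs_mul]
    by_cases h0 : l T = 0
    · rw [h0, abs_zero, zero_mul]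
      split_ifs
      · exact mul_nonneg (prod_nonneg fun _ _ => Nat.cast_nonneg _) hBd
      · exact le_rfl
    · have hTQ := hs T hTP h0
      rw [if_pos hTQ]
      have h3 := crt_sum F B M T (fun p hp => hP p (hTP hp)) (fun p hp => hB p (hTP hp)) a hW
        (fun p hp => hPW p (hTP hp)) (hF T hTP hTQ)
      calc |l T| * |∑ m ∈ cl M W a, F m * ∏ p ∈ T, ind B p m -
            (∏ p ∈ T, ((B p).card : ℝ)) * μ T|
          ≤ 1 * ((∏ p ∈ T, ((B p).card : ℝ)) * Bd) :=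
            mul_le_mul (hl T) h3 (abs_nonneg _) zero_le_one
        _ = (∏ p ∈ T, ((B p).card : ℝ)) * Bd := one_mul _
  refine (sum_le_sum h2).trans ?_
  rw [← sum_filter, ← sum_mul]
  exact mul_le_mul_of_nonneg_right (sum_le2 P hP B hB2 hQ) hBd

private theorem SvE_one {B : ℕ → Finset ℕ} {P : Finset ℕ} {M W : ℕ} (a : ℕ) (hW : 0 < W)
    (hP : ∀ p ∈ P, p.Prime) (hPW : ∀ p ∈ P, ¬ p ∣ W) (hB : ∀ p ∈ P, B p ⊆ range p)
    (hB2 : ∀ p ∈ P, (B p).card ≤ 2) {Q : ℝ} (hQ : 1 ≤ Q) {l : Finset ℕ → ℝ}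
    (hl : ∀ T, |l T| ≤ 1)
    (hs : ∀ T, T ⊆ P → l T ≠ 0 → ((∏ p ∈ T, p : ℕ) : ℝ) ≤ Q) :
    |∑ m ∈ cl M W a, sw l (fun p => ind B p m) P -
      ((M : ℝ) / W) * sw l (fun p => ((B p).card : ℝ) / p) P| ≤ (Q * (1 + Real.log Q)) := by
  have h := SvE_key a hW hP hPW hB hB2 hQ hl hs (fun _ => (1 : ℝ)) zero_le_one
    (M := M) (fun T => (M : ℝ) / ((W * ∏ p ∈ T, p : ℕ) : ℝ)) (by
      intro T hT _ c
      rw [sum_const, nsmul_eq_mul, mul_one]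
      exact cl_card M _ c (Nat.mul_pos hW (Nat.pos_of_ne_zero
        (prod_ne_zero_iff.2 fun p hp => (hP p (hT hp)).pos.ne'))))
  rw [mul_one] at h
  have h1 : ∑ T ∈ P.powerset, l T * ((∏ p ∈ T, ((B p).card : ℝ)) *
      ((M : ℝ) / ((W * ∏ p ∈ T, p : ℕ) : ℝ))) =
      ((M : ℝ) / W) * sw l (fun p => ((B p).card : ℝ) / p) P := by
    unfold sw
    rw [mul_sum]
    refine sum_congr rfl fun T hT => ?_
    rw [prod_div_distrib, Nat.cast_mul, Nat.cast_prod]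
    have hT0 : (∏ p ∈ T, (p : ℝ)) ≠ 0 := prod_ne_zero_iff.2 fun p hp =>
      Nat.cast_ne_zero.2 (hP p (mem_powerset.1 hT hp)).pos.ne'
    have hW0 : (W : ℝ) ≠ 0 := Nat.cast_ne_zero.2 hW.ne'
    field_simp
  rw [h1] at h
  simpa only [one_mul] using h

private theorem SvE_ind (B : ℕ → Finset ℕ) (p m : ℕ) : 0 ≤ ind B p m ∧ ind B p m ≤ 1 := by
  unfold ind
  split_ifs
  · exact ⟨zero_le_one, le_rfl⟩
  · exact ⟨le_rfl, zero_le_one⟩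

private theorem SvE_sft (B : ℕ → Finset ℕ) (P : Finset ℕ) (m : ℕ) :
    ∏ p ∈ P, (1 - ind B p m) = if (∀ p ∈ P, m % p ∉ B p) then 1 else 0 := by
  split_ifs with h
  · refine prod_eq_one fun p hp => ?_
    unfold ind
    rw [if_neg (h p hp), sub_zero]
  · push Not at h
    obtain ⟨p, hp, hm⟩ := h
    refine prod_eq_zero hp ?_
    unfold ind
    rw [if_pos hm, sub_self]

private theorem SvE_sum (B : ℕ → Finset ℕ) (P : Finset ℕ) (M W a : ℕ) (F : ℕ → ℝ) :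
    ∑ m ∈ sft B P M W a, F m = ∑ m ∈ cl M W a, F m * ∏ p ∈ P, (1 - ind B p m) := by
  unfold sft
  rw [sum_filter]
  refine sum_congr rfl fun m _ => ?_
  rw [SvE_sft]
  split_ifs
  · rw [mul_one]
  · rw [mul_zero]

theorem sieve_lower2 {B : ℕ → Finset ℕ} {P : Finset ℕ} {M W : ℕ} (a : ℕ) (hW : 0 < W)
    (hP : ∀ p ∈ P, p.Prime) (hPW : ∀ p ∈ P, ¬ p ∣ W) (hB : ∀ p ∈ P, B p ⊆ range p)
    (hB2 : ∀ p ∈ P, (B p).card ≤ 2) {Q δ : ℝ} (hQ : 1 ≤ Q) {lp lm : Finset ℕ → ℝ}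
    (h : Wts P (fun p => ((B p).card : ℝ) / p) Q δ lp lm) :
    (1 - δ) * ((M : ℝ) / W) * ∏ p ∈ P, (1 - ((B p).card : ℝ) / p) - (Q * (1 + Real.log Q)) ≤
      ((sft B P M W a).card : ℝ) := by
  have h1 := SvE_one (M := M) a hW hP hPW hB hB2 hQ h.bm h.sm
  have h2 : ((sft B P M W a).card : ℝ) = ∑ m ∈ cl M W a, ∏ p ∈ P, (1 - ind B p m) := by
    have h3 := SvE_sum B P M W a (fun _ => (1 : ℝ))
    rw [sum_const, nsmul_eq_mul, mul_one] at h3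
    simpa only [one_mul] using h3
  have h4 : ∑ m ∈ cl M W a, sw lm (fun p => ind B p m) P ≤
      ∑ m ∈ cl M W a, ∏ p ∈ P, (1 - ind B p m) :=
    sum_le_sum fun m _ => h.lo _ fun p _ => SvE_ind B p m
  have hX : (0 : ℝ) ≤ (M : ℝ) / W := by positivity
  have h5 := mul_le_mul_of_nonneg_left h.gm hX
  have h6 := (abs_le.1 h1).1
  rw [h2]
  linarith

theorem sieve_sum2 {B : ℕ → Finset ℕ} {P : Finset ℕ} {M W : ℕ} (a : ℕ) (hW : 0 < W)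
    (hP : ∀ p ∈ P, p.Prime) (hPW : ∀ p ∈ P, ¬ p ∣ W) (hB : ∀ p ∈ P, B p ⊆ range p)
    (hB2 : ∀ p ∈ P, (B p).card ≤ 2) {Q δ : ℝ} (hQ : 1 ≤ Q) {lp lm : Finset ℕ → ℝ}
    (h : Wts P (fun p => ((B p).card : ℝ) / p) Q δ lp lm) {F : ℕ → ℝ} (hF : ∀ m, |F m| ≤ 1)
    {Bd : ℝ} (hBd : 0 ≤ Bd)
    (hcl : ∀ T, T ⊆ P → ((∏ p ∈ T, p : ℕ) : ℝ) ≤ Q →
      ∀ c, |∑ m ∈ cl M (W * ∏ p ∈ T, p) c, F m| ≤ Bd) :
    |∑ m ∈ sft B P M W a, F m| ≤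
      (Q * (1 + Real.log Q)) * Bd + 2 * δ * ((M : ℝ) / W) * ∏ p ∈ P, (1 - ((B p).card : ℝ) / p) + 2 * (Q * (1 + Real.log Q)) := by
  have hm := SvE_one (M := M) a hW hP hPW hB hB2 hQ h.bm h.sm
  have hp := SvE_one (M := M) a hW hP hPW hB hB2 hQ h.bp h.sp
  have hk := SvE_key (M := M) a hW hP hPW hB hB2 hQ h.bp h.sp F hBd (fun _ => 0) (by
    intro T hT hTQ c
    rw [sub_zero]
    exact hcl T hT hTQ c)
  simp only [mul_zero, sum_const_zero, sub_zero] at hk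
  have hX : (0 : ℝ) ≤ (M : ℝ) / W := by positivity
  have h1 : ∑ m ∈ sft B P M W a, F m = ∑ m ∈ cl M W a, F m * sw lp (fun p => ind B p m) P -
      ∑ m ∈ cl M W a, F m * (sw lp (fun p => ind B p m) P - ∏ p ∈ P, (1 - ind B p m)) := by
    rw [SvE_sum, ← sum_sub_distrib]
    refine sum_congr rfl fun m _ => ?_
    ring
  have hup : ∀ m, ∏ p ∈ P, (1 - ind B p m) ≤ sw lp (fun p => ind B p m) P :=
    fun m => h.up _ fun p _ => SvE_ind B p m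
  have hlo : ∀ m, sw lm (fun p => ind B p m) P ≤ ∏ p ∈ P, (1 - ind B p m) :=
    fun m => h.lo _ fun p _ => SvE_ind B p m
  have h2 : |∑ m ∈ cl M W a, F m * (sw lp (fun p => ind B p m) P - ∏ p ∈ P, (1 - ind B p m))| ≤
      ∑ m ∈ cl M W a, sw lp (fun p => ind B p m) P -
        ∑ m ∈ cl M W a, sw lm (fun p => ind B p m) P := by
    refine (abs_sum_le_sum_abs _ _).trans ?_
    rw [← sum_sub_distrib]
    refine sum_le_sum fun m _ => ?_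
    rw [abs_mul, abs_of_nonneg (sub_nonneg.2 (hup m))]
    have h3 := mul_le_mul_of_nonneg_right (hF m) (sub_nonneg.2 (hup m))
    have h4 := hlo m
    linarith
  have h5 := mul_le_mul_of_nonneg_left h.gm hX
  have h6 := mul_le_mul_of_nonneg_left h.gp hX
  have h7 := (abs_le.1 hm).1
  have h8 := (abs_le.1 hp).2
  have h9 := abs_sub (∑ m ∈ cl M W a, F m * sw lp (fun p => ind B p m) P)
    (∑ m ∈ cl M W a, F m * (sw lp (fun p => ind B p m) P - ∏ p ∈ P, (1 - ind B p m)))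
  rw [h1]
  linarith

end Pool.Agent.H.MP_0ec261_nt.AP
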