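import Pool.Agent.H.MP_0ec261_nt.AP.Defs
import Pool.Agent.H.MP_42e49e_nt.ER.Fl
import Pool.Agent.H.MP_42e49e_nt.ER.MertA
import Pool.Agent.H.MP_42e49e_nt.ER.MertB

/-!
The names `sw`, `Wts` here are the copies in AP/Defs (identical definitions: convert field by field).

PROOF of the weights: `Pool.MP42e49e.ER.fl 5 le_rfl (Real.log z)`, `block_le` (compare `Sz.wts` in
Pool/Agent/H/MP_42e49e_nt/ER/P2.lean); `card / p ≤ 2 / p ≤ 2 / (p - 1)`, `exp (26 log z) = z^26`, `1 / 2^5 = 1 / 32`.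

PROOF of the lower bound of the product: `1 - 2 / p ≥ (1 - g1 p)^2` with `g1 p = 1 / (p - 1)`; `V_ge`, `sum_window Z0 z`
(`12 / log Z0 ≤ 1 ≤ log log Z0`): `∏ (1 - g1 p) ≥ exp (-1) / log z` (compare `Sz.rough_V`).
-/

set_option autoImplicit false

namespace Pool.Agent.H.MP_0ec261_nt.AP

open Finset

private theorem Vb_sq {p : ℝ} (hp : 5 ≤ p) {c : ℝ} (hc : c ≤ 2) :
    (1 - 1 / (p - 1)) ^ 2 ≤ 1 - c / p := by
  have h1 : 0 < p - 1 := by linarith
  have h2 : 0 < p := by linarith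
  have h3 : c / p ≤ 2 / p := div_le_div_of_nonneg_right hc h2.le
  have h4 : (1 - 1 / (p - 1)) ^ 2 ≤ 1 - 2 / p := by
    have e : 1 - 2 / p - (1 - 1 / (p - 1)) ^ 2 = (p - 2) / (p * (p - 1) ^ 2) := by
      field_simp
      ring
    have h5 : 0 ≤ (p - 2) / (p * (p - 1) ^ 2) := div_nonneg (by linarith) (by positivity)
    linarith
  linarith

theorem wv {Z0 z : ℕ} (hZ0 : 150 ≤ Real.log Z0) (hz : Z0 ≤ z) : WV Z0 z := by
  intro B P hP hB
  have hZp : (0 : ℝ) < Z0 := by
    by_contra hcon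
    have h1 : (Z0 : ℝ) = 0 := le_antisymm (not_lt.1 hcon) (Nat.cast_nonneg _)
    rw [h1, Real.log_zero] at hZ0
    norm_num at hZ0
  have hZ151 : (151 : ℝ) ≤ Z0 := by
    have h1 := Real.add_one_le_exp (150 : ℝ)
    have h2 : Real.exp 150 ≤ Z0 := (Real.le_log_iff_exp_le hZp).1 hZ0
    linarith
  have hzr : (Z0 : ℝ) ≤ z := by exact_mod_cast hz
  have hlz : Real.log Z0 ≤ Real.log z := Real.log_le_log hZp hzr
  have hl0 : 0 < Real.log z := by linarith
  have hz0 : (0 : ℝ) < z := by linarith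
  have hp : ∀ p ∈ P, p.Prime ∧ (151 : ℝ) < p ∧ Real.log p ≤ Real.log z ∧ 150 < Real.log p ∧
      5 ≤ p := by
    intro p hp
    obtain ⟨h1, h2, h3⟩ := hP p hp
    have h2r : (Z0 : ℝ) < p := by exact_mod_cast h2
    have h3r : (p : ℝ) ≤ z := by exact_mod_cast h3
    have h4 : (151 : ℝ) < p := by linarith
    have h5 : ((5 : ℕ) : ℝ) ≤ p := by push_cast; linarith
    exact ⟨h1, h4, Real.log_le_log (by linarith) h3r,
      lt_of_le_of_lt hZ0 (Real.log_lt_log hZp h2r), by exact_mod_cast h5⟩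
  have hc : ∀ p ∈ P, ((B p).card : ℝ) ≤ 2 := fun p hp' => by exact_mod_cast hB p hp'
  refine ⟨?_, ?_⟩
  · obtain ⟨lp, lm, hW⟩ := Pool.MP42e49e.ER.fl 5 le_rfl (Real.log z) hl0.le P
      (fun p => ((B p).card : ℝ) / p) (fun p hp' => ⟨(hp p hp').1, (hp p hp').2.2.1⟩)
      (fun p hp' => by
        have h1 := (hp p hp').2.1
        refine ⟨div_nonneg (Nat.cast_nonneg _) (by linarith), ?_⟩
        rw [div_le_iff₀ (by linarith)]
        have := hc p hp'
        linarith)
      (fun v => Pool.MP42e49e.ER.block_le P _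
        (fun p hp' => ⟨(hp p hp').1, (hp p hp').2.2.2.1⟩)
        (fun p hp' => by
          have h1 := (hp p hp').2.1
          have h2 := hc p hp'
          rw [div_le_div_iff₀ (by linarith) (by linarith)]
          nlinarith) v)
    have e1 : Real.exp (Real.log z * (4 * ((5 : ℕ) : ℝ) + 6)) = (z : ℝ) ^ 26 := by
      have h1 : Real.log z * (4 * ((5 : ℕ) : ℝ) + 6) = ((26 : ℕ) : ℝ) * Real.log z := by
        push_cast
        ring
      rw [h1, Real.exp_nat_mul, Real.exp_log hz0]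
    have e2 : (1 : ℝ) / 2 ^ 5 = 1 / 32 := by norm_num
    rw [e1, e2] at hW
    exact ⟨lp, lm, ⟨hW.bp, hW.bm, hW.sp, hW.sm, hW.up, hW.lo, hW.gp, hW.gm⟩⟩
  · have hV := Pool.MP42e49e.ER.V_ge P fun p hp' => ⟨(hp p hp').1, (hp p hp').2.2.2.2⟩
    have h2Z : 2 ≤ Z0 := by
      have : ((2 : ℕ) : ℝ) ≤ Z0 := by push_cast; linarith
      exact_mod_cast this
    have hS := Pool.MP42e49e.ER.sum_window Z0 z h2Z hz P hP
    have h4 : 12 / Real.log Z0 ≤ 1 := by
      rw [div_le_one (by linarith)]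
      linarith
    have h5 : 1 ≤ Real.log (Real.log Z0) := by
      rw [Real.le_log_iff_exp_le (by linarith)]
      have := Real.exp_one_lt_d9
      linarith
    have h6 : Real.exp (-1) / Real.log z ≤ ∏ p ∈ P, (1 - Pool.MP42e49e.ER.g1 p) := by
      refine le_trans ?_ hV
      have h7 : Real.exp (-(Real.log (Real.log z))) = 1 / Real.log z := by
        rw [Real.exp_neg, Real.exp_log hl0, one_div]
      have h8 : Real.exp (-1) / Real.log z =
          Real.exp (-1) * Real.exp (-(Real.log (Real.log z))) := by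
        rw [h7]
        ring
      rw [h8]
      refine mul_le_mul_of_nonneg_left (Real.exp_le_exp.2 ?_) (Real.exp_pos _).le
      linarith
    have h9 : Real.exp (-2) / (Real.log z) ^ 2 = (Real.exp (-1) / Real.log z) ^ 2 := by
      rw [div_pow, ← Real.exp_nat_mul]
      norm_num
    rw [h9]
    refine (pow_le_pow_left₀ (by positivity) h6 2).trans ?_
    rw [← Finset.prod_pow]
    refine Finset.prod_le_prod (fun p _ => sq_nonneg _) fun p hp' => ?_
    have h10 := (hp p hp').2.1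
    exact Vb_sq (by linarith) (hc p hp')

end Pool.Agent.H.MP_0ec261_nt.AP
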